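import Pool.Agent.helper13.U4B.CQ
import Pool.Agent.helper31.U4.DE1
import Pool.Agent.helper39.U4.DC2
import Pool.Agent.helper52.U4.DD
import Pool.Agent.helper84.U4.DA

/-!
# Project U4, extension: `ρ ≤ 2 h + 6`, `q ≥ 2`
-/

set_option autoImplicit false

namespace Pool.Agent.U4B

open Pool.Agent.UL Pool.Agent.U4

theorem DC1b (k q h v : ℕ) (x : ℕ → ℕ → Bool) (hP : Par1 k q h v) (hk : 4 ≤ k) (hq : 2 ≤ q) (hF : FL h q v x)
    (hL : LW h v x) (ρ σ : ℕ) (hρ3 : 3 ≤ ρ) (hρh : ρ ≤ 2 * h) (hρ4 : ρ % 4 ≠ 1) (hσ : σ + 2 * h < v) :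
    TwoW v x ρ σ := by
  obtain ⟨h16, hh16⟩ := hP.h16 hk
  have hv5 := hP.five hq
  exact ⟨ρ - 2, v - h, 0, σ + h, ρ - 2, v - 2 * h, 0, σ + 2 * h,
    ⟨lt1 hP hL 1 (v - h) (ρ - 2) (by omega) (by omega) (by omega) (by omega), hF.r0 _ (by omega),
      by omega, by omega, by omega, Or.inr ⟨by omega, by omega⟩⟩,
    ⟨lt1 hP hL 2 (v - 2 * h) (ρ - 2) (by omega) (by omega) (by omega) (by omega), hF.r0 _ (by omega),
      by omega, by omega, by omega, Or.inr ⟨by omega, by omega⟩⟩, by omega, by omega⟩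

theorem FEF (k q h v : ℕ) (x : ℕ → ℕ → Bool) (hP : Par1 k q h v) (hF : FL h q v x) (ρ : ℕ)
    (h3 : 3 ≤ ρ) (h4 : ρ % 4 = 3) (h5 : ρ + 5 ≤ 2 * h) :
    ∃ a b, a ≠ b ∧ a + 1 ≤ h ∧ b + 1 ≤ h ∧ x a ρ = true ∧ x b ρ = true := by
  have hh := hP.hh
  set j := Nat.log 2 ((ρ + 1) / 2) with hj
  have hpos : (ρ + 1) / 2 ≠ 0 := by omega
  have l1 : 2 ^ j ≤ (ρ + 1) / 2 := Nat.pow_log_le_self 2 hpos
  have l2 : (ρ + 1) / 2 < 2 ^ (j + 1) := Nat.lt_pow_succ_log_self (by norm_num) _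
  rw [pow_succ] at l2
  have hj1 : 1 ≤ j := by
    rw [hj]
    apply Nat.le_log_of_pow_le (by norm_num)
    omega
  obtain ⟨j', hj'⟩ : ∃ j', j = j' + 1 := ⟨j - 1, by omega⟩
  obtain ⟨G, hG⟩ : ∃ G, 2 ^ j = 2 * G := ⟨2 ^ j', by rw [hj', pow_succ]; ring⟩
  have hle : 2 * 2 ^ j ≤ h := by
    have h5 : 2 ^ (j + 1) < 2 ^ (k + 1) := by
      have e1 : 2 ^ (k + 1) = 2 * h := by rw [hh]; ring
      rw [e1, pow_succ]
      omega
    have h6 : j + 1 < k + 1 := (Nat.pow_lt_pow_iff_right (by norm_num)).1 h5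
    have h7 : 2 ^ (j + 1) ≤ 2 ^ k := Nat.pow_le_pow_right (by norm_num) (by omega)
    rw [← hh, pow_succ] at h7
    omega
  obtain ⟨i, hi⟩ : ∃ i, ρ = 2 * 2 ^ j - 1 + 4 * i := ⟨(ρ + 1 - 2 * 2 ^ j) / 4, by omega⟩
  have hi4 : 4 * i + 4 ≤ 2 * 2 ^ j := by omega
  have x1 := hF.fe j hj1 hle (4 * i) (by omega) (by omega)
  have x2 := hF.ff j hj1 hle i hi4
  rw [← hi] at x1 x2
  exact ⟨_, _, by omega, by omega, by omega, x1, x2⟩

theorem DC2b (k q h v : ℕ) (x : ℕ → ℕ → Bool) (hP : Par1 k q h v) (hk : 4 ≤ k) (hq : 2 ≤ q) (hF : FL h q v x)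
    (hL : LW h v x) (hC : CQ2 h v x) (ρ σ : ℕ) (h3 : 3 ≤ ρ) (h2 : ρ ≤ 2 * h) (hρ4 : ρ % 4 ≠ 1)
    (hv : v ≤ σ + 2 * h) (hσ : σ < v) : TwoW v x ρ σ := by
  obtain ⟨h16, hh16⟩ := hP.h16 hk
  have hv5 := hP.five hq
  by_cases c1 : ρ % 4 = 3
  · by_cases c2 : ρ = 2 * h - 1
    · subst c2
      exact DC2_aux v x hF.r0 _ σ h (h + 1) h3 hσ (by omega) (by omega) (by omega)
        (colA hC.m1 1 h (by omega) (by omega) (by omega) (Or.inr rfl))
        (colA hC.m1 1 (h + 1) (by omega) (by omega) (by omega) (Or.inr rfl))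
    · obtain ⟨a, b, hab, ha, hb, xa, xb⟩ := FEF k q h v x hP hF ρ h3 c1 (by omega)
      exact DC2_aux v x hF.r0 _ σ a b h3 hσ (by omega) (by omega) hab xa xb
  · by_cases c2 : ρ = 2 * h
    · subst c2
      exact DC2_aux v x hF.r0 _ σ (h + 1) (h + 3) h3 hσ (by omega) (by omega) (by omega)
        (colA hC.f0 1 (h + 1) (by omega) (by omega) (by omega) (by unfold c0; omega))
        (colA hC.f0 1 (h + 3) (by omega) (by omega) (by omega) (by unfold c0; omega))
    · exact DC2_aux v x hF.r0 _ σ (2 * h - 1) (3 * h - 1) h3 hσ (by omega) (by omega) (by omega)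
        (ld1 hL 1 (2 * h - 1) ρ (by omega) (by omega) (by omega) (by omega) (by omega) (by omega))
        (ld1 hL 2 (3 * h - 1) ρ (by omega) (by omega) (by omega) (by omega) (by omega) (by omega))

/-- the even sums with small `σ`, any `q` -/
theorem DDev (k q h v : ℕ) (x : ℕ → ℕ → Bool) (hP : Par1 k q h v) (hF : FL h q v x)
    (ρ σ : ℕ) (h5 : 5 ≤ ρ) (h3 : ρ + 3 ≤ 2 * h) (h1 : ρ % 4 = 1) (hσ : σ < v) (hs : σ % 2 = 0) :
    TwoW v x ρ σ := by
  obtain ⟨p4, p4', p3, -, -⟩ := hP.base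
  have hvo := hP.odd
  obtain ⟨j, i, hj, hjh, hρ, hi, hH⟩ := DD_log k h ρ hP.hh h5 h3 h1
  have f0 := hF.ff j hj hjh i hi
  have f1 := hF.fe j hj hjh (4 * i) (by omega) (by omega)
  have f2 := hF.fe j hj hjh (4 * i + 1) (by omega) (by omega)
  have f3 := hF.fe j hj hjh (4 * i + 2) (by omega) (by omega)
  obtain ⟨H, hHe⟩ : ∃ H, 2 ^ j = H := ⟨_, rfl⟩
  rw [hHe] at f0 f1 f2 f3 hjh hρ hi hH
  have g0 : 2 * H - 1 + 4 * i = ρ - 2 := by omega
  have g2 : 2 * H - 1 + (4 * i + 1) = ρ - 1 := by omega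
  have g3 : 2 * H - 1 + (4 * i + 2) = ρ := by omega
  rw [g0] at f0 f1
  rw [g2] at f2
  rw [g3] at f3
  by_cases c1 : σ + 4 ≤ 2 * H
  · exact ⟨ρ - 2, 2 * H - 2, 0, σ + v - (2 * H - 2), ρ - 2, 2 * H - 1, 0, σ + v - (2 * H - 1),
      ⟨f0, hF.r0 _ (by omega), by omega, by omega, by omega, Or.inr ⟨by omega, by omega⟩⟩,
      ⟨f1, hF.r0 _ (by omega), by omega, by omega, by omega, Or.inr ⟨by omega, by omega⟩⟩,
      by omega, by omega⟩
  · by_cases c2 : σ + 2 = 2 * H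
    · exact ⟨ρ - 2, 2 * H - 1, 0, v - 1, 2, 0, ρ - 2, 2 * H - 2,
        ⟨f1, hF.r0 _ (by omega), by omega, by omega, by omega, Or.inr ⟨by omega, by omega⟩⟩,
        ⟨hF.r20, f0, by omega, by omega, by omega, Or.inl ⟨by omega, by omega⟩⟩,
        by omega, by omega⟩
    · exact ⟨ρ, 2 * H - 1, 0, σ - (2 * H - 1), ρ - 1, 2 * H - 1, 1, σ - (2 * H - 1),
        ⟨f3, hF.r0 _ (by omega), by omega, by omega, by omega, Or.inl ⟨by omega, by omega⟩⟩,
        ⟨f2, hF.r1 _ (by omega) (by omega), by omega, by omega, by omega,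
          Or.inl ⟨by omega, by omega⟩⟩,
        by omega, by omega⟩

theorem DDb (k q h v : ℕ) (x : ℕ → ℕ → Bool) (hP : Par1 k q h v) (hk : 4 ≤ k) (hq : 2 ≤ q) (hF : FL h q v x)
    (hL : LW h v x) (ρ σ : ℕ) (h5 : 5 ≤ ρ) (h3 : ρ + 3 ≤ 2 * h) (h1 : ρ % 4 = 1) (hσ : σ < v) :
    TwoW v x ρ σ := by
  obtain ⟨h16, hh16⟩ := hP.h16 hk
  have hv5 := hP.five hq
  rcases Nat.mod_two_eq_zero_or_one σ with hs | hs
  · exact DDev k q h v x hP hF ρ σ h5 h3 h1 hσ hs
  · by_cases hA : v ≤ σ + 2 * h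
    · exact DC2_aux v x hF.r0 _ σ (2 * h - 1) (3 * h - 1) (by omega) hσ (by omega) (by omega) (by omega)
        (ld1 hL 1 (2 * h - 1) ρ (by omega) (by omega) (by omega) (by omega) (by omega) (by omega))
        (ld1 hL 2 (3 * h - 1) ρ (by omega) (by omega) (by omega) (by omega) (by omega) (by omega))
    · exact ⟨ρ - 3, v - h, 1, σ + h, ρ - 3, v - 2 * h, 1, σ + 2 * h,
        ⟨lt1 hP hL 1 (v - h) (ρ - 3) (by omega) (by omega) (by omega) (by omega),
          hF.r1 _ (by omega) (by omega), by omega, by omega, by omega, Or.inr ⟨by omega, by omega⟩⟩,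
        ⟨lt1 hP hL 2 (v - 2 * h) (ρ - 3) (by omega) (by omega) (by omega) (by omega),
          hF.r1 _ (by omega) (by omega), by omega, by omega, by omega, Or.inr ⟨by omega, by omega⟩⟩,
        by omega, by omega⟩

theorem DE1b (k q h v : ℕ) (x : ℕ → ℕ → Bool) (hP : Par1 k q h v) (hk : 4 ≤ k) (hq : 2 ≤ q) (hF : FL h q v x)
    (hC : CQ2 h v x) (ρ σ : ℕ) (h1 : 2 * h + 1 ≤ ρ) (h2 : ρ ≤ 2 * h + 3) (hσ : σ < v) : TwoW v x ρ σ := by
  obtain ⟨h16, hh16⟩ := hP.h16 hk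
  have hv5 := hP.five hq
  obtain rfl | rfl | rfl : ρ = 2 * h + 1 ∨ ρ = 2 * h + 2 ∨ ρ = 2 * h + 3 := by omega
  · have m1 : x (2 * h - 1) (2 * h - 1) = true := colA hC.m1 1 (2 * h - 1) (by omega) (by omega) (by omega) (Or.inr rfl)
    have m2 : x (2 * h - 2) (2 * h - 1) = true := colA hC.m1 1 (2 * h - 2) (by omega) (by omega) (by omega) (Or.inr rfl)
    have b1 : x (h + 1) (2 * h + 1) = true := colA hC.f1 1 (h + 1) (by omega) (by omega) (by omega) (by unfold c1; omega)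
    have b3 : x (h + 3) (2 * h + 1) = true := colA hC.f1 1 (h + 3) (by omega) (by omega) (by omega) (by unfold c1; omega)
    have hr : 2 * h + 1 = (2 * h - 1) + 2 := by omega
    rcases lt_trichotomy σ (2 * h - 2) with hs | hs | hs
    · rw [hr]
      exact DE1_22 hF (by omega) (by omega) (by omega) (by omega) (by omega) (by omega) m1 m2
    · rw [hr]
      rw [hr] at b1
      exact DE1_12 hF (by omega) (by omega) (by omega) (by omega) b1 m1
    · exact DE1_11 hF (by omega) hσ (by omega) (by omega) (by omega) b1 b3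
  · by_cases hs : σ + h + 1 < v
    · have b1 : x (v - h) (2 * h) = true := colT hP hC.f0 1 (v - h) (by omega) (by omega) (by omega) (by unfold c0; omega)
      have b2 : x (v - h - 1) (2 * h) = true := colT hP hC.f0 1 (v - h - 1) (by omega) (by omega) (by omega) (by unfold c0; omega)
      exact DE1_22 hF (by omega) (by omega) (by omega) (by omega) (by omega) (by omega) b1 b2
    · exact DE1_11 hF (by omega) hσ (by omega) (by omega) (by omega)
        (colA hC.f2 1 h (by omega) (by omega) (by omega) (by unfold c2; omega))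
        (colA hC.f2 1 (h + 1) (by omega) (by omega) (by omega) (by unfold c2; omega))
  · by_cases hs : σ + h + 2 < v
    · have b1 : x (v - h) (2 * h + 1) = true := colT hP hC.f1 1 (v - h) (by omega) (by omega) (by omega) (by unfold c1; omega)
      have b2 : x (v - h - 2) (2 * h + 1) = true := colT hP hC.f1 1 (v - h - 2) (by omega) (by omega) (by omega) (by unfold c1; omega)
      exact DE1_22 (ρ := 2 * h + 1) hF (by omega) (by omega) (by omega) (by omega) (by omega)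
        (by omega) b1 b2
    · exact DE1_11 hF (by omega) hσ (by omega) (by omega) (by omega)
        (colA hC.f3 2 (2 * h) (by omega) (by omega) (by omega) (by unfold c3; omega))
        (colA hC.f3 2 (2 * h + 1) (by omega) (by omega) (by omega) (by unfold c3; omega))

theorem DE2b (k q h v : ℕ) (x : ℕ → ℕ → Bool) (hP : Par1 k q h v) (hk : 4 ≤ k) (hq : 2 ≤ q) (hF : FL h q v x)
    (hC : CQ2 h v x) (ρ σ : ℕ) (h1 : 2 * h + 4 ≤ ρ) (h2 : ρ ≤ 2 * h + 6) (hσ : σ < v) : TwoW v x ρ σ := by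
  obtain ⟨h16, hh16⟩ := hP.h16 hk
  have hv5 := hP.five hq
  obtain rfl | rfl | rfl : ρ = 2 * h + 4 ∨ ρ = 2 * h + 5 ∨ ρ = 2 * h + 6 := by omega
  · by_cases hc : σ + h + 2 < v
    · exact DE1_22 (ρ := 2 * h + 2) hF (a := v - h) (b := v - h - 2) (by omega) (by omega) (by omega) (by omega)
        (by omega) (by omega)
        (colT hP hC.f2 1 (v - h) (by omega) (by omega) (by omega) (by unfold c2; omega))
        (colT hP hC.f2 1 (v - h - 2) (by omega) (by omega) (by omega) (by unfold c2; omega))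
    · exact DE1_11 hF (by omega) hσ (by omega) (by omega) (by omega)
        (colA hC.f4 2 (2 * h) (by omega) (by omega) (by omega) (by unfold c4; omega))
        (colA hC.f4 2 (2 * h + 2) (by omega) (by omega) (by omega) (by unfold c4; omega))
  · by_cases hc : σ + 2 < 3 * h
    · exact DE1_22 (ρ := 2 * h + 3) hF (a := 3 * h - 2) (b := 3 * h - 1) (by omega) (by omega) (by omega) (by omega)
        (by omega) (by omega)
        (colA hC.f3 2 (3 * h - 2) (by omega) (by omega) (by omega) (by unfold c3; omega))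
        (colA hC.f3 2 (3 * h - 1) (by omega) (by omega) (by omega) (by unfold c3; omega))
    · exact DE1_11 hF (a := h + 3) (b := 3 * h - 2) (by omega) hσ (by omega) (by omega) (by omega)
        (colA hC.f5 1 (h + 3) (by omega) (by omega) (by omega) (by unfold c5; omega))
        (colA hC.f5 2 (3 * h - 2) (by omega) (by omega) (by omega) (by unfold c5; omega))
  · by_cases hc : σ + 2 < v
    · exact DE1_22 (ρ := 2 * h + 4) hF (a := v - 1) (b := v - 2) (by omega) (by omega) (by omega) (by omega)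
        (by omega) (by omega)
        (colT hP hC.f4 0 (v - 1) (by omega) (by omega) (by omega) (by unfold c4; omega))
        (colT hP hC.f4 0 (v - 2) (by omega) (by omega) (by omega) (by unfold c4; omega))
    · exact DE1_11 hF (a := 3 * h + 3) (b := 3 * h + 6) (by omega) hσ (by omega) (by omega) (by omega)
        (colA hC.f6 3 (3 * h + 3) (by omega) (by omega) (by omega) (by unfold c6; omega))
        (colA hC.f6 3 (3 * h + 6) (by omega) (by omega) (by omega) (by unfold c6; omega))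

/-- all sums with `ρ ≤ 2 h + 6` -/
theorem D1q2 (k q h v : ℕ) (x : ℕ → ℕ → Bool) (hP : Par1 k q h v) (hk : 4 ≤ k) (hq : 2 ≤ q) (hF : FL h q v x)
    (hL : LW h v x) (hC : CQ2 h v x) (ρ σ : ℕ) (hρ : ρ ≤ 2 * h + 6) (hσ : σ < v) (h0 : 2 ≤ ρ ∨ 3 ≤ σ) :
    TwoW v x ρ σ := by
  obtain ⟨h16, hh16⟩ := hP.h16 hk
  have hv5 := hP.five hq
  rcases Nat.lt_or_ge ρ 3 with h3 | h3
  · have hda := DA h q v x (by omega) hF σ hσ
    obtain rfl | rfl | rfl : ρ = 0 ∨ ρ = 1 ∨ ρ = 2 := by omega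
    · exact hda.1 (by omega)
    · exact hda.2.1 (by omega)
    · exact hda.2.2
  rcases Nat.lt_or_ge ρ (2 * h + 1) with h4 | h4
  · by_cases h5 : ρ % 4 = 1
    · exact DDb k q h v x hP hk hq hF hL ρ σ (by omega) (by omega) h5 hσ
    · rcases Nat.lt_or_ge (σ + 2 * h) v with h6 | h6
      · exact DC1b k q h v x hP hk hq hF hL ρ σ h3 (by omega) h5 h6
      · exact DC2b k q h v x hP hk hq hF hL hC ρ σ h3 (by omega) h5 h6 hσ
  rcases Nat.lt_or_ge ρ (2 * h + 4) with h5 | h5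
  · exact DE1b k q h v x hP hk hq hF hC ρ σ h4 (by omega) hσ
  · exact DE2b k q h v x hP hk hq hF hC ρ σ h5 hρ hσ

end Pool.Agent.U4B
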