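import Pool.Agent.helper13.U4B.Val
import Pool.Agent.helper13.U4B.D1q2

/-!
# Project U4, extension: explicit pairs (generated)
-/

set_option autoImplicit false

namespace Pool.Agent.U4B

open Pool.Agent.UL Pool.Agent.U4

theorem E3q1_0 (k q h v : ℕ) (x : ℕ → ℕ → Bool) (hP : Par1 k q h v) (hk : 4 ≤ k)
    (hq : q = 1) (hF : FL h q v x) (hL : LW h v x) (hC : CQ1 h v x) (ρ σ : ℕ)
    (hρ1 : 5 ≤ ρ) (hρ2 : ρ + 2 ≤ 2 * h) (hρ3 : ρ % 4 = 3) (hσ : σ < v) (hb : σ < h) :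
    TwoW v x ρ σ := by
  obtain ⟨h16, hh16⟩ := hP.h16 hk
  have hv3 := hP.one hq
  have hc : (σ + 1 ≤ h) := by omega
  exact ⟨ρ, 0, 0, σ,
      ρ - 2, 2 * h - 1, 0, v + σ + 1 - 2 * h,
      ⟨lz hL (0) (ρ) (by omega) (by omega) (by omega) (by omega),
        hF.r0 (σ) (by omega),
        by omega, by omega, by omega, Or.inl ⟨by omega, by omega⟩⟩,
      ⟨ld1 hL 1 (2 * h - 1) (ρ - 2) (by omega) (by omega) (by omega) (by omega) (by omega) (by omega),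
        hF.r0 (v + σ + 1 - 2 * h) (by omega),
        by omega, by omega, by omega, Or.inr ⟨by omega, by omega⟩⟩,
      by omega, by omega⟩

theorem E3q1_1 (k q h v : ℕ) (x : ℕ → ℕ → Bool) (hP : Par1 k q h v) (hk : 4 ≤ k)
    (hq : q = 1) (hF : FL h q v x) (hL : LW h v x) (hC : CQ1 h v x) (ρ σ : ℕ)
    (hρ1 : 5 ≤ ρ) (hρ2 : ρ + 2 ≤ 2 * h) (hρ3 : ρ % 4 = 3) (hσ : σ < v) (hb1 : h ≤ σ) (hb2 : σ < 2 * h) :
    TwoW v x ρ σ := by
  obtain ⟨h16, hh16⟩ := hP.h16 hk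
  have hv3 := hP.one hq
  have hc : (h ≤ σ ∧ σ + 2 ≤ 2 * h) ∨ (2 * h ≤ σ + 1 ∧ σ + 1 ≤ 2 * h) := by omega
  rcases hc with hc | hc
  · exact ⟨ρ, 0, 0, σ,
      ρ - 2, 2 * h - 1, 0, v + σ + 1 - 2 * h,
      ⟨lz hL (0) (ρ) (by omega) (by omega) (by omega) (by omega),
        hF.r0 (σ) (by omega),
        by omega, by omega, by omega, Or.inl ⟨by omega, by omega⟩⟩,
      ⟨ld1 hL 1 (2 * h - 1) (ρ - 2) (by omega) (by omega) (by omega) (by omega) (by omega) (by omega),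
        hF.r0 (v + σ + 1 - 2 * h) (by omega),
        by omega, by omega, by omega, Or.inr ⟨by omega, by omega⟩⟩,
      by omega, by omega⟩
  · exact ⟨ρ, 0, 0, σ,
      ρ - 1, 0, 1, σ,
      ⟨lz hL (0) (ρ) (by omega) (by omega) (by omega) (by omega),
        hF.r0 (σ) (by omega),
        by omega, by omega, by omega, Or.inl ⟨by omega, by omega⟩⟩,
      ⟨lz hL (0) (ρ - 1) (by omega) (by omega) (by omega) (by omega),
        hF.r1 (σ) (by omega) (by omega),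
        by omega, by omega, by omega, Or.inl ⟨by omega, by omega⟩⟩,
      by omega, by omega⟩

theorem E3q1_2 (k q h v : ℕ) (x : ℕ → ℕ → Bool) (hP : Par1 k q h v) (hk : 4 ≤ k)
    (hq : q = 1) (hF : FL h q v x) (hL : LW h v x) (hC : CQ1 h v x) (ρ σ : ℕ)
    (hρ1 : 5 ≤ ρ) (hρ2 : ρ + 2 ≤ 2 * h) (hρ3 : ρ % 4 = 3) (hσ : σ < v) (hb1 : 2 * h ≤ σ) :
    TwoW v x ρ σ := by
  obtain ⟨h16, hh16⟩ := hP.h16 hk
  have hv3 := hP.one hq
  have hc : (2 * h ≤ σ ∧ σ + 2 ≤ 3 * h ∧ σ % 2 = 0) ∨ (2 * h + 1 ≤ σ ∧ σ + 3 ≤ 3 * h ∧ σ % 2 = 1) := by omega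
  rcases hc with hc | hc
  · exact ⟨ρ, 0, 0, σ,
      ρ - 1, 2 * h - 1, 1, σ + 1 - 2 * h,
      ⟨lz hL (0) (ρ) (by omega) (by omega) (by omega) (by omega),
        hF.r0 (σ) (by omega),
        by omega, by omega, by omega, Or.inl ⟨by omega, by omega⟩⟩,
      ⟨ld1 hL 1 (2 * h - 1) (ρ - 1) (by omega) (by omega) (by omega) (by omega) (by omega) (by omega),
        hF.r1 (σ + 1 - 2 * h) (by omega) (by omega),
        by omega, by omega, by omega, Or.inl ⟨by omega, by omega⟩⟩,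
      by omega, by omega⟩
  · exact ⟨ρ, 0, 0, σ,
      ρ - 1, 0, 1, σ,
      ⟨lz hL (0) (ρ) (by omega) (by omega) (by omega) (by omega),
        hF.r0 (σ) (by omega),
        by omega, by omega, by omega, Or.inl ⟨by omega, by omega⟩⟩,
      ⟨lz hL (0) (ρ - 1) (by omega) (by omega) (by omega) (by omega),
        hF.r1 (σ) (by omega) (by omega),
        by omega, by omega, by omega, Or.inl ⟨by omega, by omega⟩⟩,
      by omega, by omega⟩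

theorem E3q1 (k q h v : ℕ) (x : ℕ → ℕ → Bool) (hP : Par1 k q h v) (hk : 4 ≤ k)
    (hq : q = 1) (hF : FL h q v x) (hL : LW h v x) (hC : CQ1 h v x) (ρ σ : ℕ)
    (hρ1 : 5 ≤ ρ) (hρ2 : ρ + 2 ≤ 2 * h) (hρ3 : ρ % 4 = 3) (hσ : σ < v) :
    TwoW v x ρ σ := by
  obtain ⟨h16, hh16⟩ := hP.h16 hk
  have hv3 := hP.one hq
  rcases Nat.lt_or_ge σ h with h1 | h1
  · exact E3q1_0 k q h v x hP hk hq hF hL hC ρ σ hρ1 hρ2 hρ3 hσ h1
  rcases Nat.lt_or_ge σ (2 * h) with h2 | h2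
  · exact E3q1_1 k q h v x hP hk hq hF hL hC ρ σ hρ1 hρ2 hρ3 hσ h1 h2
  · exact E3q1_2 k q h v x hP hk hq hF hL hC ρ σ hρ1 hρ2 hρ3 hσ h2

end Pool.Agent.U4B
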