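import Pool.Agent.helper13.U4B.E0q1
import Pool.Agent.helper13.U4B.E1q1
import Pool.Agent.helper13.U4B.E2q1
import Pool.Agent.helper13.U4B.E3q1
import Pool.Agent.helper13.U4B.Em1q1
import Pool.Agent.helper13.U4B.H0q1
import Pool.Agent.helper13.U4B.H1q1
import Pool.Agent.helper13.U4B.H2q1
import Pool.Agent.helper13.U4B.H3q1
import Pool.Agent.helper13.U4B.H4q1
import Pool.Agent.helper13.U4B.H5q1
import Pool.Agent.helper13.U4B.H6q1

/-!
# Project U4, extension: `ρ ≤ 2 h + 6`, `q = 1`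
-/

set_option autoImplicit false

namespace Pool.Agent.U4B

open Pool.Agent.UL Pool.Agent.U4

theorem D3q1 (k q h v : ℕ) (x : ℕ → ℕ → Bool) (hP : Par1 k q h v) (hk : 4 ≤ k) (hq : q = 1) (hF : FL h q v x)
    (hL : LW h v x) (σ : ℕ) (hσ : σ < v) : TwoW v x 3 σ := by
  obtain ⟨h16, hh16⟩ := hP.h16 hk
  have hv3 := hP.one hq
  rcases Nat.lt_or_ge σ 3 with h1 | h1
  · exact ⟨1, 3, 0, σ + v - 3, 1, 5, 0, σ + v - 5,
      ⟨hF.r1 _ (by omega) (by omega), hF.r0 _ (by omega), by omega, by omega, by omega,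
        Or.inr ⟨by omega, by omega⟩⟩,
      ⟨hF.r1 _ (by omega) (by omega), hF.r0 _ (by omega), by omega, by omega, by omega,
        Or.inr ⟨by omega, by omega⟩⟩, by omega, by omega⟩
  · have h2 : x 2 3 = true := (hF.y2 2 (by omega) (by omega) (by omega)).1
    exact ⟨3, 0, 0, σ, 3, 2, 0, σ - 2,
      ⟨hL.z 3 (by omega) (by omega) (by omega), hF.r0 _ (by omega), by omega, by omega, by omega,
        Or.inl ⟨by omega, by omega⟩⟩,
      ⟨h2, hF.r0 _ (by omega), by omega, by omega, by omega,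
        Or.inl ⟨by omega, by omega⟩⟩, by omega, by omega⟩

theorem D4q1 (k q h v : ℕ) (x : ℕ → ℕ → Bool) (hP : Par1 k q h v) (hk : 4 ≤ k) (hq : q = 1) (hF : FL h q v x)
    (hL : LW h v x) (σ : ℕ) (hσ : σ < v) : TwoW v x 4 σ := by
  obtain ⟨h16, hh16⟩ := hP.h16 hk
  have hv3 := hP.one hq
  have hodd := hP.odd
  rcases Nat.lt_or_ge σ (2 * h - 1) with h1 | h1
  · exact ⟨2, v - 2, 0, σ + 2, 2, v - 4, 0, σ + 4,
      ⟨hF.r2 _ (by omega) (by omega) (by omega), hF.r0 _ (by omega), by omega, by omega, by omega,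
        Or.inr ⟨by omega, by omega⟩⟩,
      ⟨hF.r2 _ (by omega) (by omega) (by omega), hF.r0 _ (by omega), by omega, by omega, by omega,
        Or.inr ⟨by omega, by omega⟩⟩, by omega, by omega⟩
  · exact ⟨4, 0, 0, σ, 4, 2 * h - 1, 0, σ - (2 * h - 1),
      ⟨hL.z 4 (by omega) (by omega) (by omega), hF.r0 _ (by omega), by omega, by omega, by omega,
        Or.inl ⟨by omega, by omega⟩⟩,
      ⟨ld1 hL 1 (2 * h - 1) 4 (by omega) (by omega) (by omega) (by omega) (by omega) (by omega),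
        hF.r0 _ (by omega), by omega, by omega, by omega,
        Or.inl ⟨by omega, by omega⟩⟩, by omega, by omega⟩

theorem D1q1 (k q h v : ℕ) (x : ℕ → ℕ → Bool) (hP : Par1 k q h v) (hk : 4 ≤ k) (hq : q = 1) (hF : FL h q v x)
    (hL : LW h v x) (hC : CQ1 h v x) (ρ σ : ℕ) (hρ : ρ ≤ 2 * h + 6) (hσ : σ < v) (h0 : 2 ≤ ρ ∨ 3 ≤ σ) :
    TwoW v x ρ σ := by
  obtain ⟨h16, hh16⟩ := hP.h16 hk
  have hv3 := hP.one hq
  rcases Nat.lt_or_ge ρ 3 with h3 | h3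
  · have hda := DA h q v x (by omega) hF σ hσ
    obtain rfl | rfl | rfl : ρ = 0 ∨ ρ = 1 ∨ ρ = 2 := by omega
    · exact hda.1 (by omega)
    · exact hda.2.1 (by omega)
    · exact hda.2.2
  rcases Nat.lt_or_ge ρ 5 with h5 | h5
  · obtain rfl | rfl : ρ = 3 ∨ ρ = 4 := by omega
    · exact D3q1 k q h v x hP hk hq hF hL σ hσ
    · exact D4q1 k q h v x hP hk hq hF hL σ hσ
  rcases Nat.lt_or_ge ρ (2 * h - 1) with h6 | h6
  · have h4 : ρ % 4 = 0 ∨ ρ % 4 = 1 ∨ ρ % 4 = 2 ∨ ρ % 4 = 3 := by omega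
    rcases h4 with h4 | h4 | h4 | h4
    · exact E0q1 k q h v x hP hk hq hF hL hC ρ σ h5 (by omega) h4 hσ
    · exact E1q1 k q h v x hP hk hq hF hL hC ρ σ h5 (by omega) h4 hσ
    · exact E2q1 k q h v x hP hk hq hF hL hC ρ σ h5 (by omega) h4 hσ
    · exact E3q1 k q h v x hP hk hq hF hL hC ρ σ h5 (by omega) h4 hσ
  obtain ⟨c, hc⟩ : ∃ c, ρ = 2 * h - 1 + c := ⟨ρ - (2 * h - 1), by omega⟩
  have hc8 : c ≤ 7 := by omega
  obtain rfl | rfl | rfl | rfl | rfl | rfl | rfl | rfl :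
    c = 0 ∨ c = 1 ∨ c = 2 ∨ c = 3 ∨ c = 4 ∨ c = 5 ∨ c = 6 ∨ c = 7 := by omega
  · exact Em1q1 k q h v x hP hk hq hF hL hC ρ σ (by omega) hσ
  · exact H0q1 k q h v x hP hk hq hF hL hC ρ σ (by omega) hσ
  · exact H1q1 k q h v x hP hk hq hF hL hC ρ σ (by omega) hσ
  · exact H2q1 k q h v x hP hk hq hF hL hC ρ σ (by omega) hσ
  · exact H3q1 k q h v x hP hk hq hF hL hC ρ σ (by omega) hσ
  · exact H4q1 k q h v x hP hk hq hF hL hC ρ σ (by omega) hσ
  · exact H5q1 k q h v x hP hk hq hF hL hC ρ σ (by omega) hσ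
  · exact H6q1 k q h v x hP hk hq hF hL hC ρ σ (by omega) hσ

end Pool.Agent.U4B
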