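import Pool.Agent.helper13.U4B.CQ

/-!
# Project U4, extension: the sums with `σ = v - 1`, `v - 2`
-/

set_option autoImplicit false

namespace Pool.Agent.U4B

open Pool.Agent.UL Pool.Agent.U4

theorem DSP1 (k q h v : ℕ) (x : ℕ → ℕ → Bool) (hP : Par1 k q h v) (hk : 4 ≤ k) (hL : LW h v x)
    (h2 : Col h v (fun t => x t (2 * h + 2)) c2) (h3 : Col h v (fun t => x t (2 * h + 3)) c3)
    (h4 : Col h v (fun t => x t (2 * h + 4)) c4) (ρ σ : ℕ)
    (hρ1 : 2 * h + 7 ≤ ρ) (hρ2 : ρ + 4 ≤ 4 * h) (hρ3 : ρ % 4 ≠ 1) (hσ : σ + 1 = v) : TwoW v x ρ σ := by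
  obtain ⟨h16, hh16⟩ := hP.h16 hk
  have hq := hP.hq
  have hv3 := hP.base.2.2.1
  have hr : ρ % 4 = 0 ∨ ρ % 4 = 2 ∨ ρ % 4 = 3 := by omega
  rcases hr with hr | hr | hr
  · exact ⟨ρ - 2 * h - 4, 0, 2 * h + 4, v - 1, ρ - 2 * h - 4, 2 * h - 2, 2 * h + 4, v + 1 - 2 * h,
      ⟨lz hL 0 (ρ - 2 * h - 4) rfl (by omega) (by omega) (by omega),
        colT hP h4 0 (v - 1) (by omega) (by omega) (by omega) (by unfold c4; omega),
        by omega, by omega, by omega, Or.inl ⟨by omega, by omega⟩⟩,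
      ⟨ld2 hL 1 (2 * h - 2) (ρ - 2 * h - 4) (by omega) (by omega) (by omega) (by omega) (by omega) (by omega),
        colT hP h4 1 (v + 1 - 2 * h) (by omega) (by omega) (by omega) (by unfold c4; omega),
        by omega, by omega, by omega, Or.inl ⟨by omega, by omega⟩⟩,
      by omega, by omega⟩
  · exact ⟨ρ - 2 * h - 4, 0, 2 * h + 4, v - 1, ρ - 2 * h - 2, v - h - 1, 2 * h + 2, h,
      ⟨lz hL 0 (ρ - 2 * h - 4) rfl (by omega) (by omega) (by omega),
        colT hP h4 0 (v - 1) (by omega) (by omega) (by omega) (by unfold c4; omega),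
        by omega, by omega, by omega, Or.inl ⟨by omega, by omega⟩⟩,
      ⟨lt2 hP hL 1 (v - h - 1) (ρ - 2 * h - 2) (by omega) (by omega) (by omega) (by omega),
        colA h2 1 h (by omega) (by omega) (by omega) (by unfold c2; omega),
        by omega, by omega, by omega, Or.inl ⟨by omega, by omega⟩⟩,
      by omega, by omega⟩
  · exact ⟨ρ - 2 * h - 4, 0, 2 * h + 4, v - 1, ρ - 2 * h - 3, v - h - 1, 2 * h + 3, h,
      ⟨lz hL 0 (ρ - 2 * h - 4) rfl (by omega) (by omega) (by omega),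
        colT hP h4 0 (v - 1) (by omega) (by omega) (by omega) (by unfold c4; omega),
        by omega, by omega, by omega, Or.inl ⟨by omega, by omega⟩⟩,
      ⟨lt2 hP hL 1 (v - h - 1) (ρ - 2 * h - 3) (by omega) (by omega) (by omega) (by omega),
        colA h3 1 h (by omega) (by omega) (by omega) (by unfold c3; omega),
        by omega, by omega, by omega, Or.inl ⟨by omega, by omega⟩⟩,
      by omega, by omega⟩

theorem DSP2 (k q h v : ℕ) (x : ℕ → ℕ → Bool) (hP : Par1 k q h v) (hk : 4 ≤ k) (hL : LW h v x)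
    (h2 : Col h v (fun t => x t (2 * h + 2)) c2) (ρ σ : ℕ)
    (hρ1 : 2 * h + 7 ≤ ρ) (hρ2 : ρ + 6 ≤ 4 * h) (hρ3 : ρ % 4 = 2) (hσ : σ + 2 = v) : TwoW v x ρ σ := by
  obtain ⟨h16, hh16⟩ := hP.h16 hk
  have hq := hP.hq
  have hv3 := hP.base.2.2.1
  exact ⟨ρ - 2 * h - 2, v - h, 2 * h + 2, h - 2, ρ - 2 * h - 2, v - h - 1, 2 * h + 2, h - 1,
      ⟨lt1 hP hL 1 (v - h) (ρ - 2 * h - 2) (by omega) (by omega) (by omega) (by omega),
        colA h2 0 (h - 2) (by omega) (by omega) (by omega) (by unfold c2; omega),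
        by omega, by omega, by omega, Or.inl ⟨by omega, by omega⟩⟩,
      ⟨lt2 hP hL 1 (v - h - 1) (ρ - 2 * h - 2) (by omega) (by omega) (by omega) (by omega),
        colA h2 0 (h - 1) (by omega) (by omega) (by omega) (by unfold c2; omega),
        by omega, by omega, by omega, Or.inl ⟨by omega, by omega⟩⟩,
      by omega, by omega⟩

end Pool.Agent.U4B
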