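import Pool.Agent.helper13.U4B.Val

/-!
# Project U4, extension: explicit pairs (generated)
-/

set_option autoImplicit false

namespace Pool.Agent.U4B

open Pool.Agent.UL Pool.Agent.U4

theorem G0q2_0 (k q h v : ℕ) (x : ℕ → ℕ → Bool) (hP : Par1 k q h v) (hk : 4 ≤ k)
    (hq : 2 ≤ q) (hL : LW h v x) (hC : CQ2 h v x) (ρ σ : ℕ)
    (hρ1 : 2 * h + 7 ≤ ρ) (hρ2 : ρ + 2 ≤ 4 * h) (hρ3 : ρ % 4 = 0) (hσ : σ < v) (hb : σ < h) :
    TwoW v x ρ σ := by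
  obtain ⟨h16, hh16⟩ := hP.h16 hk
  have hv5 := hP.five hq
  have hc : (1 ≤ σ ∧ σ + 1 ≤ h) ∨ (σ + 2 ≤ h) := by omega
  rcases hc with hc | hc
  · exact ⟨ρ - 2 * h - 2, v - 3 * h, 2 * h, σ + 3 * h,
      ρ - 2 * h - 2, 0, 2 * h + 2, σ,
      ⟨lt1 hP hL 3 (v - 3 * h) (ρ - 2 * h - 2) (by omega) (by omega) (by omega) (by omega),
        colA hC.f0 3 (σ + 3 * h) (by omega) (by omega) (by omega) (v0_3 _),
        by omega, by omega, by omega, Or.inr ⟨by omega, by omega⟩⟩,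
      ⟨lz hL (0) (ρ - 2 * h - 2) (by omega) (by omega) (by omega) (by omega),
        colA hC.f2 0 (σ) (by omega) (by omega) (by omega) (v2_0 _ (by omega)),
        by omega, by omega, by omega, Or.inl ⟨by omega, by omega⟩⟩,
      by omega, by omega⟩
  · exact ⟨ρ - 2 * h - 2, v - 3 * h, 2 * h, σ + 3 * h,
      ρ - 2 * h - 4, v - 1, 2 * h + 2, σ + 1,
      ⟨lt1 hP hL 3 (v - 3 * h) (ρ - 2 * h - 2) (by omega) (by omega) (by omega) (by omega),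
        colA hC.f0 3 (σ + 3 * h) (by omega) (by omega) (by omega) (v0_3 _),
        by omega, by omega, by omega, Or.inr ⟨by omega, by omega⟩⟩,
      ⟨lt2 hP hL 0 (v - 1) (ρ - 2 * h - 4) (by omega) (by omega) (by omega) (by omega),
        colA hC.f2 0 (σ + 1) (by omega) (by omega) (by omega) (v2_0 _ (by omega)),
        by omega, by omega, by omega, Or.inr ⟨by omega, by omega⟩⟩,
      by omega, by omega⟩

theorem G0q2_1 (k q h v : ℕ) (x : ℕ → ℕ → Bool) (hP : Par1 k q h v) (hk : 4 ≤ k)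
    (hq : 2 ≤ q) (hL : LW h v x) (hC : CQ2 h v x) (ρ σ : ℕ)
    (hρ1 : 2 * h + 7 ≤ ρ) (hρ2 : ρ + 2 ≤ 4 * h) (hρ3 : ρ % 4 = 0) (hσ : σ < v) (hb1 : h ≤ σ) (hb2 : σ < 2 * h) :
    TwoW v x ρ σ := by
  obtain ⟨h16, hh16⟩ := hP.h16 hk
  have hv5 := hP.five hq
  have hc : (h ≤ σ ∧ σ + 2 ≤ 2 * h) ∨ (2 * h ≤ σ + 2 ∧ σ + 1 ≤ 2 * h) := by omega
  rcases hc with hc | hc
  · exact ⟨ρ - 2 * h - 2, v - 2 * h, 2 * h, σ + 2 * h,
      ρ - 2 * h - 6, v - 3 * h, 2 * h + 4, σ + 3 * h,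
      ⟨lt1 hP hL 2 (v - 2 * h) (ρ - 2 * h - 2) (by omega) (by omega) (by omega) (by omega),
        colA hC.f0 3 (σ + 2 * h) (by omega) (by omega) (by omega) (v0_3 _),
        by omega, by omega, by omega, Or.inr ⟨by omega, by omega⟩⟩,
      ⟨lt1 hP hL 3 (v - 3 * h) (ρ - 2 * h - 6) (by omega) (by omega) (by omega) (by omega),
        colA hC.f4 4 (σ + 3 * h) (by omega) (by omega) (by omega) (v4_4 _),
        by omega, by omega, by omega, Or.inr ⟨by omega, by omega⟩⟩,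
      by omega, by omega⟩
  · exact ⟨ρ - 2 * h - 2, v - 2 * h, 2 * h, σ + 2 * h,
      ρ - 2 * h - 4, 0, 2 * h + 4, σ,
      ⟨lt1 hP hL 2 (v - 2 * h) (ρ - 2 * h - 2) (by omega) (by omega) (by omega) (by omega),
        colA hC.f0 3 (σ + 2 * h) (by omega) (by omega) (by omega) (v0_3 _),
        by omega, by omega, by omega, Or.inr ⟨by omega, by omega⟩⟩,
      ⟨lz hL (0) (ρ - 2 * h - 4) (by omega) (by omega) (by omega) (by omega),
        colA hC.f4 1 (σ) (by omega) (by omega) (by omega) (v4_1 _ (by omega)),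
        by omega, by omega, by omega, Or.inl ⟨by omega, by omega⟩⟩,
      by omega, by omega⟩

theorem G0q2_2a (k q h v : ℕ) (x : ℕ → ℕ → Bool) (hP : Par1 k q h v) (hk : 4 ≤ k)
    (hq : 2 ≤ q) (hL : LW h v x) (hC : CQ2 h v x) (ρ σ : ℕ)
    (hρ1 : 2 * h + 7 ≤ ρ) (hρ2 : ρ + 2 ≤ 4 * h) (hρ3 : ρ % 4 = 0) (hσ : σ < v) (hb1 : 2 * h ≤ σ) (hb2 : σ ≤ 2 * h + 15) :
    TwoW v x ρ σ := by
  obtain ⟨h16, hh16⟩ := hP.h16 hk
  have hv5 := hP.five hq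
  have hc : (2 * h ≤ σ ∧ σ ≤ 2 * h + 14) ∨ (2 * h + 14 ≤ σ ∧ σ ≤ 2 * h + 15) := by omega
  rcases hc with hc | hc
  · exact ⟨ρ - 2 * h - 2, v - h, 2 * h, σ + h,
      ρ - 2 * h - 2, 2 * h - 1, 2 * h + 2, σ + 1 - 2 * h,
      ⟨lt1 hP hL 1 (v - h) (ρ - 2 * h - 2) (by omega) (by omega) (by omega) (by omega),
        colA hC.f0 3 (σ + h) (by omega) (by omega) (by omega) (v0_3 _),
        by omega, by omega, by omega, Or.inr ⟨by omega, by omega⟩⟩,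
      ⟨ld1 hL 1 (2 * h - 1) (ρ - 2 * h - 2) (by omega) (by omega) (by omega) (by omega) (by omega) (by omega),
        colA hC.f2 0 (σ + 1 - 2 * h) (by omega) (by omega) (by omega) (v2_0 _ (by omega)),
        by omega, by omega, by omega, Or.inl ⟨by omega, by omega⟩⟩,
      by omega, by omega⟩
  · exact ⟨ρ - 2 * h - 2, v - h, 2 * h, σ + h,
      ρ - 2 * h - 7, v - h, 2 * h + 5, σ + h,
      ⟨lt1 hP hL 1 (v - h) (ρ - 2 * h - 2) (by omega) (by omega) (by omega) (by omega),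
        colA hC.f0 3 (σ + h) (by omega) (by omega) (by omega) (v0_3 _),
        by omega, by omega, by omega, Or.inr ⟨by omega, by omega⟩⟩,
      ⟨lt1 hP hL 1 (v - h) (ρ - 2 * h - 7) (by omega) (by omega) (by omega) (by omega),
        colA hC.f5 3 (σ + h) (by omega) (by omega) (by omega) (v5_3 _ (by omega)),
        by omega, by omega, by omega, Or.inr ⟨by omega, by omega⟩⟩,
      by omega, by omega⟩

theorem G0q2_2b (k q h v : ℕ) (x : ℕ → ℕ → Bool) (hP : Par1 k q h v) (hk : 4 ≤ k)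
    (hq : 2 ≤ q) (hL : LW h v x) (hC : CQ2 h v x) (ρ σ : ℕ)
    (hρ1 : 2 * h + 7 ≤ ρ) (hρ2 : ρ + 2 ≤ 4 * h) (hρ3 : ρ % 4 = 0) (hσ : σ < v) (h32 : 32 ≤ h) (hb1 : 2 * h + 16 ≤ σ) (hb2 : σ ≤ 2 * h + 18) :
    TwoW v x ρ σ := by
  obtain ⟨h16, hh16⟩ := hP.h16 hk
  have hv5 := hP.five hq
  have hc : (2 * h + 16 ≤ σ ∧ σ ≤ 2 * h + 18) := by omega
  exact ⟨ρ - 2 * h - 2, 2 * h - 1, 2 * h + 2, σ + 1 - 2 * h,
      ρ - 2 * h - 2, v - h, 2 * h, σ + h,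
      ⟨ld1 hL 1 (2 * h - 1) (ρ - 2 * h - 2) (by omega) (by omega) (by omega) (by omega) (by omega) (by omega),
        colA hC.f2 0 (σ + 1 - 2 * h) (by omega) (by omega) (by omega) (v2_0 _ (by omega)),
        by omega, by omega, by omega, Or.inl ⟨by omega, by omega⟩⟩,
      ⟨lt1 hP hL 1 (v - h) (ρ - 2 * h - 2) (by omega) (by omega) (by omega) (by omega),
        colA hC.f0 3 (σ + h) (by omega) (by omega) (by omega) (v0_3 _),
        by omega, by omega, by omega, Or.inr ⟨by omega, by omega⟩⟩,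
      by omega, by omega⟩

theorem G0q2_3 (k q h v : ℕ) (x : ℕ → ℕ → Bool) (hP : Par1 k q h v) (hk : 4 ≤ k)
    (hq : 2 ≤ q) (hL : LW h v x) (hC : CQ2 h v x) (ρ σ : ℕ)
    (hρ1 : 2 * h + 7 ≤ ρ) (hρ2 : ρ + 2 ≤ 4 * h) (hρ3 : ρ % 4 = 0) (hσ : σ < v) (hb1 : 3 * h ≤ σ) (hb2 : σ ≤ 3 * h + 2) :
    TwoW v x ρ σ := by
  obtain ⟨h16, hh16⟩ := hP.h16 hk
  have hv5 := hP.five hq
  have hc : (3 * h ≤ σ ∧ σ ≤ 3 * h + 2) := by omega
  exact ⟨ρ - 2 * h, 0, 2 * h, σ,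
      ρ - 2 * h - 2, 3 * h - 1, 2 * h + 2, σ + 1 - 3 * h,
      ⟨lz hL (0) (ρ - 2 * h) (by omega) (by omega) (by omega) (by omega),
        colA hC.f0 3 (σ) (by omega) (by omega) (by omega) (v0_3 _),
        by omega, by omega, by omega, Or.inl ⟨by omega, by omega⟩⟩,
      ⟨ld1 hL 2 (3 * h - 1) (ρ - 2 * h - 2) (by omega) (by omega) (by omega) (by omega) (by omega) (by omega),
        colA hC.f2 0 (σ + 1 - 3 * h) (by omega) (by omega) (by omega) (v2_0 _ (by omega)),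
        by omega, by omega, by omega, Or.inl ⟨by omega, by omega⟩⟩,
      by omega, by omega⟩

theorem G0q2 (k q h v : ℕ) (x : ℕ → ℕ → Bool) (hP : Par1 k q h v) (hk : 4 ≤ k)
    (hq : 2 ≤ q) (hL : LW h v x) (hC : CQ2 h v x) (ρ σ : ℕ)
    (hρ1 : 2 * h + 7 ≤ ρ) (hρ2 : ρ + 2 ≤ 4 * h) (hρ3 : ρ % 4 = 0) (hσ : σ < v) (hσ2 : σ ≤ 2 * h + 18) :
    TwoW v x ρ σ := by
  obtain ⟨h16, hh16⟩ := hP.h16 hk
  have hv5 := hP.five hq
  rcases Nat.lt_or_ge σ h with h1 | h1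
  · exact G0q2_0 k q h v x hP hk hq hL hC ρ σ hρ1 hρ2 hρ3 hσ h1
  rcases Nat.lt_or_ge σ (2 * h) with h2 | h2
  · exact G0q2_1 k q h v x hP hk hq hL hC ρ σ hρ1 hρ2 hρ3 hσ h1 h2
  rcases Nat.lt_or_ge σ (2 * h + 16) with h3 | h3
  · exact G0q2_2a k q h v x hP hk hq hL hC ρ σ hρ1 hρ2 hρ3 hσ h2 (by omega)
  rcases Nat.lt_or_ge h 32 with h4 | h4
  · exact G0q2_3 k q h v x hP hk hq hL hC ρ σ hρ1 hρ2 hρ3 hσ (by omega) (by omega)
  exact G0q2_2b k q h v x hP hk hq hL hC ρ σ hρ1 hρ2 hρ3 hσ h4 h3 (by omega)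

end Pool.Agent.U4B
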