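import Pool.Agent.helper13.U4B.Val

/-!
# Project U4, extension: explicit pairs (generated)
-/

set_option autoImplicit false

namespace Pool.Agent.U4B

open Pool.Agent.UL Pool.Agent.U4

theorem X10q2_0 (k q h v : ℕ) (x : ℕ → ℕ → Bool) (hP : Par1 k q h v) (hk : 4 ≤ k)
    (hq : 2 ≤ q) (hL : LW h v x) (hC : CQ2 h v x) (ρ σ : ℕ)
    (hρ : ρ = 4 * h + 10) (hσ : σ < v) (hb : σ < h) :
    TwoW v x ρ σ := by
  obtain ⟨h16, hh16⟩ := hP.h16 hk
  have hv5 := hP.five hq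
  have hc : (1 ≤ σ ∧ σ + 1 ≤ h) ∨ (σ + 2 ≤ h) := by omega
  rcases hc with hc | hc
  · exact ⟨2 * h, v + σ - (2 * h), 2 * h + 8, 2 * h,
      2 * h + 4, v + σ - (h), 2 * h + 4, h,
      ⟨colT hP hC.f0 1 (v + σ - (2 * h)) (by omega) (by omega) (by omega) (w0_1 q _ hq),
        colA hC.f8 2 (2 * h) (by omega) (by omega) (by omega) (v8x_2 _ (by omega)),
        by omega, by omega, by omega, Or.inr ⟨by omega, by omega⟩⟩,
      ⟨colT hP hC.f4 0 (v + σ - (h)) (by omega) (by omega) (by omega) (w4_0 q _ hq),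
        colA hC.f4 1 (h) (by omega) (by omega) (by omega) (v4_1 _ (by omega)),
        by omega, by omega, by omega, Or.inr ⟨by omega, by omega⟩⟩,
      by omega, by omega⟩
  · exact ⟨2 * h + 5, v - (2 * h + 1), 2 * h + 3, σ + 2 * h + 1,
      2 * h + 6, v - 1, 2 * h + 2, σ + 1,
      ⟨colT hP hC.f5 2 (v - (2 * h + 1)) (by omega) (by omega) (by omega) (w5_2 q _ hq (by omega)),
        colA hC.f3 2 (σ + 2 * h + 1) (by omega) (by omega) (by omega) (v3_2 _),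
        by omega, by omega, by omega, Or.inr ⟨by omega, by omega⟩⟩,
      ⟨colT hP hC.f6 0 (v - 1) (by omega) (by omega) (by omega) (w6_0 q _ hq (by omega)),
        colA hC.f2 0 (σ + 1) (by omega) (by omega) (by omega) (v2_0 _ (by omega)),
        by omega, by omega, by omega, Or.inr ⟨by omega, by omega⟩⟩,
      by omega, by omega⟩

theorem X10q2_1 (k q h v : ℕ) (x : ℕ → ℕ → Bool) (hP : Par1 k q h v) (hk : 4 ≤ k)
    (hq : 2 ≤ q) (hL : LW h v x) (hC : CQ2 h v x) (ρ σ : ℕ)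
    (hρ : ρ = 4 * h + 10) (hσ : σ < v) (hb1 : h ≤ σ) (hb2 : σ < 2 * h) :
    TwoW v x ρ σ := by
  obtain ⟨h16, hh16⟩ := hP.h16 hk
  have hv5 := hP.five hq
  have hc : (h ≤ σ ∧ σ + 2 ≤ 2 * h) ∨ (h + 1 ≤ σ ∧ σ + 1 ≤ 2 * h) := by omega
  rcases hc with hc | hc
  · exact ⟨2 * h + 5, v - h, 2 * h + 3, σ + h,
      2 * h + 2, σ + 1 - h, 2 * h + 8, h - 1,
      ⟨colT hP hC.f5 1 (v - h) (by omega) (by omega) (by omega) (w5_1 q _ hq (by omega)),
        colA hC.f3 2 (σ + h) (by omega) (by omega) (by omega) (v3_2 _),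
        by omega, by omega, by omega, Or.inr ⟨by omega, by omega⟩⟩,
      ⟨colA hC.f2 0 (σ + 1 - h) (by omega) (by omega) (by omega) (v2_0 _ (by omega)),
        colA hC.f8 0 (h - 1) (by omega) (by omega) (by omega) (v8x_0 _ (by omega)),
        by omega, by omega, by omega, Or.inl ⟨by omega, by omega⟩⟩,
      by omega, by omega⟩
  · exact ⟨2 * h + 5, v - h, 2 * h + 3, σ + h,
      2 * h, v + σ - (3 * h), 2 * h + 8, 3 * h,
      ⟨colT hP hC.f5 1 (v - h) (by omega) (by omega) (by omega) (w5_1 q _ hq (by omega)),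
        colA hC.f3 2 (σ + h) (by omega) (by omega) (by omega) (v3_2 _),
        by omega, by omega, by omega, Or.inr ⟨by omega, by omega⟩⟩,
      ⟨colT hP hC.f0 1 (v + σ - (3 * h)) (by omega) (by omega) (by omega) (w0_1 q _ hq),
        colA hC.f8 3 (3 * h) (by omega) (by omega) (by omega) (v8x_3 _ (by omega)),
        by omega, by omega, by omega, Or.inr ⟨by omega, by omega⟩⟩,
      by omega, by omega⟩

theorem X10q2_2a (k q h v : ℕ) (x : ℕ → ℕ → Bool) (hP : Par1 k q h v) (hk : 4 ≤ k)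
    (hq : 2 ≤ q) (hL : LW h v x) (hC : CQ2 h v x) (ρ σ : ℕ)
    (hρ : ρ = 4 * h + 10) (hσ : σ < v) (hb1 : 2 * h ≤ σ) (hb2 : σ ≤ 2 * h + 15) :
    TwoW v x ρ σ := by
  obtain ⟨h16, hh16⟩ := hP.h16 hk
  have hv5 := hP.five hq
  have hc : (2 * h + 1 ≤ σ ∧ σ ≤ 2 * h + 15) ∨ (2 * h ≤ σ ∧ σ ≤ 2 * h + 14) := by omega
  rcases hc with hc | hc
  · exact ⟨2 * h, v + σ + 1 - 4 * h, 2 * h + 8, 4 * h - 1,
      2 * h + 2, σ - (2 * h), 2 * h + 8, 2 * h,
      ⟨colT hP hC.f0 1 (v + σ + 1 - 4 * h) (by omega) (by omega) (by omega) (w0_1 q _ hq),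
        colA hC.f8 3 (4 * h - 1) (by omega) (by omega) (by omega) (v8x_3 _ (by omega)),
        by omega, by omega, by omega, Or.inr ⟨by omega, by omega⟩⟩,
      ⟨colA hC.f2 0 (σ - (2 * h)) (by omega) (by omega) (by omega) (v2_0 _ (by omega)),
        colA hC.f8 2 (2 * h) (by omega) (by omega) (by omega) (v8x_2 _ (by omega)),
        by omega, by omega, by omega, Or.inl ⟨by omega, by omega⟩⟩,
      by omega, by omega⟩
  · exact ⟨2 * h, v + σ + 1 - 4 * h, 2 * h + 8, 4 * h - 1,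
      2 * h + 5, v - 1, 2 * h + 3, σ + 1,
      ⟨colT hP hC.f0 1 (v + σ + 1 - 4 * h) (by omega) (by omega) (by omega) (w0_1 q _ hq),
        colA hC.f8 3 (4 * h - 1) (by omega) (by omega) (by omega) (v8x_3 _ (by omega)),
        by omega, by omega, by omega, Or.inr ⟨by omega, by omega⟩⟩,
      ⟨colT hP hC.f5 0 (v - 1) (by omega) (by omega) (by omega) (w5_0 q _ hq (by omega)),
        colA hC.f3 2 (σ + 1) (by omega) (by omega) (by omega) (v3_2 _),
        by omega, by omega, by omega, Or.inr ⟨by omega, by omega⟩⟩,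
      by omega, by omega⟩

theorem X10q2_2b (k q h v : ℕ) (x : ℕ → ℕ → Bool) (hP : Par1 k q h v) (hk : 4 ≤ k)
    (hq : 2 ≤ q) (hL : LW h v x) (hC : CQ2 h v x) (ρ σ : ℕ)
    (hρ : ρ = 4 * h + 10) (hσ : σ < v) (h32 : 32 ≤ h) (hb1 : 2 * h + 16 ≤ σ) (hb2 : σ ≤ 2 * h + 18) :
    TwoW v x ρ σ := by
  obtain ⟨h16, hh16⟩ := hP.h16 hk
  have hv5 := hP.five hq
  have hc : (2 * h + 16 ≤ σ ∧ σ ≤ 2 * h + 18) := by omega
  exact ⟨2 * h + 2, σ - (2 * h), 2 * h + 8, 2 * h,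
      2 * h, v + σ - (4 * h), 2 * h + 8, 4 * h,
      ⟨colA hC.f2 0 (σ - (2 * h)) (by omega) (by omega) (by omega) (v2_0 _ (by omega)),
        colA hC.f8 2 (2 * h) (by omega) (by omega) (by omega) (v8x_2 _ (by omega)),
        by omega, by omega, by omega, Or.inl ⟨by omega, by omega⟩⟩,
      ⟨colT hP hC.f0 1 (v + σ - (4 * h)) (by omega) (by omega) (by omega) (w0_1 q _ hq),
        colA hC.f8 4 (4 * h) (by omega) (by omega) (by omega) (v8x_4 _ (by omega)),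
        by omega, by omega, by omega, Or.inr ⟨by omega, by omega⟩⟩,
      by omega, by omega⟩

theorem X10q2_3 (k q h v : ℕ) (x : ℕ → ℕ → Bool) (hP : Par1 k q h v) (hk : 4 ≤ k)
    (hq : 2 ≤ q) (hL : LW h v x) (hC : CQ2 h v x) (ρ σ : ℕ)
    (hρ : ρ = 4 * h + 10) (hσ : σ < v) (hb1 : 3 * h ≤ σ) (hb2 : σ ≤ 3 * h + 2) :
    TwoW v x ρ σ := by
  obtain ⟨h16, hh16⟩ := hP.h16 hk
  have hv5 := hP.five hq
  have hc : (3 * h ≤ σ ∧ σ ≤ 3 * h + 2) := by omega
  exact ⟨2 * h + 3, σ - (h), 2 * h + 7, h,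
      2 * h + 3, σ + 1 - h, 2 * h + 7, h - 1,
      ⟨colA hC.f3 2 (σ - (h)) (by omega) (by omega) (by omega) (v3_2 _),
        colA hC.f7 1 (h) (by omega) (by omega) (by omega) (v7x_1 _ (by omega)),
        by omega, by omega, by omega, Or.inl ⟨by omega, by omega⟩⟩,
      ⟨colA hC.f3 2 (σ + 1 - h) (by omega) (by omega) (by omega) (v3_2 _),
        colA hC.f7 0 (h - 1) (by omega) (by omega) (by omega) (v7x_0 _ (by omega)),
        by omega, by omega, by omega, Or.inl ⟨by omega, by omega⟩⟩,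
      by omega, by omega⟩

theorem X10q2 (k q h v : ℕ) (x : ℕ → ℕ → Bool) (hP : Par1 k q h v) (hk : 4 ≤ k)
    (hq : 2 ≤ q) (hL : LW h v x) (hC : CQ2 h v x) (ρ σ : ℕ)
    (hρ : ρ = 4 * h + 10) (hσ : σ < v) (hσ2 : σ ≤ 2 * h + 18) :
    TwoW v x ρ σ := by
  obtain ⟨h16, hh16⟩ := hP.h16 hk
  have hv5 := hP.five hq
  rcases Nat.lt_or_ge σ h with h1 | h1
  · exact X10q2_0 k q h v x hP hk hq hL hC ρ σ hρ hσ h1
  rcases Nat.lt_or_ge σ (2 * h) with h2 | h2
  · exact X10q2_1 k q h v x hP hk hq hL hC ρ σ hρ hσ h1 h2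
  rcases Nat.lt_or_ge σ (2 * h + 16) with h3 | h3
  · exact X10q2_2a k q h v x hP hk hq hL hC ρ σ hρ hσ h2 (by omega)
  rcases Nat.lt_or_ge h 32 with h4 | h4
  · exact X10q2_3 k q h v x hP hk hq hL hC ρ σ hρ hσ (by omega) (by omega)
  exact X10q2_2b k q h v x hP hk hq hL hC ρ σ hρ hσ h4 h3 (by omega)

end Pool.Agent.U4B
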