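import Pool.Agent.helper13.U4B.Val

/-!
# Project U4, extension: explicit pairs (generated)
-/

set_option autoImplicit false

namespace Pool.Agent.U4B

open Pool.Agent.UL Pool.Agent.U4

theorem X1q1_0 (k q h v : ℕ) (x : ℕ → ℕ → Bool) (hP : Par1 k q h v) (hk : 4 ≤ k)
    (hq : q = 1) (hL : LW h v x) (hC : CQ1 h v x) (ρ σ : ℕ)
    (hρ : ρ = 4 * h + 1) (hσ : σ < v) (hb : σ < h) :
    TwoW v x ρ σ := by
  obtain ⟨h16, hh16⟩ := hP.h16 hk
  have hv3 := hP.one hq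
  subst hq
  have hc : (1 ≤ σ ∧ σ + 1 ≤ h) ∨ (σ + 2 ≤ h) := by omega
  rcases hc with hc | hc
  · exact ⟨2 * h - 1, v + σ + 1 - 2 * h, 2 * h, 2 * h - 1,
      2 * h - 1, 0, 2 * h + 2, σ,
      ⟨colA hC.m1 1 (v + σ + 1 - 2 * h) (by omega) (by omega) (by omega) (vm1_1 _),
        colA hC.f0 1 (2 * h - 1) (by omega) (by omega) (by omega) (v0_1 _ (by omega)),
        by omega, by omega, by omega, Or.inr ⟨by omega, by omega⟩⟩,
      ⟨colA hC.m1 0 (0) (by omega) (by omega) (by omega) (vm1_0 _ (by omega)),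
        colA hC.f2 0 (σ) (by omega) (by omega) (by omega) (v2_0 _ (by omega)),
        by omega, by omega, by omega, Or.inl ⟨by omega, by omega⟩⟩,
      by omega, by omega⟩
  · exact ⟨2 * h - 1, v + σ + 1 - 2 * h, 2 * h, 2 * h - 1,
      2 * h - 4, h - 1, 2 * h + 3, v + σ + 1 - h,
      ⟨colA hC.m1 1 (v + σ + 1 - 2 * h) (by omega) (by omega) (by omega) (vm1_1 _),
        colA hC.f0 1 (2 * h - 1) (by omega) (by omega) (by omega) (v0_1 _ (by omega)),
        by omega, by omega, by omega, Or.inr ⟨by omega, by omega⟩⟩,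
      ⟨le1 hL (h - 1) (2 * h - 4) (by omega) (by omega) (by omega),
        colA hC.f3 2 (v + σ + 1 - h) (by omega) (by omega) (by omega) (v3_2 _),
        by omega, by omega, by omega, Or.inr ⟨by omega, by omega⟩⟩,
      by omega, by omega⟩

theorem X1q1_1 (k q h v : ℕ) (x : ℕ → ℕ → Bool) (hP : Par1 k q h v) (hk : 4 ≤ k)
    (hq : q = 1) (hL : LW h v x) (hC : CQ1 h v x) (ρ σ : ℕ)
    (hρ : ρ = 4 * h + 1) (hσ : σ < v) (hb1 : h ≤ σ) (hb2 : σ < 2 * h) :
    TwoW v x ρ σ := by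
  obtain ⟨h16, hh16⟩ := hP.h16 hk
  have hv3 := hP.one hq
  subst hq
  have hc : (h + 1 ≤ σ ∧ σ + 2 ≤ 2 * h) ∨ (h + 2 ≤ σ ∧ σ + 1 ≤ 2 * h) ∨ (h ≤ σ ∧ σ + 3 ≤ 2 * h) := by omega
  rcases hc with hc | hc | hc
  · exact ⟨2 * h - 1, h, 2 * h + 2, σ - (h),
      2 * h - 4, 2 * h - 1, 2 * h + 3, v + σ + 1 - 2 * h,
      ⟨colA hC.m1 1 (h) (by omega) (by omega) (by omega) (vm1_1 _),
        colA hC.f2 0 (σ - (h)) (by omega) (by omega) (by omega) (v2_0 _ (by omega)),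
        by omega, by omega, by omega, Or.inl ⟨by omega, by omega⟩⟩,
      ⟨ld1 hL 1 (2 * h - 1) (2 * h - 4) (by omega) (by omega) (by omega) (by omega) (by omega) (by omega),
        colA hC.f3 2 (v + σ + 1 - 2 * h) (by omega) (by omega) (by omega) (v3_2 _),
        by omega, by omega, by omega, Or.inr ⟨by omega, by omega⟩⟩,
      by omega, by omega⟩
  · exact ⟨2 * h - 1, h, 2 * h + 2, σ - (h),
      2 * h - 1, σ - (1), 2 * h + 2, 1,
      ⟨colA hC.m1 1 (h) (by omega) (by omega) (by omega) (vm1_1 _),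
        colA hC.f2 0 (σ - (h)) (by omega) (by omega) (by omega) (v2_0 _ (by omega)),
        by omega, by omega, by omega, Or.inl ⟨by omega, by omega⟩⟩,
      ⟨colA hC.m1 1 (σ - (1)) (by omega) (by omega) (by omega) (vm1_1 _),
        colA hC.f2 0 (1) (by omega) (by omega) (by omega) (v2_0 _ (by omega)),
        by omega, by omega, by omega, Or.inl ⟨by omega, by omega⟩⟩,
      by omega, by omega⟩
  · exact ⟨2 * h - 4, 2 * h - 1, 2 * h + 3, v + σ + 1 - 2 * h,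
      2 * h - 4, 2 * h - 2, 2 * h + 3, v + σ + 2 - 2 * h,
      ⟨ld1 hL 1 (2 * h - 1) (2 * h - 4) (by omega) (by omega) (by omega) (by omega) (by omega) (by omega),
        colA hC.f3 2 (v + σ + 1 - 2 * h) (by omega) (by omega) (by omega) (v3_2 _),
        by omega, by omega, by omega, Or.inr ⟨by omega, by omega⟩⟩,
      ⟨ld2 hL 1 (2 * h - 2) (2 * h - 4) (by omega) (by omega) (by omega) (by omega) (by omega) (by omega),
        colA hC.f3 2 (v + σ + 2 - 2 * h) (by omega) (by omega) (by omega) (v3_2 _),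
        by omega, by omega, by omega, Or.inr ⟨by omega, by omega⟩⟩,
      by omega, by omega⟩

theorem X1q1_2a (k q h v : ℕ) (x : ℕ → ℕ → Bool) (hP : Par1 k q h v) (hk : 4 ≤ k)
    (hq : q = 1) (hL : LW h v x) (hC : CQ1 h v x) (ρ σ : ℕ)
    (hρ : ρ = 4 * h + 1) (hσ : σ < v) (hb1 : 2 * h ≤ σ) (hb2 : σ ≤ 2 * h + 15) :
    TwoW v x ρ σ := by
  obtain ⟨h16, hh16⟩ := hP.h16 hk
  have hv3 := hP.one hq
  subst hq
  have hc : (2 * h ≤ σ ∧ σ ≤ 2 * h + 15) := by omega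
  exact ⟨2 * h - 2, 0, 2 * h + 3, σ,
      2 * h - 1, σ - (h), 2 * h + 2, h,
      ⟨lz hL (0) (2 * h - 2) (by omega) (by omega) (by omega) (by omega),
        colA hC.f3 2 (σ) (by omega) (by omega) (by omega) (v3_2 _),
        by omega, by omega, by omega, Or.inl ⟨by omega, by omega⟩⟩,
      ⟨colA hC.m1 1 (σ - (h)) (by omega) (by omega) (by omega) (vm1_1 _),
        colA hC.f2 1 (h) (by omega) (by omega) (by omega) (v2_1 _ (by omega)),
        by omega, by omega, by omega, Or.inl ⟨by omega, by omega⟩⟩,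
      by omega, by omega⟩

theorem X1q1_2b (k q h v : ℕ) (x : ℕ → ℕ → Bool) (hP : Par1 k q h v) (hk : 4 ≤ k)
    (hq : q = 1) (hL : LW h v x) (hC : CQ1 h v x) (ρ σ : ℕ)
    (hρ : ρ = 4 * h + 1) (hσ : σ < v) (h32 : 32 ≤ h) (hb1 : 2 * h + 16 ≤ σ) (hb2 : σ ≤ 2 * h + 18) :
    TwoW v x ρ σ := by
  obtain ⟨h16, hh16⟩ := hP.h16 hk
  have hv3 := hP.one hq
  subst hq
  have hc : (2 * h + 16 ≤ σ ∧ σ ≤ 2 * h + 18) := by omega
  exact ⟨2 * h - 2, 0, 2 * h + 3, σ,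
      2 * h - 1, σ - (h), 2 * h + 2, h,
      ⟨lz hL (0) (2 * h - 2) (by omega) (by omega) (by omega) (by omega),
        colA hC.f3 2 (σ) (by omega) (by omega) (by omega) (v3_2 _),
        by omega, by omega, by omega, Or.inl ⟨by omega, by omega⟩⟩,
      ⟨colA hC.m1 1 (σ - (h)) (by omega) (by omega) (by omega) (vm1_1 _),
        colA hC.f2 1 (h) (by omega) (by omega) (by omega) (v2_1 _ (by omega)),
        by omega, by omega, by omega, Or.inl ⟨by omega, by omega⟩⟩,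
      by omega, by omega⟩

theorem X1q1 (k q h v : ℕ) (x : ℕ → ℕ → Bool) (hP : Par1 k q h v) (hk : 4 ≤ k)
    (hq : q = 1) (hL : LW h v x) (hC : CQ1 h v x) (ρ σ : ℕ)
    (hρ : ρ = 4 * h + 1) (hσ : σ < v) (hσ2 : σ ≤ 2 * h + 18) :
    TwoW v x ρ σ := by
  obtain ⟨h16, hh16⟩ := hP.h16 hk
  have hv3 := hP.one hq
  rcases Nat.lt_or_ge σ h with h1 | h1
  · exact X1q1_0 k q h v x hP hk hq hL hC ρ σ hρ hσ h1
  rcases Nat.lt_or_ge σ (2 * h) with h2 | h2
  · exact X1q1_1 k q h v x hP hk hq hL hC ρ σ hρ hσ h1 h2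
  rcases Nat.lt_or_ge σ (2 * h + 16) with h3 | h3
  · exact X1q1_2a k q h v x hP hk hq hL hC ρ σ hρ hσ h2 (by omega)
  exact X1q1_2b k q h v x hP hk hq hL hC ρ σ hρ hσ (by omega) h3 (by omega)

end Pool.Agent.U4B
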