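import Pool.Agent.helper13.U4B.G0q1
import Pool.Agent.helper13.U4B.G1q1
import Pool.Agent.helper13.U4B.G2q1
import Pool.Agent.helper13.U4B.G3q1
import Pool.Agent.helper13.U4B.Xm1q1
import Pool.Agent.helper13.U4B.X0q1
import Pool.Agent.helper13.U4B.X1q1
import Pool.Agent.helper13.U4B.X2q1
import Pool.Agent.helper13.U4B.X3q1
import Pool.Agent.helper13.U4B.X4q1
import Pool.Agent.helper13.U4B.X5q1
import Pool.Agent.helper13.U4B.X6q1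
import Pool.Agent.helper13.U4B.X7q1
import Pool.Agent.helper13.U4B.X8q1
import Pool.Agent.helper13.U4B.X9q1
import Pool.Agent.helper13.U4B.X10q1
import Pool.Agent.helper13.U4B.X11q1
import Pool.Agent.helper13.U4B.X12q1
import Pool.Agent.helper13.U4B.X13q1
import Pool.Agent.helper13.U4B.X14q1
import Pool.Agent.helper13.U4B.X15q1
import Pool.Agent.helper13.U4B.X16q1
import Pool.Agent.helper13.U4B.G0q2
import Pool.Agent.helper13.U4B.G1q2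
import Pool.Agent.helper13.U4B.G2q2
import Pool.Agent.helper13.U4B.G3q2
import Pool.Agent.helper13.U4B.Xm1q2
import Pool.Agent.helper13.U4B.X0q2
import Pool.Agent.helper13.U4B.X1q2
import Pool.Agent.helper13.U4B.X2q2
import Pool.Agent.helper13.U4B.X3q2
import Pool.Agent.helper13.U4B.X4q2
import Pool.Agent.helper13.U4B.X5q2
import Pool.Agent.helper13.U4B.X6q2
import Pool.Agent.helper13.U4B.X7q2
import Pool.Agent.helper13.U4B.X8q2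
import Pool.Agent.helper13.U4B.X9q2
import Pool.Agent.helper13.U4B.X10q2
import Pool.Agent.helper13.U4B.X11q2
import Pool.Agent.helper13.U4B.X12q2
import Pool.Agent.helper13.U4B.X13q2
import Pool.Agent.helper13.U4B.X14q2
import Pool.Agent.helper13.U4B.X15q2
import Pool.Agent.helper13.U4B.X16q2
import Pool.Agent.helper13.U4B.D1q1
import Pool.Agent.helper13.U4B.D1q2
import Pool.Agent.helper13.U4B.DSp
import Pool.Agent.helper13.U4B.Gen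
import Pool.Agent.helper44.U4.WTT

/-!
# Project U4, extension: all sums for `k ≥ 4`
-/

set_option autoImplicit false

namespace Pool.Agent.U4B

open Pool.Agent.UL Pool.Agent.U4

/-- the sums `v (4 h + 16) + 2 σ`, `q = 1` -/
theorem GI16 (k q h v : ℕ) (F : ℤ → Bool) (ρ σ : ℕ) (hP : Par1 k q h v) (hk : 4 ≤ k) (hq : q = 1) (hF : IsF v F)
    (hL : FL h q v (xF v F)) (hC : CF h v (xF v F)) (hρ : ρ = 4 * h + 16) (hσ : σ < v) (hσ1 : h + 3 ≤ σ)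
    (hσ2 : σ ≠ 2 * h + 6) : Two F ((v : ℤ) * ρ + 2 * σ) := by
  by_contra hT
  obtain ⟨h16, hh16⟩ := hP.h16 hk
  have hodd := hP.odd
  have hv3 := hP.one hq
  have hOne : OneX (XM h v (v - 1) (xF v F)) (yF v F ((v : ℤ) * ρ + 2 * σ)) := by
    refine OneX_of v F ρ σ _ hodd hσ (fun t r hX => ⟨hX.1, hX.2.1⟩) ?_ hT
    intro t r t' r' h1 h2
    obtain ⟨a1, -, a2⟩ := h1
    obtain ⟨b1, -, b2⟩ := h2
    have ha : r ≤ 2 * h + 6 ∨ (t = h + 3 ∧ r ≤ 2 * h + 8) := by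
      rcases a2 with (h | h | h | h) | h <;> omega
    have hb : r' ≤ 2 * h + 6 ∨ (t' = h + 3 ∧ r' ≤ 2 * h + 8) := by
      rcases b2 with (h | h | h | h) | h <;> omega
    clear a2 b2 hT
    rcases ha with ha | ha <;> rcases hb with hb | hb <;> omega
  have e7 : XM h v (v - 1) (xF v F) (h + 3) (2 * h + 7) := by
    have h6 := (hC.f7 1 3 (by omega) (by omega)).mpr (by unfold c7x; omega)
    have h7 : 1 * h + 3 = h + 3 := by omega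
    rw [h7] at h6
    exact ⟨by omega, h6, Or.inl (Or.inr (Or.inr (Or.inl ⟨rfl, by omega⟩)))⟩
  have e8 : XM h v (v - 1) (xF v F) (h + 3) (2 * h + 8) := by
    have h6 := (hC.f8 1 3 (by omega) (by omega) (by omega)).mpr (by unfold c8x; omega)
    have h7 : 1 * h + 3 = h + 3 := by omega
    rw [h7] at h6
    exact ⟨by omega, h6, Or.inl (Or.inr (Or.inr (Or.inl ⟨rfl, by omega⟩)))⟩
  exact MAIX h v F ρ σ (XM h v (v - 1) (xF v F)) (by omega) (by omega) hodd (by omega) hF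
    (YFB k q h v (v - 1) _ hP hk hL hC (by omega) (by omega))
    (fun t ht1 ht2 ht3 => TpB h q v (v - 1) _ (by omega) hL (by omega) t ht1 (by omega) ht3)
    (fun t ht1 ht2 ht3 => KPB k q h v (v - 1) _ hP hk hC t ht1 ht2 ht3 (by omega) (by omega) (Or.inl (by omega)))
    e7 e8 (by omega) hOne

theorem CQ2.cf {h v : ℕ} {x : ℕ → ℕ → Bool} (hC : CQ2 h v x) : CF h v x :=
  ⟨hC.m1, hC.f0, hC.f1, hC.f2, hC.f3, hC.f4, Col.c1 hC.f5, Col.c1 hC.f6, hC.f7, Col.c1 hC.f8⟩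

theorem CQ1.cf {h v : ℕ} {x : ℕ → ℕ → Bool} (hC : CQ1 h v x) : CF h v x :=
  ⟨hC.m1, hC.f0, hC.f1, hC.f2, hC.f3, hC.f4, Col.c1q hC.f5 (fun B _ hB => q_iff B hB),
    Col.c1q hC.f6 (fun B _ hB => q_iff B hB), hC.f7, Col.c1q hC.f8 (fun B _ hB => q_iff B hB)⟩

theorem D2q2 (k q h v : ℕ) (x : ℕ → ℕ → Bool) (hP : Par1 k q h v) (hk : 4 ≤ k) (hq : 2 ≤ q) (hL : LW h v x)
    (hC : CQ2 h v x) (ρ σ : ℕ) (hρ1 : 2 * h + 7 ≤ ρ) (hρ2 : ρ ≤ 4 * h + 16) (hσ : σ < v) (hσ2 : σ ≤ 2 * h + 18) :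
    TwoW v x ρ σ := by
  obtain ⟨h16, hh16⟩ := hP.h16 hk
  rcases Nat.lt_or_ge ρ (4 * h - 1) with h6 | h6
  · have h4 : ρ % 4 = 0 ∨ ρ % 4 = 1 ∨ ρ % 4 = 2 ∨ ρ % 4 = 3 := by omega
    rcases h4 with h4 | h4 | h4 | h4
    · exact G0q2 k q h v x hP hk hq hL hC ρ σ hρ1 (by omega) h4 hσ hσ2
    · exact G1q2 k q h v x hP hk hq hL hC ρ σ hρ1 (by omega) h4 hσ hσ2
    · exact G2q2 k q h v x hP hk hq hL hC ρ σ hρ1 (by omega) h4 hσ hσ2
    · exact G3q2 k q h v x hP hk hq hL hC ρ σ hρ1 (by omega) h4 hσ hσ2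
  obtain ⟨c, hc⟩ : ∃ c, ρ = 4 * h - 1 + c := ⟨ρ - (4 * h - 1), by omega⟩
  have hc8 : c ≤ 17 := by omega
  interval_cases c
  · exact Xm1q2 k q h v x hP hk hq hL hC ρ σ (by omega) hσ hσ2
  · exact X0q2 k q h v x hP hk hq hL hC ρ σ (by omega) hσ hσ2
  · exact X1q2 k q h v x hP hk hq hL hC ρ σ (by omega) hσ hσ2
  · exact X2q2 k q h v x hP hk hq hL hC ρ σ (by omega) hσ hσ2
  · exact X3q2 k q h v x hP hk hq hL hC ρ σ (by omega) hσ hσ2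
  · exact X4q2 k q h v x hP hk hq hL hC ρ σ (by omega) hσ hσ2
  · exact X5q2 k q h v x hP hk hq hL hC ρ σ (by omega) hσ hσ2
  · exact X6q2 k q h v x hP hk hq hL hC ρ σ (by omega) hσ hσ2
  · exact X7q2 k q h v x hP hk hq hL hC ρ σ (by omega) hσ hσ2
  · exact X8q2 k q h v x hP hk hq hL hC ρ σ (by omega) hσ hσ2
  · exact X9q2 k q h v x hP hk hq hL hC ρ σ (by omega) hσ hσ2
  · exact X10q2 k q h v x hP hk hq hL hC ρ σ (by omega) hσ hσ2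
  · exact X11q2 k q h v x hP hk hq hL hC ρ σ (by omega) hσ hσ2
  · exact X12q2 k q h v x hP hk hq hL hC ρ σ (by omega) hσ hσ2
  · exact X13q2 k q h v x hP hk hq hL hC ρ σ (by omega) hσ hσ2
  · exact X14q2 k q h v x hP hk hq hL hC ρ σ (by omega) hσ hσ2
  · exact X15q2 k q h v x hP hk hq hL hC ρ σ (by omega) hσ hσ2
  · exact X16q2 k q h v x hP hk hq hL hC ρ σ (by omega) hσ hσ2

theorem D2q1 (k q h v : ℕ) (x : ℕ → ℕ → Bool) (hP : Par1 k q h v) (hk : 4 ≤ k) (hq : q = 1) (hL : LW h v x)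
    (hC : CQ1 h v x) (ρ σ : ℕ) (hρ1 : 2 * h + 7 ≤ ρ) (hρ2 : ρ ≤ 4 * h + 16) (hσ : σ < v) (hσ2 : σ ≤ 2 * h + 18)
    (hne : ¬(ρ = 4 * h + 16 ∧ (σ = 2 * h + 14 ∨ σ = 2 * h + 18))) :
    TwoW v x ρ σ := by
  obtain ⟨h16, hh16⟩ := hP.h16 hk
  rcases Nat.lt_or_ge ρ (4 * h - 1) with h6 | h6
  · have h4 : ρ % 4 = 0 ∨ ρ % 4 = 1 ∨ ρ % 4 = 2 ∨ ρ % 4 = 3 := by omega
    rcases h4 with h4 | h4 | h4 | h4
    · exact G0q1 k q h v x hP hk hq hL hC ρ σ hρ1 (by omega) h4 hσ hσ2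
    · exact G1q1 k q h v x hP hk hq hL hC ρ σ hρ1 (by omega) h4 hσ hσ2
    · exact G2q1 k q h v x hP hk hq hL hC ρ σ hρ1 (by omega) h4 hσ hσ2
    · exact G3q1 k q h v x hP hk hq hL hC ρ σ hρ1 (by omega) h4 hσ hσ2
  obtain ⟨c, hc⟩ : ∃ c, ρ = 4 * h - 1 + c := ⟨ρ - (4 * h - 1), by omega⟩
  have hc8 : c ≤ 17 := by omega
  interval_cases c
  · exact Xm1q1 k q h v x hP hk hq hL hC ρ σ (by omega) hσ hσ2
  · exact X0q1 k q h v x hP hk hq hL hC ρ σ (by omega) hσ hσ2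
  · exact X1q1 k q h v x hP hk hq hL hC ρ σ (by omega) hσ hσ2
  · exact X2q1 k q h v x hP hk hq hL hC ρ σ (by omega) hσ hσ2
  · exact X3q1 k q h v x hP hk hq hL hC ρ σ (by omega) hσ hσ2
  · exact X4q1 k q h v x hP hk hq hL hC ρ σ (by omega) hσ hσ2
  · exact X5q1 k q h v x hP hk hq hL hC ρ σ (by omega) hσ hσ2
  · exact X6q1 k q h v x hP hk hq hL hC ρ σ (by omega) hσ hσ2
  · exact X7q1 k q h v x hP hk hq hL hC ρ σ (by omega) hσ hσ2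
  · exact X8q1 k q h v x hP hk hq hL hC ρ σ (by omega) hσ hσ2
  · exact X9q1 k q h v x hP hk hq hL hC ρ σ (by omega) hσ hσ2
  · exact X10q1 k q h v x hP hk hq hL hC ρ σ (by omega) hσ hσ2
  · exact X11q1 k q h v x hP hk hq hL hC ρ σ (by omega) hσ hσ2
  · exact X12q1 k q h v x hP hk hq hL hC ρ σ (by omega) hσ hσ2
  · exact X13q1 k q h v x hP hk hq hL hC ρ σ (by omega) hσ hσ2
  · exact X14q1 k q h v x hP hk hq hL hC ρ σ (by omega) hσ hσ2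
  · exact X15q1 k q h v x hP hk hq hL hC ρ σ (by omega) hσ hσ2
  · exact X16q1 k q h v x hP hk hq hL hC ρ σ (by omega) (by omega) (by omega) hσ hσ2

/-- all sums, `k ≥ 4`, `q ≥ 2` -/
theorem ALLq2 (k q h v : ℕ) (F : ℤ → Bool) (ρ σ : ℕ) (hP : Par1 k q h v) (hk : 4 ≤ k) (hq : 2 ≤ q) (hF : IsF v F)
    (hL : FL h q v (xF v F)) (hW : LW h v (xF v F)) (hC : CQ2 h v (xF v F)) (hσ : σ < v) (h0 : 2 ≤ ρ ∨ 3 ≤ σ) :
    Two F ((v : ℤ) * ρ + 2 * σ) := by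
  have hodd := hP.odd
  rcases Nat.lt_or_ge ρ (2 * h + 7) with h1 | h1
  · exact WTT CEL v F ρ σ hodd (D1q2 k q h v _ hP hk hq hL hW hC ρ σ (by omega) hσ h0)
  rcases Nat.lt_or_ge ρ (4 * h + 17) with h2 | h2
  · rcases Nat.lt_or_ge σ (2 * h + 19) with h3 | h3
    · exact WTT CEL v F ρ σ hodd (D2q2 k q h v _ hP hk hq hW hC ρ σ h1 (by omega) hσ (by omega))
    · by_cases e1 : σ + 1 = v ∧ ρ + 4 ≤ 4 * h ∧ ρ % 4 ≠ 1
      · exact WTT CEL v F ρ σ hodd (DSP1 k q h v _ hP hk hW hC.f2 hC.f3 hC.f4 ρ σ h1 e1.2.1 e1.2.2 e1.1)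
      · by_cases e2 : σ + 2 = v ∧ ρ + 6 ≤ 4 * h ∧ ρ % 4 = 2
        · exact WTT CEL v F ρ σ hodd (DSP2 k q h v _ hP hk hW hC.f2 ρ σ h1 e2.2.1 e2.2.2 e2.1)
        · exact GII k q h v F ρ σ hP hk hF hL hC.cf h1 (by omega) hσ h3 e1 e2
  · exact GI k q h v F ρ σ hP hk hF hL hC.cf h2 hσ

/-- all sums, `k ≥ 4`, `q = 1` -/
theorem ALLq1 (k q h v : ℕ) (F : ℤ → Bool) (ρ σ : ℕ) (hP : Par1 k q h v) (hk : 4 ≤ k) (hq : q = 1) (hF : IsF v F)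
    (hL : FL h q v (xF v F)) (hW : LW h v (xF v F)) (hC : CQ1 h v (xF v F)) (hσ : σ < v) (h0 : 2 ≤ ρ ∨ 3 ≤ σ) :
    Two F ((v : ℤ) * ρ + 2 * σ) := by
  have hodd := hP.odd
  rcases Nat.lt_or_ge ρ (2 * h + 7) with h1 | h1
  · exact WTT CEL v F ρ σ hodd (D1q1 k q h v _ hP hk hq hL hW hC ρ σ (by omega) hσ h0)
  rcases Nat.lt_or_ge ρ (4 * h + 17) with h2 | h2
  · by_cases h4 : ρ = 4 * h + 16 ∧ (σ = 2 * h + 14 ∨ σ = 2 * h + 18)
    · obtain ⟨h16, hh16⟩ := hP.h16 hk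
      exact GI16 k q h v F ρ σ hP hk hq hF hL hC.cf h4.1 hσ (by omega) (by omega)
    rcases Nat.lt_or_ge σ (2 * h + 19) with h3 | h3
    · exact WTT CEL v F ρ σ hodd (D2q1 k q h v _ hP hk hq hW hC ρ σ h1 (by omega) hσ (by omega) h4)
    · by_cases e1 : σ + 1 = v ∧ ρ + 4 ≤ 4 * h ∧ ρ % 4 ≠ 1
      · exact WTT CEL v F ρ σ hodd (DSP1 k q h v _ hP hk hW hC.f2 hC.f3 hC.f4 ρ σ h1 e1.2.1 e1.2.2 e1.1)
      · by_cases e2 : σ + 2 = v ∧ ρ + 6 ≤ 4 * h ∧ ρ % 4 = 2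
        · exact WTT CEL v F ρ σ hodd (DSP2 k q h v _ hP hk hW hC.f2 ρ σ h1 e2.2.1 e2.2.2 e2.1)
        · exact GII k q h v F ρ σ hP hk hF hL hC.cf h1 (by omega) hσ h3 e1 e2
  · exact GI k q h v F ρ σ hP hk hF hL hC.cf h2 hσ

end Pool.Agent.U4B
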