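import Pool.Agent.helper13.U4.SpecD

/-!
# Project U4, extension to all odd `m ≥ 3`: parameters, accessors
-/

set_option autoImplicit false

namespace Pool.Agent.U4B

open Pool.Agent.UL Pool.Agent.U4

/-- the parameters -/
structure Par1 (k q h v : ℕ) : Prop where
  hk : 2 ≤ k
  hh : h = 2 ^ k
  hq : 1 ≤ q
  hv : v + 1 = 2 * h * q + h

theorem Par1.base {k q h v : ℕ} (hP : Par1 k q h v) :
    4 ≤ h ∧ h % 4 = 0 ∧ 3 * h ≤ v + 1 ∧ v = (2 * q) * h + (h - 1) ∧ 2 * 2 ^ (k - 1) = h := by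
  have h2 := hP.hk
  have hh := hP.hh
  have hq := hP.hq
  have hv := hP.hv
  have e2 : (4 : ℕ) = 2 ^ 2 := by norm_num
  have h4 : 4 ∣ h := by
    rw [hh, e2]
    exact pow_dvd_pow 2 h2
  have hpos : 0 < h := by rw [hh]; positivity
  have h4' : 4 ≤ h := Nat.le_of_dvd hpos h4
  have h3 : h * 1 ≤ h * q := Nat.mul_le_mul_left h hq
  have h5 : v + 1 = 2 * (h * q) + h := by rw [hv, mul_assoc]
  refine ⟨h4', Nat.mod_eq_zero_of_dvd h4, by omega, ?_, ?_⟩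
  · have h6 : 2 * q * h = 2 * (h * q) := by ring
    omega
  · rw [hh, ← pow_succ']
    congr 1
    omega

theorem Par1.odd {k q h v : ℕ} (hP : Par1 k q h v) : v % 2 = 1 := by
  obtain ⟨h4, h4', -, hv, -⟩ := hP.base
  have e : (2 * q) * h = 2 * (q * h) := by ring
  omega

theorem Par1.five {k q h v : ℕ} (hP : Par1 k q h v) (hq : 2 ≤ q) : 5 * h ≤ v + 1 := by
  have hv := hP.hv
  have h3 : 2 * h * 2 ≤ 2 * h * q := Nat.mul_le_mul_left _ hq
  omega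

theorem Par1.one {k q h v : ℕ} (hP : Par1 k q h v) (hq : q = 1) : v + 1 = 3 * h := by
  have hv := hP.hv
  subst hq
  omega

theorem Par1.h8 {k q h v : ℕ} (hP : Par1 k q h v) (hk : 3 ≤ k) : h % 8 = 0 ∧ 8 ≤ h := by
  obtain ⟨j, rfl⟩ := Nat.exists_eq_add_of_le hk
  have h1 : h = 8 * 2 ^ j := by rw [hP.hh, pow_add]; norm_num
  have h2 : 0 < 2 ^ j := by positivity
  omega

theorem Par1.h16 {k q h v : ℕ} (hP : Par1 k q h v) (hk : 4 ≤ k) : h % 16 = 0 ∧ 16 ≤ h := by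
  obtain ⟨j, rfl⟩ := Nat.exists_eq_add_of_le hk
  have h1 : h = 16 * 2 ^ j := by rw [hP.hh, pow_add]; norm_num
  have h2 : 0 < 2 ^ j := by positivity
  omega

/-- last value of a column -/
theorem Par1.last {k q h v : ℕ} (hP : Par1 k q h v) (C : ℕ → Bool) (φ : ℕ → ℕ → Prop)
    (hC : Col h v C φ) : C v = true ↔ φ (2 * q) (h - 1) := by
  obtain ⟨h4, -, -, hv, -⟩ := hP.base
  have := hC (2 * q) (h - 1) (by omega) (by omega)
  rwa [← hv] at this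

/-! ## Accessors -/

/-- a value of a column, time `t` in the block `B` -/
theorem colA {h v : ℕ} {C : ℕ → Bool} {φ : ℕ → ℕ → Prop} (hC : Col h v C φ) (B t : ℕ)
    (h1 : B * h ≤ t) (h2 : t < B * h + h) (h3 : t ≤ v) (h4 : φ B (t - B * h)) : C t = true := by
  have h5 := hC B (t - B * h) (by omega) (by omega)
  have h6 : B * h + (t - B * h) = t := by omega
  rw [h6] at h5
  exact h5.2 h4

/-- a value of a column, time `t` in the block `2 q - a` -/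
theorem colT {k q h v : ℕ} (hP : Par1 k q h v) {C : ℕ → Bool} {φ : ℕ → ℕ → Prop} (hC : Col h v C φ)
    (a t : ℕ) (ha : a ≤ 2 * q) (h1 : v + 1 ≤ t + (a + 1) * h) (h2 : t + a * h ≤ v)
    (h4 : φ (2 * q - a) (t + (a + 1) * h - (v + 1))) : C t = true := by
  obtain ⟨hh, -, -, hv, -⟩ := hP.base
  obtain ⟨b, hb⟩ : ∃ b, 2 * q = b + a := ⟨2 * q - a, by omega⟩
  have e1 : 2 * q - a = b := by omega
  rw [e1] at h4
  rw [hb] at hv
  have e2 : (b + a) * h = b * h + a * h := by ring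
  have e3 : (a + 1) * h = a * h + h := by ring
  have e4 : b * h + (t + (a + 1) * h - (v + 1)) = t := by omega
  have h5 := hC b (t + (a + 1) * h - (v + 1)) (by omega) (by omega)
  rw [e4] at h5
  exact h5.2 h4

/-- the general facts about the rows `≤ 2 h - 2` -/
structure LW (h v : ℕ) (x : ℕ → ℕ → Bool) : Prop where
  z : ∀ r, 2 ≤ r → r ≤ 2 * h → r % 4 ≠ 1 → x 0 r = true
  e1 : ∀ r, r % 4 ≤ 1 → r + 3 ≤ 2 * h → x (h - 1) r = true
  d1 : ∀ B r, 1 ≤ B → B * h + (h - 1) ≤ v → r + 2 ≤ 2 * h → r % 4 ≠ 3 → x (B * h + (h - 1)) r = true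
  d2 : ∀ B r, 1 ≤ B → B * h + (h - 2) ≤ v → r + 4 ≤ 2 * h → r % 4 = 0 → x (B * h + (h - 2)) r = true

theorem lz {h v : ℕ} {x : ℕ → ℕ → Bool} (hL : LW h v x) (t r : ℕ) (ht : t = 0) (h1 : 2 ≤ r)
    (h2 : r ≤ 2 * h) (h3 : r % 4 ≠ 1) : x t r = true := by
  rw [ht]; exact hL.z r h1 h2 h3

theorem le1 {h v : ℕ} {x : ℕ → ℕ → Bool} (hL : LW h v x) (t r : ℕ) (ht : t + 1 = h) (h1 : r % 4 ≤ 1)
    (h2 : r + 3 ≤ 2 * h) : x t r = true := by
  have e : t = h - 1 := by omega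
  rw [e]; exact hL.e1 r h1 h2

theorem ld1 {h v : ℕ} {x : ℕ → ℕ → Bool} (hL : LW h v x) (B t r : ℕ) (hB : 1 ≤ B) (ht : t + 1 = B * h + h)
    (hh : 1 ≤ h) (hv : t ≤ v) (h1 : r + 2 ≤ 2 * h) (h2 : r % 4 ≠ 3) : x t r = true := by
  have e : t = B * h + (h - 1) := by omega
  rw [e]; exact hL.d1 B r hB (by omega) h1 h2

theorem ld2 {h v : ℕ} {x : ℕ → ℕ → Bool} (hL : LW h v x) (B t r : ℕ) (hB : 1 ≤ B) (ht : t + 2 = B * h + h)
    (hh : 2 ≤ h) (hv : t ≤ v) (h1 : r + 4 ≤ 2 * h) (h2 : r % 4 = 0) : x t r = true := by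
  have e : t = B * h + (h - 2) := by omega
  rw [e]; exact hL.d2 B r hB (by omega) h1 h2

theorem lt1 {k q h v : ℕ} (hP : Par1 k q h v) {x : ℕ → ℕ → Bool} (hL : LW h v x) (a t r : ℕ)
    (ha : a + 1 ≤ 2 * q) (ht : t + a * h = v) (h1 : r + 2 ≤ 2 * h) (h2 : r % 4 ≠ 3) : x t r = true := by
  obtain ⟨hh, -, -, hv, -⟩ := hP.base
  obtain ⟨b, hb⟩ : ∃ b, 2 * q = b + a := ⟨2 * q - a, by omega⟩
  rw [hb] at hv
  have e2 : (b + a) * h = b * h + a * h := by ring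
  have e : t = b * h + (h - 1) := by omega
  rw [e]; exact hL.d1 b r (by omega) (by omega) h1 h2

theorem lt2 {k q h v : ℕ} (hP : Par1 k q h v) {x : ℕ → ℕ → Bool} (hL : LW h v x) (a t r : ℕ)
    (ha : a + 1 ≤ 2 * q) (ht : t + a * h + 1 = v) (h1 : r + 4 ≤ 2 * h) (h2 : r % 4 = 0) :
    x t r = true := by
  obtain ⟨hh, -, -, hv, -⟩ := hP.base
  obtain ⟨b, hb⟩ : ∃ b, 2 * q = b + a := ⟨2 * q - a, by omega⟩
  rw [hb] at hv
  have e2 : (b + a) * h = b * h + a * h := by ring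
  have e : t = b * h + (h - 2) := by omega
  rw [e]; exact hL.d2 b r (by omega) (by omega) h1 h2

end Pool.Agent.U4B
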