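import Pool.Agent.helper13.U4B.ColQ

/-!
# Project U4, extension: all columns
-/

set_option autoImplicit false

namespace Pool.Agent.U4B

open Pool.Agent.UL Pool.Agent.U4

/-- the columns for `q ≥ 2` -/
structure CQ2 (h v : ℕ) (x : ℕ → ℕ → Bool) : Prop where
  m1 : Col h v (fun t => x t (2 * h - 1)) cM1
  f0 : Col h v (fun t => x t (2 * h)) c0
  f1 : Col h v (fun t => x t (2 * h + 1)) c1
  f2 : Col h v (fun t => x t (2 * h + 2)) c2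
  f3 : Col h v (fun t => x t (2 * h + 3)) c3
  f4 : Col h v (fun t => x t (2 * h + 4)) c4
  f5 : Col h v (fun t => x t (2 * h + 5)) c5
  f6 : Col h v (fun t => x t (2 * h + 6)) c6
  f7 : Col h v (fun t => x t (2 * h + 7)) c7x
  f8 : Col h v (fun t => x t (2 * h + 8)) c8x

/-- the columns for `q = 1` -/
structure CQ1 (h v : ℕ) (x : ℕ → ℕ → Bool) : Prop where
  m1 : Col h v (fun t => x t (2 * h - 1)) cM1
  f0 : Col h v (fun t => x t (2 * h)) c0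
  f1 : Col h v (fun t => x t (2 * h + 1)) c1
  f2 : Col h v (fun t => x t (2 * h + 2)) c2
  f3 : Col h v (fun t => x t (2 * h + 3)) c3
  f4 : Col h v (fun t => x t (2 * h + 4)) c4
  f5 : Col h v (fun t => x t (2 * h + 5)) c5q
  f6 : Col h v (fun t => x t (2 * h + 6)) c6q
  f7 : Col h v (fun t => x t (2 * h + 7)) c7x
  f8 : Col h v (fun t => x t (2 * h + 8)) c8q

theorem CQ2_of (h1 : GPW_stmt) (h0 : LB0_stmt) (h0' : LB1_stmt) (h3 : COL_stmt) (k q h v : ℕ) (x : ℕ → ℕ → Bool)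
    (hP : Par1 k q h v) (hk : 4 ≤ k) (hq : 2 ≤ q) (hx : XR v x) : CQ2 h v x := by
  obtain ⟨-, -, a, b, c⟩ := HC1b h1 h0 h0' h3 k q h v x hP hx
  obtain ⟨d, e, f⟩ := HC2b h1 h0 h0' h3 k q h v x hP hx
  obtain ⟨i, j⟩ := HC3b h1 h0 h0' h3 k q h v x hP (by omega) hq hx
  obtain ⟨l, m⟩ := HC8b h1 h0 h0' h3 k q h v x hP hk hq hx
  exact ⟨a, b, c, d, e, f, i, j, l, m⟩

theorem CQ1_of (h1 : GPW_stmt) (h0 : LB0_stmt) (h0' : LB1_stmt) (h3 : COL_stmt) (k q h v : ℕ) (x : ℕ → ℕ → Bool)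
    (hP : Par1 k q h v) (hk : 4 ≤ k) (hq : q = 1) (hx : XR v x) : CQ1 h v x := by
  obtain ⟨-, -, a, b, c⟩ := HC1b h1 h0 h0' h3 k q h v x hP hx
  obtain ⟨d, e, f⟩ := HC2b h1 h0 h0' h3 k q h v x hP hx
  obtain ⟨i, j, l, m⟩ := HCq h1 h0 h0' h3 k q h v x hP hk hq hx
  exact ⟨a, b, c, d, e, f, i, j, l, m⟩

/-- row 2 -/
theorem sm2 {h q v : ℕ} {x : ℕ → ℕ → Bool} (hF : FL h q v x) (t : ℕ) (ht : t ≤ v)
    (h1 : t = 0 ∨ (3 ≤ t ∧ t % 2 = 1)) : x t 2 = true := by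
  rcases h1 with h1 | ⟨h1, h2⟩
  · rw [h1]; exact hF.r20
  · exact hF.r2 t ht h1 h2

theorem Par1.seven {k q h v : ℕ} (hP : Par1 k q h v) (hq : 2 ≤ q) : v + 1 = 5 * h ∨ 7 * h ≤ v + 1 := by
  have hv := hP.hv
  rcases Nat.lt_or_ge q 3 with h3 | h3
  · have h4 : q = 2 := by omega
    subst h4
    omega
  · have h5 : 2 * h * 3 ≤ 2 * h * q := Nat.mul_le_mul_left _ h3
    omega

end Pool.Agent.U4B
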