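import Pool.Agent.helper13.U4B.Low
import Pool.Agent.helper79.U4.HC1
import Pool.Agent.helper96.U4.HC2
import Pool.Agent.helper96.U4.HC3

/-!
# Project U4, extension: the columns `2 h + c`
-/

set_option autoImplicit false

namespace Pool.Agent.U4B

open Pool.Agent.UL Pool.Agent.U4

theorem HC1b (h1 : GPW_stmt) (h0 : LB0_stmt) (h0' : LB1_stmt) (h3 : COL_stmt) : ∀ (k q h v : ℕ) (x : ℕ → ℕ → Bool),
    Par1 k q h v → XR v x →
    Col h v (fun t => x t (2 * h - 3)) (cM3 h) ∧ Col h v (fun t => x t (2 * h - 2)) (cM2 h) ∧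
    Col h v (fun t => x t (2 * h - 1)) cM1 ∧ Col h v (fun t => x t (2 * h)) c0 ∧
    Col h v (fun t => x t (2 * h + 1)) c1 := by
  intro k q h v x hP hX
  obtain ⟨hh4, hm4, hvh, hveq, hk1⟩ := hP.base
  obtain ⟨l1, l2, l3⟩ := LOW1 h1 h0 h0' k q h v x hP hX
  have hG := h1
  obtain ⟨g1, g2, g3, g4, g5, g6, g7⟩ := hG
  have hkk := hP.hk
  have hhk := hP.hh
  -- column -3
  have colM3 : Col h v (fun t => x t (2 * h - 3)) (cM3 h) := by
    intro B d hd hBd
    show x (B * h + d) (2 * h - 3) = true ↔ d + 1 = h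
    rcases Nat.eq_zero_or_pos B with hB | hB
    · subst hB
      rw [Nat.zero_mul, Nat.zero_add] at hBd ⊢
      rcases Nat.eq_zero_or_pos d with hd0 | hd0
      · subst hd0
        rw [l1 _ (by omega)]
        unfold p0
        rw [decide_eq_true_iff]
        omega
      · rw [l2 d hd0 hBd _ (by omega)]
        by_cases hdh : d + 1 = h
        · refine ⟨fun _ => hdh, fun _ => ?_⟩
          have hlog : Nat.log 2 d = k - 1 := by
            rw [Nat.log_eq_iff (Or.inl (by omega))]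
            rw [pow_succ']
            omega
          unfold blk
          rw [hlog, Bool.or_eq_true, Bool.and_eq_true]
          right
          refine ⟨by rw [decide_eq_true_iff]; omega, ?_⟩
          have e1 : d - 2 ^ (k - 1) = 2 ^ (k - 1) - 1 := by omega
          have e2 : 2 * h - 3 + 1 - 2 * 2 ^ (k - 1) = h - 2 := by omega
          rw [e1, e2, g2 (k - 1) (by omega)]
          omega
        · refine ⟨fun hc => ?_, fun hc => absurd hc hdh⟩
          rw [HC1_blk h1 (h := h) hd0 (by omega) (by omega) (by omega)] at hc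
          exact Bool.noConfusion hc
    · have hBh : h ≤ B * h + d := le_trans (Nat.le_mul_of_pos_left h hB) (Nat.le_add_right _ _)
      rw [l3 _ hBh hBd _ (by omega)]
      have hmod : (B * h + d) % h = d := by
        rw [Nat.mul_comm, Nat.mul_add_mod, Nat.mod_eq_of_lt hd]
      rw [hmod]
      constructor
      · intro hc
        have := g4 _ _ hc
        omega
      · intro hc
        have e1 : d = 2 ^ k - 1 := by omega
        rw [e1, g2 k (by omega)]
        omega
  have colM2 : Col h v (fun t => x t (2 * h - 2)) (cM2 h) := by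
    intro B d hd hBd
    show x (B * h + d) (2 * h - 2) = true ↔ (B = 0 ∧ d = 0) ∨ (1 ≤ B ∧ d + 1 = h)
    rcases Nat.eq_zero_or_pos B with hB | hB
    · subst hB
      rw [Nat.zero_mul, Nat.zero_add] at hBd ⊢
      rcases Nat.eq_zero_or_pos d with hd0 | hd0
      · subst hd0
        rw [l1 _ (by omega)]
        unfold p0
        rw [decide_eq_true_iff]
        omega
      · rw [l2 d hd0 hBd _ (by omega), HC1_blk h1 (h := h) hd0 (by omega) (by omega) (by omega)]
        constructor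
        · intro hc
          exact Bool.noConfusion hc
        · intro hc
          omega
    · have hBh : h ≤ B * h + d := le_trans (Nat.le_mul_of_pos_left h hB) (Nat.le_add_right _ _)
      rw [l3 _ hBh hBd _ (by omega)]
      have hmod : (B * h + d) % h = d := by
        rw [Nat.mul_comm, Nat.mul_add_mod, Nat.mod_eq_of_lt hd]
      rw [hmod]
      constructor
      · intro hc
        have := g4 _ _ hc
        omega
      · intro hc
        have e1 : d = 2 ^ k - 1 := by omega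
        rw [e1, g2 k (by omega)]
        omega
  have colM1 : Col h v (fun t => x t (2 * h - 1)) cM1 := by
    refine h3 h v (fun t => x t (2 * h - 3)) (fun t => x t (2 * h - 2)) (fun t => x t (2 * h - 1)) (cM3 h) (cM2 h) cM1
      (by omega) colM3 colM2 ?_ ?_ ?_ ?_
    · intro t ht
      have e := hX.s2 t ht (2 * h - 3)
      have e1 : 2 * h - 3 + 2 = 2 * h - 1 := by omega
      have e2 : 2 * h - 3 + 1 = 2 * h - 2 := by omega
      rw [e1, e2] at e
      exact e
    · show x 0 (2 * h - 1) = true ↔ cM1 0 0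
      rw [l1 _ (by omega)]
      unfold p0 cM1
      rw [decide_eq_true_iff]
      omega
    · intro B d hd
      unfold cM1 E1 cM2 cM3
      omega
    · intro B
      unfold cM1 E1 cM2 cM3
      omega
  have col0 : Col h v (fun t => x t (2 * h)) c0 := by
    refine h3 h v (fun t => x t (2 * h - 2)) (fun t => x t (2 * h - 1)) (fun t => x t (2 * h)) (cM2 h) cM1 c0
      (by omega) colM2 colM1 ?_ ?_ ?_ ?_
    · intro t ht
      have e := hX.s2 t ht (2 * h - 2)
      have e1 : 2 * h - 2 + 2 = 2 * h := by omega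
      have e2 : 2 * h - 2 + 1 = 2 * h - 1 := by omega
      rw [e1, e2] at e
      exact e
    · show x 0 (2 * h) = true ↔ c0 0 0
      rw [l1 _ (by omega)]
      unfold p0 c0
      rw [decide_eq_true_iff]
      omega
    · intro B d hd
      unfold c0 E1 cM2 cM1
      omega
    · intro B
      unfold c0 E1 cM2 cM1
      omega
  have col1 : Col h v (fun t => x t (2 * h + 1)) c1 := by
    refine h3 h v (fun t => x t (2 * h - 1)) (fun t => x t (2 * h)) (fun t => x t (2 * h + 1)) cM1 c0 c1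
      (by omega) colM1 col0 ?_ ?_ ?_ ?_
    · intro t ht
      have e := hX.s2 t ht (2 * h - 1)
      have e1 : 2 * h - 1 + 2 = 2 * h + 1 := by omega
      have e2 : 2 * h - 1 + 1 = 2 * h := by omega
      rw [e1, e2] at e
      exact e
    · show x 0 (2 * h + 1) = true ↔ c1 0 0
      have e := hX.w (2 * h - 1)
      have e1 : 2 * h - 1 + 2 = 2 * h + 1 := by omega
      rw [e1] at e
      rw [← e]
      have hq := hP.hq
      have h6 := colM1 (2 * q) (h - 1) (by omega) (by omega)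
      have h7 : (fun t => x t (2 * h - 1)) (2 * q * h + (h - 1)) = x v (2 * h - 1) := by
        show x (2 * q * h + (h - 1)) (2 * h - 1) = x v (2 * h - 1)
        rw [← hveq]
      rw [h7] at h6
      rw [h6]
      unfold cM1 c1
      omega
    · intro B d hd
      unfold c1 E1 c0 cM1
      omega
    · intro B
      unfold c1 E1 c0 cM1
      omega
  exact ⟨colM3, colM2, colM1, col0, col1⟩


theorem HC2b (h1 : GPW_stmt) (h0 : LB0_stmt) (h0' : LB1_stmt) (h3 : COL_stmt) : ∀ (k q h v : ℕ) (x : ℕ → ℕ → Bool),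
    Par1 k q h v → XR v x →
    Col h v (fun t => x t (2 * h + 2)) c2 ∧ Col h v (fun t => x t (2 * h + 3)) c3 ∧
    Col h v (fun t => x t (2 * h + 4)) c4 := by
  intro k q h v x hP hx
  obtain ⟨h4', h4, -, -, -⟩ := hP.base
  obtain ⟨-, -, -, k0, k1⟩ := HC1b h1 h0 h0' h3 k q h v x hP hx
  have hq := hP.hq
  have k2 : Col h v (fun t => x t (2 * h + 2)) c2 := by
    refine h3 h v (fun t => x t (2 * h)) (fun t => x t (2 * h + 1))
      (fun t => x t (2 * h + 2))
      c0 c1 c2 (by omega) k0 k1 (fun t ht => hx.s2 t ht (2 * h)) ?_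
      (fun B d _ => HC2_step2 B d) (fun B => HC2_up2 h B h4 h4')
    have e := hP.last _ _ k0
    have e2 : x 0 (2 * h + 2) = x v (2 * h) := (hx.w (2 * h)).symm
    show x 0 (2 * h + 2) = true ↔ c2 0 0
    rw [e2]
    rw [show (x v (2 * h) = true ↔ c0 (2 * q) (h - 1)) from e]
    unfold c0 c2
    omega
  have k3 : Col h v (fun t => x t (2 * h + 3)) c3 := by
    refine h3 h v (fun t => x t (2 * h + 1)) (fun t => x t (2 * h + 2))
      (fun t => x t (2 * h + 3))
      c1 c2 c3 (by omega) k1 k2 (fun t ht => hx.s2 t ht (2 * h + 1)) ?_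
      (fun B d _ => HC2_step3 B d) (fun B => HC2_up3 h B h4 h4')
    have e := hP.last _ _ k1
    have e2 : x 0 (2 * h + 3) = x v (2 * h + 1) := (hx.w (2 * h + 1)).symm
    show x 0 (2 * h + 3) = true ↔ c3 0 0
    rw [e2]
    rw [show (x v (2 * h + 1) = true ↔ c1 (2 * q) (h - 1)) from e]
    unfold c1 c3
    omega
  have k4 : Col h v (fun t => x t (2 * h + 4)) c4 := by
    refine h3 h v (fun t => x t (2 * h + 2)) (fun t => x t (2 * h + 3))
      (fun t => x t (2 * h + 4))
      c2 c3 c4 (by omega) k2 k3 (fun t ht => hx.s2 t ht (2 * h + 2)) ?_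
      (fun B d _ => HC2_step4 B d) (fun B => HC2_up4 h B h4 h4')
    have e := hP.last _ _ k2
    have e2 : x 0 (2 * h + 4) = x v (2 * h + 2) := (hx.w (2 * h + 2)).symm
    show x 0 (2 * h + 4) = true ↔ c4 0 0
    rw [e2]
    rw [show (x v (2 * h + 2) = true ↔ c2 (2 * q) (h - 1)) from e]
    unfold c2 c4
    omega
  exact ⟨k2, k3, k4⟩

theorem HC3b (h1 : GPW_stmt) (h0 : LB0_stmt) (h0' : LB1_stmt) (h3 : COL_stmt) : ∀ (k q h v : ℕ) (x : ℕ → ℕ → Bool),
    Par1 k q h v → 3 ≤ k → 2 ≤ q → XR v x →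
    Col h v (fun t => x t (2 * h + 5)) c5 ∧ Col h v (fun t => x t (2 * h + 6)) c6 := by
  intro k q h v x hP hk hq hx
  obtain ⟨h4, h4'⟩ := hP.h8 hk
  obtain ⟨-, k3, k4⟩ := HC2b h1 h0 h0' h3 k q h v x hP hx
  have k5 : Col h v (fun t => x t (2 * h + 5)) c5 := by
    refine h3 h v (fun t => x t (2 * h + 3)) (fun t => x t (2 * h + 4))
      (fun t => x t (2 * h + 5))
      c3 c4 c5 (by omega) k3 k4 (fun t ht => hx.s2 t ht (2 * h + 3)) ?_
      (fun B d _ => HC3_step5 B d) (fun B => HC3_up5 h B h4 h4')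
    have e := hP.last _ _ k3
    have e2 : x 0 (2 * h + 5) = x v (2 * h + 3) := (hx.w (2 * h + 3)).symm
    show x 0 (2 * h + 5) = true ↔ c5 0 0
    rw [e2]
    rw [show (x v (2 * h + 3) = true ↔ c3 (2 * q) (h - 1)) from e]
    unfold c3 c5
    omega
  have k6 : Col h v (fun t => x t (2 * h + 6)) c6 := by
    refine h3 h v (fun t => x t (2 * h + 4)) (fun t => x t (2 * h + 5))
      (fun t => x t (2 * h + 6))
      c4 c5 c6 (by omega) k4 k5 (fun t ht => hx.s2 t ht (2 * h + 4)) ?_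
      (fun B d _ => HC3_step6 B d) (fun B => HC3_up6 h B h4 h4')
    have e := hP.last _ _ k4
    have e2 : x 0 (2 * h + 6) = x v (2 * h + 4) := (hx.w (2 * h + 4)).symm
    show x 0 (2 * h + 6) = true ↔ c6 0 0
    rw [e2]
    rw [show (x v (2 * h + 4) = true ↔ c4 (2 * q) (h - 1)) from e]
    unfold c4 c6
    omega
  exact ⟨k5, k6⟩

/-! ## The columns 7, 8 -/

def c7x (B d : ℕ) : Prop := (B = 0 ∧ 1 ≤ d ∧ d % 4 ≠ 2) ∨
  (B = 1 ∧ (d = 0 ∨ d = 1 ∨ d = 3 ∨ d = 6 ∨ (11 ≤ d ∧ (d % 4 = 0 ∨ d % 4 = 3)))) ∨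
  (B = 2 ∧ (d % 4 = 0 ∨ d % 4 = 3)) ∨ (B = 3 ∧ (d = 0 ∨ d = 3 ∨ d = 5 ∨ d = 6 ∨ (8 ≤ d ∧ d % 4 = 0))) ∨
  (4 ≤ B ∧ B % 2 = 0 ∧ d = 0) ∨ (5 ≤ B ∧ B % 2 = 1 ∧ 4 ≤ d ∧ d % 4 = 0)

def c8x (B d : ℕ) : Prop := (B = 0 ∧ d % 2 = 1) ∨
  (B = 1 ∧ (d = 1 ∨ d = 3 ∨ d = 6 ∨ d = 9 ∨ d = 10 ∨ d = 11 ∨ (16 ≤ d ∧ d % 4 = 0))) ∨
  (B = 2 ∧ d % 4 = 0) ∨ (B = 3 ∧ (d = 0 ∨ d = 6 ∨ (11 ≤ d ∧ (d % 4 = 0 ∨ d % 4 = 3)))) ∨
  (4 ≤ B ∧ (d % 4 = 0 ∨ d % 4 = 3))

def c5q (B d : ℕ) : Prop := (B = 0 ∧ d ≤ 2) ∨ (1 ≤ B ∧ c5 B d)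
def c6q (B d : ℕ) : Prop := (B = 0 ∧ (d = 1 ∨ (5 ≤ d ∧ (d % 4 = 1 ∨ d % 4 = 2)))) ∨ (1 ≤ B ∧ c6 B d)
def c8q (B d : ℕ) : Prop := (B = 0 ∧ (d = 4 ∨ (7 ≤ d ∧ d % 2 = 1))) ∨ (1 ≤ B ∧ c8x B d)

lemma step7 (B d : ℕ) : c7x B (d + 1) ↔ E1 (c7x B d) (c6 B d) (c5 B d) := by
  obtain ⟨e, r, hr, rfl⟩ : ∃ e r, r < 4 ∧ d = 4 * e + r :=
    ⟨d / 4, d % 4, Nat.mod_lt _ (by norm_num), by omega⟩
  obtain ⟨b, s, hs, rfl⟩ : ∃ b s, s < 2 ∧ B = 2 * b + s :=
    ⟨B / 2, B % 2, Nat.mod_lt _ (by norm_num), by omega⟩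
  unfold c7x c6 c5
  interval_cases r <;> interval_cases s <;> rcases b with _ | _ | b <;> rcases e with _ | _ | _ | e <;>
  first
    | exact HC3_fff (by omega) (by omega) (by omega) (by omega)
    | exact HC3_fft (by omega) (by omega) (by omega) (by omega)
    | exact HC3_ftf (by omega) (by omega) (by omega) (by omega)
    | exact HC3_ftt (by omega) (by omega) (by omega) (by omega)
    | exact HC3_tff (by omega) (by omega) (by omega) (by omega)
    | exact HC3_tft (by omega) (by omega) (by omega) (by omega)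
    | exact HC3_ttf (by omega) (by omega) (by omega) (by omega)
    | exact HC3_ttt (by omega) (by omega) (by omega) (by omega)

lemma up7 (h B : ℕ) (h4 : h % 16 = 0) (h4' : 16 ≤ h) :
    c7x (B + 1) 0 ↔ E1 (c7x B (h - 1)) (c6 B (h - 1)) (c5 B (h - 1)) := by
  obtain ⟨b, s, hs, rfl⟩ : ∃ b s, s < 2 ∧ B = 2 * b + s :=
    ⟨B / 2, B % 2, Nat.mod_lt _ (by norm_num), by omega⟩
  unfold c7x c6 c5
  interval_cases s <;> rcases b with _ | _ | b <;>
  first
    | exact HC3_fff (by omega) (by omega) (by omega) (by omega)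
    | exact HC3_fft (by omega) (by omega) (by omega) (by omega)
    | exact HC3_ftf (by omega) (by omega) (by omega) (by omega)
    | exact HC3_ftt (by omega) (by omega) (by omega) (by omega)
    | exact HC3_tff (by omega) (by omega) (by omega) (by omega)
    | exact HC3_tft (by omega) (by omega) (by omega) (by omega)
    | exact HC3_ttf (by omega) (by omega) (by omega) (by omega)
    | exact HC3_ttt (by omega) (by omega) (by omega) (by omega)

lemma step8 (B d : ℕ) : c8x B (d + 1) ↔ E1 (c8x B d) (c7x B d) (c6 B d) := by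
  obtain ⟨e, r, hr, rfl⟩ : ∃ e r, r < 4 ∧ d = 4 * e + r :=
    ⟨d / 4, d % 4, Nat.mod_lt _ (by norm_num), by omega⟩
  obtain ⟨b, s, hs, rfl⟩ : ∃ b s, s < 2 ∧ B = 2 * b + s :=
    ⟨B / 2, B % 2, Nat.mod_lt _ (by norm_num), by omega⟩
  unfold c8x c7x c6
  interval_cases r <;> interval_cases s <;> rcases b with _ | _ | b <;> rcases e with _ | _ | _ | _ | e <;>
  first
    | exact HC3_fff (by omega) (by omega) (by omega) (by omega)
    | exact HC3_fft (by omega) (by omega) (by omega) (by omega)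
    | exact HC3_ftf (by omega) (by omega) (by omega) (by omega)
    | exact HC3_ftt (by omega) (by omega) (by omega) (by omega)
    | exact HC3_tff (by omega) (by omega) (by omega) (by omega)
    | exact HC3_tft (by omega) (by omega) (by omega) (by omega)
    | exact HC3_ttf (by omega) (by omega) (by omega) (by omega)
    | exact HC3_ttt (by omega) (by omega) (by omega) (by omega)

lemma up8 (h B : ℕ) (h4 : h % 16 = 0) (h4' : 16 ≤ h) :
    c8x (B + 1) 0 ↔ E1 (c8x B (h - 1)) (c7x B (h - 1)) (c6 B (h - 1)) := by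
  obtain ⟨b, s, hs, rfl⟩ : ∃ b s, s < 2 ∧ B = 2 * b + s :=
    ⟨B / 2, B % 2, Nat.mod_lt _ (by norm_num), by omega⟩
  unfold c8x c7x c6
  interval_cases s <;> rcases b with _ | _ | b <;>
  first
    | exact HC3_fff (by omega) (by omega) (by omega) (by omega)
    | exact HC3_fft (by omega) (by omega) (by omega) (by omega)
    | exact HC3_ftf (by omega) (by omega) (by omega) (by omega)
    | exact HC3_ftt (by omega) (by omega) (by omega) (by omega)
    | exact HC3_tff (by omega) (by omega) (by omega) (by omega)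
    | exact HC3_tft (by omega) (by omega) (by omega) (by omega)
    | exact HC3_ttf (by omega) (by omega) (by omega) (by omega)
    | exact HC3_ttt (by omega) (by omega) (by omega) (by omega)

theorem HC8b (h1 : GPW_stmt) (h0 : LB0_stmt) (h0' : LB1_stmt) (h3 : COL_stmt) : ∀ (k q h v : ℕ) (x : ℕ → ℕ → Bool),
    Par1 k q h v → 4 ≤ k → 2 ≤ q → XR v x →
    Col h v (fun t => x t (2 * h + 7)) c7x ∧ Col h v (fun t => x t (2 * h + 8)) c8x := by
  intro k q h v x hP hk hq hx
  obtain ⟨h4, h4'⟩ := hP.h16 hk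
  obtain ⟨k5, k6⟩ := HC3b h1 h0 h0' h3 k q h v x hP (by omega) hq hx
  have k7 : Col h v (fun t => x t (2 * h + 7)) c7x := by
    refine h3 h v (fun t => x t (2 * h + 5)) (fun t => x t (2 * h + 6))
      (fun t => x t (2 * h + 7))
      c5 c6 c7x (by omega) k5 k6 (fun t ht => hx.s2 t ht (2 * h + 5)) ?_
      (fun B d _ => step7 B d) (fun B => up7 h B h4 h4')
    have e := hP.last _ _ k5
    have e2 : x 0 (2 * h + 7) = x v (2 * h + 5) := (hx.w (2 * h + 5)).symm
    show x 0 (2 * h + 7) = true ↔ c7x 0 0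
    rw [e2]
    rw [show (x v (2 * h + 5) = true ↔ c5 (2 * q) (h - 1)) from e]
    unfold c5 c7x
    omega
  have k8 : Col h v (fun t => x t (2 * h + 8)) c8x := by
    refine h3 h v (fun t => x t (2 * h + 6)) (fun t => x t (2 * h + 7))
      (fun t => x t (2 * h + 8))
      c6 c7x c8x (by omega) k6 k7 (fun t ht => hx.s2 t ht (2 * h + 6)) ?_
      (fun B d _ => step8 B d) (fun B => up8 h B h4 h4')
    have e := hP.last _ _ k6
    have e2 : x 0 (2 * h + 8) = x v (2 * h + 6) := (hx.w (2 * h + 6)).symm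
    show x 0 (2 * h + 8) = true ↔ c8x 0 0
    rw [e2]
    rw [show (x v (2 * h + 6) = true ↔ c6 (2 * q) (h - 1)) from e]
    unfold c6 c8x
    omega
  exact ⟨k7, k8⟩

end Pool.Agent.U4B
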