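import Pool.Agent.helper13.U4B.Col

/-!
# Project U4, extension: the columns `2 h + c`, `q = 1`
-/

set_option autoImplicit false

namespace Pool.Agent.U4B

open Pool.Agent.UL Pool.Agent.U4

lemma q_iff {P Q : Prop} (B : ℕ) (h : 1 ≤ B) : (B = 0 ∧ P) ∨ (1 ≤ B ∧ Q) ↔ Q := by
  constructor
  · rintro (h1 | h1)
    · omega
    · exact h1.2
  · intro h1
    exact Or.inr ⟨h, h1⟩

lemma q_zero {P Q : Prop} (B : ℕ) (h : B = 0) : (B = 0 ∧ P) ∨ (1 ≤ B ∧ Q) ↔ P := by
  constructor
  · rintro (h1 | h1)
    · exact h1.2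
    · omega
  · intro h1
    exact Or.inl ⟨h, h1⟩

lemma E1_congr {a b c a' b' c' : Prop} (h1 : a ↔ a') (h2 : b ↔ b') (h3 : c ↔ c') : E1 a b c ↔ E1 a' b' c' := by
  rw [h1, h2, h3]

lemma qstep5 (B d : ℕ) : c5q B (d + 1) ↔ E1 (c5q B d) (c4 B d) (c3 B d) := by
  rcases Nat.eq_zero_or_pos B with hB | hB
  · subst hB
    obtain ⟨e, r, hr, rfl⟩ : ∃ e r, r < 4 ∧ d = 4 * e + r :=
      ⟨d / 4, d % 4, Nat.mod_lt _ (by norm_num), by omega⟩
    unfold c5q c4 c3
    interval_cases r <;> rcases e with _ | _ | _ | e <;>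
  first
    | exact HC3_fff (by omega) (by omega) (by omega) (by omega)
    | exact HC3_fft (by omega) (by omega) (by omega) (by omega)
    | exact HC3_ftf (by omega) (by omega) (by omega) (by omega)
    | exact HC3_ftt (by omega) (by omega) (by omega) (by omega)
    | exact HC3_tff (by omega) (by omega) (by omega) (by omega)
    | exact HC3_tft (by omega) (by omega) (by omega) (by omega)
    | exact HC3_ttf (by omega) (by omega) (by omega) (by omega)
    | exact HC3_ttt (by omega) (by omega) (by omega) (by omega)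
  · have h1 := HC3_step5 B d
    have e1 : c5q B (d + 1) ↔ c5 B (d + 1) := q_iff B hB
    have e2 : c5q B d ↔ c5 B d := q_iff B hB
    have e3 : c4 B d ↔ c4 B d := Iff.rfl
    have e4 : c3 B d ↔ c3 B d := Iff.rfl
    rw [e1, h1]
    exact (E1_congr e2 e3 e4).symm

lemma qup5 (h B : ℕ) (h4 : h % 16 = 0) (h4' : 16 ≤ h) :
    c5q (B + 1) 0 ↔ E1 (c5q B (h - 1)) (c4 B (h - 1)) (c3 B (h - 1)) := by
  rcases Nat.eq_zero_or_pos B with hB | hB
  · subst hB
    unfold c5q c5 c4 c3
    first
      | exact HC3_fff (by omega) (by omega) (by omega) (by omega)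
      | exact HC3_fft (by omega) (by omega) (by omega) (by omega)
      | exact HC3_ftf (by omega) (by omega) (by omega) (by omega)
      | exact HC3_ftt (by omega) (by omega) (by omega) (by omega)
      | exact HC3_tff (by omega) (by omega) (by omega) (by omega)
      | exact HC3_tft (by omega) (by omega) (by omega) (by omega)
      | exact HC3_ttf (by omega) (by omega) (by omega) (by omega)
      | exact HC3_ttt (by omega) (by omega) (by omega) (by omega)
  · have h1 := HC3_up5 h B (by omega) (by omega)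
    have e1 : c5q (B + 1) 0 ↔ c5 (B + 1) 0 := q_iff (B + 1) (by omega)
    have e2 : c5q B (h - 1) ↔ c5 B (h - 1) := q_iff B hB
    have e3 : c4 B (h - 1) ↔ c4 B (h - 1) := Iff.rfl
    have e4 : c3 B (h - 1) ↔ c3 B (h - 1) := Iff.rfl
    rw [e1, h1]
    exact (E1_congr e2 e3 e4).symm

lemma qstep6 (B d : ℕ) : c6q B (d + 1) ↔ E1 (c6q B d) (c5q B d) (c4 B d) := by
  rcases Nat.eq_zero_or_pos B with hB | hB
  · subst hB
    obtain ⟨e, r, hr, rfl⟩ : ∃ e r, r < 4 ∧ d = 4 * e + r :=
      ⟨d / 4, d % 4, Nat.mod_lt _ (by norm_num), by omega⟩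
    unfold c6q c5q c4
    interval_cases r <;> rcases e with _ | _ | _ | e <;>
  first
    | exact HC3_fff (by omega) (by omega) (by omega) (by omega)
    | exact HC3_fft (by omega) (by omega) (by omega) (by omega)
    | exact HC3_ftf (by omega) (by omega) (by omega) (by omega)
    | exact HC3_ftt (by omega) (by omega) (by omega) (by omega)
    | exact HC3_tff (by omega) (by omega) (by omega) (by omega)
    | exact HC3_tft (by omega) (by omega) (by omega) (by omega)
    | exact HC3_ttf (by omega) (by omega) (by omega) (by omega)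
    | exact HC3_ttt (by omega) (by omega) (by omega) (by omega)
  · have h1 := HC3_step6 B d
    have e1 : c6q B (d + 1) ↔ c6 B (d + 1) := q_iff B hB
    have e2 : c6q B d ↔ c6 B d := q_iff B hB
    have e3 : c5q B d ↔ c5 B d := q_iff B hB
    have e4 : c4 B d ↔ c4 B d := Iff.rfl
    rw [e1, h1]
    exact (E1_congr e2 e3 e4).symm

lemma qup6 (h B : ℕ) (h4 : h % 16 = 0) (h4' : 16 ≤ h) :
    c6q (B + 1) 0 ↔ E1 (c6q B (h - 1)) (c5q B (h - 1)) (c4 B (h - 1)) := by
  rcases Nat.eq_zero_or_pos B with hB | hB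
  · subst hB
    unfold c6q c6 c5q c4
    first
      | exact HC3_fff (by omega) (by omega) (by omega) (by omega)
      | exact HC3_fft (by omega) (by omega) (by omega) (by omega)
      | exact HC3_ftf (by omega) (by omega) (by omega) (by omega)
      | exact HC3_ftt (by omega) (by omega) (by omega) (by omega)
      | exact HC3_tff (by omega) (by omega) (by omega) (by omega)
      | exact HC3_tft (by omega) (by omega) (by omega) (by omega)
      | exact HC3_ttf (by omega) (by omega) (by omega) (by omega)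
      | exact HC3_ttt (by omega) (by omega) (by omega) (by omega)
  · have h1 := HC3_up6 h B (by omega) (by omega)
    have e1 : c6q (B + 1) 0 ↔ c6 (B + 1) 0 := q_iff (B + 1) (by omega)
    have e2 : c6q B (h - 1) ↔ c6 B (h - 1) := q_iff B hB
    have e3 : c5q B (h - 1) ↔ c5 B (h - 1) := q_iff B hB
    have e4 : c4 B (h - 1) ↔ c4 B (h - 1) := Iff.rfl
    rw [e1, h1]
    exact (E1_congr e2 e3 e4).symm

lemma qstep7 (B d : ℕ) : c7x B (d + 1) ↔ E1 (c7x B d) (c6q B d) (c5q B d) := by
  rcases Nat.eq_zero_or_pos B with hB | hB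
  · subst hB
    obtain ⟨e, r, hr, rfl⟩ : ∃ e r, r < 4 ∧ d = 4 * e + r :=
      ⟨d / 4, d % 4, Nat.mod_lt _ (by norm_num), by omega⟩
    unfold c7x c6q c5q
    interval_cases r <;> rcases e with _ | _ | _ | e <;>
  first
    | exact HC3_fff (by omega) (by omega) (by omega) (by omega)
    | exact HC3_fft (by omega) (by omega) (by omega) (by omega)
    | exact HC3_ftf (by omega) (by omega) (by omega) (by omega)
    | exact HC3_ftt (by omega) (by omega) (by omega) (by omega)
    | exact HC3_tff (by omega) (by omega) (by omega) (by omega)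
    | exact HC3_tft (by omega) (by omega) (by omega) (by omega)
    | exact HC3_ttf (by omega) (by omega) (by omega) (by omega)
    | exact HC3_ttt (by omega) (by omega) (by omega) (by omega)
  · have h1 := step7 B d
    have e1 : c7x B (d + 1) ↔ c7x B (d + 1) := Iff.rfl
    have e2 : c7x B d ↔ c7x B d := Iff.rfl
    have e3 : c6q B d ↔ c6 B d := q_iff B hB
    have e4 : c5q B d ↔ c5 B d := q_iff B hB
    rw [e1, h1]
    exact (E1_congr e2 e3 e4).symm

lemma qup7 (h B : ℕ) (h4 : h % 16 = 0) (h4' : 16 ≤ h) :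
    c7x (B + 1) 0 ↔ E1 (c7x B (h - 1)) (c6q B (h - 1)) (c5q B (h - 1)) := by
  rcases Nat.eq_zero_or_pos B with hB | hB
  · subst hB
    unfold c7x c6q c5q
    first
      | exact HC3_fff (by omega) (by omega) (by omega) (by omega)
      | exact HC3_fft (by omega) (by omega) (by omega) (by omega)
      | exact HC3_ftf (by omega) (by omega) (by omega) (by omega)
      | exact HC3_ftt (by omega) (by omega) (by omega) (by omega)
      | exact HC3_tff (by omega) (by omega) (by omega) (by omega)
      | exact HC3_tft (by omega) (by omega) (by omega) (by omega)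
      | exact HC3_ttf (by omega) (by omega) (by omega) (by omega)
      | exact HC3_ttt (by omega) (by omega) (by omega) (by omega)
  · have h1 := up7 h B h4 h4'
    have e1 : c7x (B + 1) 0 ↔ c7x (B + 1) 0 := Iff.rfl
    have e2 : c7x B (h - 1) ↔ c7x B (h - 1) := Iff.rfl
    have e3 : c6q B (h - 1) ↔ c6 B (h - 1) := q_iff B hB
    have e4 : c5q B (h - 1) ↔ c5 B (h - 1) := q_iff B hB
    rw [e1, h1]
    exact (E1_congr e2 e3 e4).symm

lemma qstep8 (B d : ℕ) : c8q B (d + 1) ↔ E1 (c8q B d) (c7x B d) (c6q B d) := by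
  rcases Nat.eq_zero_or_pos B with hB | hB
  · subst hB
    obtain ⟨e, r, hr, rfl⟩ : ∃ e r, r < 4 ∧ d = 4 * e + r :=
      ⟨d / 4, d % 4, Nat.mod_lt _ (by norm_num), by omega⟩
    unfold c8q c7x c6q
    interval_cases r <;> rcases e with _ | _ | _ | e <;>
  first
    | exact HC3_fff (by omega) (by omega) (by omega) (by omega)
    | exact HC3_fft (by omega) (by omega) (by omega) (by omega)
    | exact HC3_ftf (by omega) (by omega) (by omega) (by omega)
    | exact HC3_ftt (by omega) (by omega) (by omega) (by omega)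
    | exact HC3_tff (by omega) (by omega) (by omega) (by omega)
    | exact HC3_tft (by omega) (by omega) (by omega) (by omega)
    | exact HC3_ttf (by omega) (by omega) (by omega) (by omega)
    | exact HC3_ttt (by omega) (by omega) (by omega) (by omega)
  · have h1 := step8 B d
    have e1 : c8q B (d + 1) ↔ c8x B (d + 1) := q_iff B hB
    have e2 : c8q B d ↔ c8x B d := q_iff B hB
    have e3 : c7x B d ↔ c7x B d := Iff.rfl
    have e4 : c6q B d ↔ c6 B d := q_iff B hB
    rw [e1, h1]
    exact (E1_congr e2 e3 e4).symm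

lemma qup8 (h B : ℕ) (h4 : h % 16 = 0) (h4' : 16 ≤ h) :
    c8q (B + 1) 0 ↔ E1 (c8q B (h - 1)) (c7x B (h - 1)) (c6q B (h - 1)) := by
  rcases Nat.eq_zero_or_pos B with hB | hB
  · subst hB
    unfold c8q c8x c7x c6q
    first
      | exact HC3_fff (by omega) (by omega) (by omega) (by omega)
      | exact HC3_fft (by omega) (by omega) (by omega) (by omega)
      | exact HC3_ftf (by omega) (by omega) (by omega) (by omega)
      | exact HC3_ftt (by omega) (by omega) (by omega) (by omega)
      | exact HC3_tff (by omega) (by omega) (by omega) (by omega)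
      | exact HC3_tft (by omega) (by omega) (by omega) (by omega)
      | exact HC3_ttf (by omega) (by omega) (by omega) (by omega)
      | exact HC3_ttt (by omega) (by omega) (by omega) (by omega)
  · have h1 := up8 h B h4 h4'
    have e1 : c8q (B + 1) 0 ↔ c8x (B + 1) 0 := q_iff (B + 1) (by omega)
    have e2 : c8q B (h - 1) ↔ c8x B (h - 1) := q_iff B hB
    have e3 : c7x B (h - 1) ↔ c7x B (h - 1) := Iff.rfl
    have e4 : c6q B (h - 1) ↔ c6 B (h - 1) := q_iff B hB
    rw [e1, h1]
    exact (E1_congr e2 e3 e4).symm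

theorem HCq (h1 : GPW_stmt) (h0 : LB0_stmt) (h0' : LB1_stmt) (h3 : COL_stmt) : ∀ (k q h v : ℕ) (x : ℕ → ℕ → Bool),
    Par1 k q h v → 4 ≤ k → q = 1 → XR v x →
    Col h v (fun t => x t (2 * h + 5)) c5q ∧ Col h v (fun t => x t (2 * h + 6)) c6q ∧
    Col h v (fun t => x t (2 * h + 7)) c7x ∧ Col h v (fun t => x t (2 * h + 8)) c8q := by
  intro k q h v x hP hk hq hx
  obtain ⟨h4, h4'⟩ := hP.h16 hk
  obtain ⟨-, k3, k4⟩ := HC2b h1 h0 h0' h3 k q h v x hP hx
  have k5 : Col h v (fun t => x t (2 * h + 5)) c5q := by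
    refine h3 h v (fun t => x t (2 * h + 3)) (fun t => x t (2 * h + 4))
      (fun t => x t (2 * h + 5))
      c3 c4 c5q (by omega) k3 k4 (fun t ht => hx.s2 t ht (2 * h + 3)) ?_
      (fun B d _ => qstep5 B d) (fun B => qup5 h B h4 h4')
    have e := hP.last _ _ k3
    have e2 : x 0 (2 * h + 5) = x v (2 * h + 3) := (hx.w (2 * h + 3)).symm
    show x 0 (2 * h + 5) = true ↔ c5q 0 0
    rw [e2]
    rw [show (x v (2 * h + 3) = true ↔ c3 (2 * q) (h - 1)) from e]
    subst hq
    unfold c3 c5q
    first | omega | (unfold c5; omega) | (unfold c6; omega) | (unfold c8x; omega)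
  have k6 : Col h v (fun t => x t (2 * h + 6)) c6q := by
    refine h3 h v (fun t => x t (2 * h + 4)) (fun t => x t (2 * h + 5))
      (fun t => x t (2 * h + 6))
      c4 c5q c6q (by omega) k4 k5 (fun t ht => hx.s2 t ht (2 * h + 4)) ?_
      (fun B d _ => qstep6 B d) (fun B => qup6 h B h4 h4')
    have e := hP.last _ _ k4
    have e2 : x 0 (2 * h + 6) = x v (2 * h + 4) := (hx.w (2 * h + 4)).symm
    show x 0 (2 * h + 6) = true ↔ c6q 0 0
    rw [e2]
    rw [show (x v (2 * h + 4) = true ↔ c4 (2 * q) (h - 1)) from e]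
    subst hq
    unfold c4 c6q
    first | omega | (unfold c5; omega) | (unfold c6; omega) | (unfold c8x; omega)
  have k7 : Col h v (fun t => x t (2 * h + 7)) c7x := by
    refine h3 h v (fun t => x t (2 * h + 5)) (fun t => x t (2 * h + 6))
      (fun t => x t (2 * h + 7))
      c5q c6q c7x (by omega) k5 k6 (fun t ht => hx.s2 t ht (2 * h + 5)) ?_
      (fun B d _ => qstep7 B d) (fun B => qup7 h B h4 h4')
    have e := hP.last _ _ k5
    have e2 : x 0 (2 * h + 7) = x v (2 * h + 5) := (hx.w (2 * h + 5)).symm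
    show x 0 (2 * h + 7) = true ↔ c7x 0 0
    rw [e2]
    rw [show (x v (2 * h + 5) = true ↔ c5q (2 * q) (h - 1)) from e]
    subst hq
    unfold c5q c7x
    first | omega | (unfold c5; omega) | (unfold c6; omega) | (unfold c8x; omega)
  have k8 : Col h v (fun t => x t (2 * h + 8)) c8q := by
    refine h3 h v (fun t => x t (2 * h + 6)) (fun t => x t (2 * h + 7))
      (fun t => x t (2 * h + 8))
      c6q c7x c8q (by omega) k6 k7 (fun t ht => hx.s2 t ht (2 * h + 6)) ?_
      (fun B d _ => qstep8 B d) (fun B => qup8 h B h4 h4')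
    have e := hP.last _ _ k6
    have e2 : x 0 (2 * h + 8) = x v (2 * h + 6) := (hx.w (2 * h + 6)).symm
    show x 0 (2 * h + 8) = true ↔ c8q 0 0
    rw [e2]
    rw [show (x v (2 * h + 6) = true ↔ c6q (2 * q) (h - 1)) from e]
    subst hq
    unfold c6q c8q
    first | omega | (unfold c5; omega) | (unfold c6; omega) | (unfold c8x; omega)
  exact ⟨k5, k6, k7, k8⟩

end Pool.Agent.U4B
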