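import Pool.Agent.helper13.U4B.All
import Pool.Agent.helper13.U4B.NumData
import Pool.Agent.helper13.U4.Asm

/-!
# Project U4, extension: assembly for all odd `m ≥ 3`
-/

set_option autoImplicit false

namespace Pool.Agent.U4B

open Pool.Agent.UL Pool.Agent.U4

theorem TWO_big (k q h v : ℕ) (F : ℤ → Bool) (hP : Par1 k q h v) (hq : 7 ≤ q) (hF : IsF v F)
    (s : ℕ) (s0 : s ≠ 0) (s2 : s ≠ 2) (s4 : s ≠ 4) (sv : s ≠ v) (sv2 : s ≠ v + 2) (sv4 : s ≠ v + 4)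
    (sodd : ¬(s % 2 = 1 ∧ s < v)) : Two F s := by
  have hp : Par k q h v := ⟨hP.hk, hP.hh, hq, hP.hv⟩
  have hX := XOF v F hP.odd hF
  have hFL := A_flo k q h v _ hp hX
  have hFHKP : FH h v (xF v F) ∧ ∀ t, h + 2 ≤ t → t < v → t % 2 = 0 → KP h v (xF v F) t := by
    rcases Nat.lt_or_ge k 3 with hk3 | hk3
    · have hk2 : k = 2 := by have := hP.hk; omega
      subst hk2
      have hh : h = 4 := by have := hp.hh; norm_num at this; exact this
      subst hh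
      exact ⟨A_fh2 q v _ hp hX, A_kp2 q v _ hp hX⟩
    · exact ⟨A_fh3 k q h v _ hp hk3 hX, A_kp3 k q h v _ hp hk3 hX⟩
  obtain ⟨hFH, hKP⟩ := hFHKP
  exact A_twa k q h v F hp hF hFL hFH hKP s s0 s2 s4 sv sv2 sv4 sodd

theorem TWO_all (k q h v : ℕ) (F : ℤ → Bool) (hP : Par1 k q h v) (hF : IsF v F)
    (s : ℕ) (s0 : s ≠ 0) (s2 : s ≠ 2) (s4 : s ≠ 4) (sv : s ≠ v) (sv2 : s ≠ v + 2) (sv4 : s ≠ v + 4)
    (sodd : ¬(s % 2 = 1 ∧ s < v)) : Two F s := by
  rcases Nat.lt_or_ge q 7 with hq | hq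
  swap
  · exact TWO_big k q h v F hP hq hF s s0 s2 s4 sv sv2 sv4 sodd
  rcases Nat.lt_or_ge k 4 with hk | hk
  · refine NUM k q h v F hP (by omega) (by omega) hF s ?_
    unfold exc
    simp only [Bool.or_eq_false_iff, Bool.and_eq_false_iff, beq_eq_false_iff_ne, decide_eq_false_iff_not]
    refine ⟨⟨⟨⟨⟨⟨s0, s2⟩, s4⟩, sv⟩, sv2⟩, sv4⟩, ?_⟩
    by_cases h1 : s % 2 = 1
    · exact Or.inr fun h2 => sodd ⟨h1, h2⟩
    · exact Or.inl h1
  · have hodd := hP.odd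
    have hX := XOF v F hodd hF
    have hFL := FLO1 A_gpw A_lb0 A_lb1 k q h v _ hP hX
    have hLW := LW1 A_gpw A_lb0 A_lb1 k q h v _ hP hX
    obtain ⟨ρ, σ, hσ, hs⟩ := TWA_dec v s hodd sodd
    have hcast : (s : ℤ) = (v : ℤ) * ρ + 2 * σ := by
      rw [hs]; push_cast; ring
    have h0 : 2 ≤ ρ ∨ 3 ≤ σ := by
      by_contra hc
      push Not at hc
      obtain ⟨c1, c2⟩ := hc
      obtain rfl | rfl : ρ = 0 ∨ ρ = 1 := by omega
      · rw [mul_zero] at hs; omega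
      · rw [mul_one] at hs; omega
    rw [hcast]
    have hq1 := hP.hq
    rcases Nat.lt_or_ge q 2 with hq2 | hq2
    · have hq' : q = 1 := by omega
      exact ALLq1 k q h v F ρ σ hP hk hq' hF hFL hLW (CQ1_of A_gpw A_lb0 A_lb1 COL k q h v _ hP hk hq' hX) hσ h0
    · exact ALLq2 k q h v F ρ σ hP hk hq2 hF hFL hLW (CQ2_of A_gpw A_lb0 A_lb1 COL k q h v _ hP hk hq2 hX) hσ h0

/-- from the sums to the sequence -/
theorem FIN_gen (v : ℕ) (hodd : v % 2 = 1) (hv5 : 5 ≤ v)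
    (hTwo : ∀ F : ℤ → Bool, IsF v F → ∀ s : ℕ, s ≠ 0 → s ≠ 2 → s ≠ 4 → s ≠ v → s ≠ v + 2 → s ≠ v + 4 →
      ¬(s % 2 = 1 ∧ s < v) → Two F s) :
    ∃ u : ℕ → ℕ, IsUlam 4 v u ∧ (∀ w, IsUlam 4 v w → w = u) ∧
      (∀ x, (∃ n, u n = x) ∧ Even x ↔ x = 4 ∨ x = 2 * v + 4 ∨ x = 4 * v + 4) ∧
      (∃ K Q, 0 < Q ∧ ∀ n, K ≤ n → u (n + Q + 1) - u (n + Q) = u (n + 1) - u n) ∧
      UP (Set.range u) := by
  obtain ⟨F, hF⟩ := EXF v
  set V : Set ℕ := Vs v F with hV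
  obtain ⟨h1, h2⟩ := VCO v F hodd (by omega) hF
  have h3 := VCE VSM v F hodd (by omega) hF (hTwo F hF)
  have hrec : ∀ n, v < n → (n ∈ V ↔ ∃! p, Rep V n p) := by
    intro n hn
    rcases Nat.mod_two_eq_zero_or_one n with h0 | h0
    · exact h3 n hn h0
    · exact h2 n hn h0
  obtain ⟨hinf, huniq⟩ := ULS 4 v V (by omega) (by omega) h1 hrec
  obtain ⟨K, P, hP, hper⟩ := PER v F hF
  have hperV : ∀ n, v + 2 * K + 4 * v + 5 ≤ n → (n ∈ V ↔ n + 2 * P ∈ V) := by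
    intro n hn
    constructor
    · rintro (h | h | h | ⟨m, hm, h⟩)
      · omega
      · omega
      · omega
      · right; right; right
        refine ⟨m + P, ?_, by omega⟩
        have := hper m (by omega)
        push_cast
        rw [this]; exact hm
    · rintro (h | h | h | ⟨m, hm, h⟩)
      · omega
      · omega
      · omega
      · right; right; right
        refine ⟨m - P, ?_, by omega⟩
        have := hper (m - P) (by omega)
        rw [← this]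
        have e : ((m - P : ℕ) : ℤ) + P = m := by omega
        rw [e]; exact hm
  obtain ⟨k₀, Q, hQ, hgap⟩ := GAP V (v + 2 * K + 4 * v + 5) (2 * P) hinf (by omega) hperV
  have hrange : Set.range (Nat.nth (· ∈ V)) = V := Nat.range_nth_of_infinite hinf
  have hmem : ∀ x, (∃ n, Nat.nth (· ∈ V) n = x) ↔ x ∈ V := by
    intro x
    rw [← Set.mem_range, hrange]
  refine ⟨Nat.nth (· ∈ V), (huniq _).2 rfl, fun w hw => (huniq w).1 hw, ?_, ⟨k₀, Q, hQ, ?_⟩, ?_⟩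
  · intro x
    rw [hmem]
    constructor
    · rintro ⟨h | h | h | ⟨m, hm, h⟩, hx2⟩
      · exact Or.inl h
      · exact Or.inr (Or.inl h)
      · exact Or.inr (Or.inr h)
      · exfalso
        rw [Nat.even_iff] at hx2
        omega
    · rintro (h | h | h)
      · exact ⟨Or.inl h, by rw [h]; decide⟩
      · exact ⟨Or.inr (Or.inl h), by rw [h, Nat.even_iff]; omega⟩
      · exact ⟨Or.inr (Or.inr (Or.inl h)), by rw [h, Nat.even_iff]; omega⟩
  · intro n hn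
    have e1 : Nat.nth (· ∈ V) (n + Q + 1) = Nat.nth (· ∈ V) (n + 1) + 2 * P := by
      rw [Nat.add_right_comm]
      exact hgap (n + 1) (by omega)
    rw [e1, hgap n hn]
    omega
  · refine ⟨v + 2 * K + 4 * v + 5, 2 * P, by omega, ?_⟩
    intro x hx
    rw [hrange]
    exact hperV x hx

/-- `v ≡ 3 mod 4`, `v + 1` not a power of `2` -/
theorem FIN_four (v : ℕ) (h4 : v % 4 = 3) (hv : ∀ j, v + 1 ≠ 2 ^ j) :
    ∃ u : ℕ → ℕ, IsUlam 4 v u ∧ (∀ w, IsUlam 4 v w → w = u) ∧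
      (∀ x, (∃ n, u n = x) ∧ Even x ↔ x = 4 ∨ x = 2 * v + 4 ∨ x = 4 * v + 4) ∧
      (∃ K Q, 0 < Q ∧ ∀ n, K ≤ n → u (n + Q + 1) - u (n + Q) = u (n + 1) - u n) ∧
      UP (Set.range u) := by
  obtain ⟨k, m, hm, hkm⟩ := Nat.exists_eq_two_pow_mul_odd (n := v + 1) (by omega)
  obtain ⟨q, hq⟩ := hm
  have hk : 2 ≤ k := by
    by_contra hc
    have h1 : k = 0 ∨ k = 1 := by omega
    rcases h1 with rfl | rfl
    · rw [pow_zero, one_mul] at hkm
      omega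
    · rw [pow_one] at hkm
      omega
  have hq1 : 1 ≤ q := by
    by_contra hc
    have h1 : q = 0 := by omega
    subst h1
    rw [hq] at hkm
    exact hv k (by omega)
  have hP : Par1 k q (2 ^ k) v := ⟨hk, rfl, hq1, by rw [hkm, hq]; ring⟩
  have h11 : 11 ≤ v := by
    obtain ⟨a, -, b, -, -⟩ := hP.base
    omega
  exact FIN_gen v (by omega) (by omega) fun F hF => TWO_all k q (2 ^ k) v F hP hF

end Pool.Agent.U4B
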