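import Pool.Agent.helper13.U4B.Mask
import Pool.Agent.helper56.U4.XOF

/-!
# Project U4, extension: the generic part and the growth part for `k ≥ 4`
-/

set_option autoImplicit false

namespace Pool.Agent.U4B

open Pool.Agent.UL Pool.Agent.U4

theorem Par1.v35 {k q h v : ℕ} (hP : Par1 k q h v) : v + 1 = 3 * h ∨ 5 * h ≤ v + 1 := by
  rcases Nat.lt_or_ge q 2 with hq | hq
  · have := hP.hq
    exact Or.inl (hP.one (by omega))
  · exact Or.inr (hP.five hq)

theorem YFB (k q h v T : ℕ) (x : ℕ → ℕ → Bool) (hP : Par1 k q h v) (hk : 4 ≤ k) (hL : FL h q v x)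
    (hC : CF h v x) (hT : T < v) (hhT : h + 2 ≤ T) : YF h v (XM h v T x) := by
  obtain ⟨M1, C0, C1, C2, C3, C4, C5, C6, C7, C8⟩ := hC
  obtain ⟨h16, hh16⟩ := hP.h16 hk
  have mk : ∀ t r, x t r = true → 1 ≤ t → t ≤ T → r ≤ 2 * h + 6 → XM h v T x t r := by
    intro t r hx h1 h2 h3
    exact ⟨by omega, hx, Or.inl (Or.inr (Or.inl ⟨h1, h2, h3⟩))⟩
  have mk0 : ∀ r, x 0 r = true → 2 ≤ r → r ≤ 2 * h → r % 4 ≠ 1 → XM h v T x 0 r := by
    intro r hx h1 h2 h3
    exact ⟨by omega, hx, Or.inl (Or.inl ⟨rfl, h1, h2, h3⟩)⟩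
  refine ⟨?_, ?_, ?_, ?_, ?_⟩
  · intro i hi
    obtain ⟨a0, a1, a2, a3⟩ := hL.y1 i hi
    exact ⟨⟨by omega, a0, Or.inr ⟨by omega, by omega, by omega⟩⟩, mk0 _ a1 (by omega) (by omega) (by omega),
      mk0 _ a2 (by omega) (by omega) (by omega), mk0 _ a3 (by omega) (by omega) (by omega)⟩
  · intro e he1 he2 he3
    obtain ⟨a0, a1, a2⟩ := hL.y2 e he1 he2 he3
    have a3 : x (e + 1) (2 * e + 1) = true := by
      rcases Nat.lt_or_ge e h with hlt | hge
      · exact hL.y2' e he1 he2 hlt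
      · have : e = h := by omega
        subst this
        have h5 := (C1 1 1 (by omega) (by omega)).mpr (by unfold c1; omega)
        rw [one_mul] at h5
        exact h5
    exact ⟨mk _ _ a0 (by omega) (by omega) (by omega), mk _ _ a1 (by omega) (by omega) (by omega),
      mk _ _ a2 (by omega) (by omega) (by omega), mk _ _ a3 (by omega) (by omega) (by omega)⟩
  · intro t ht1 ht2
    refine ⟨mk _ _ ?_ (by omega) (by omega) (by omega), mk _ _ ?_ (by omega) (by omega) (by omega),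
      mk _ _ ?_ (by omega) (by omega) (by omega), mk _ _ ?_ (by omega) (by omega) (by omega)⟩
    · exact colA C2 0 t (by omega) (by omega) (by omega) (by unfold c2; omega)
    · rcases Nat.lt_or_ge (t + 1) h with h5 | h5
      · exact colA C2 0 (t + 1) (by omega) (by omega) (by omega) (by unfold c2; omega)
      · exact colA C2 1 (t + 1) (by omega) (by omega) (by omega) (by unfold c2; omega)
    · rcases Nat.lt_or_ge (t + 1) h with h5 | h5
      · exact colA C3 0 (t + 1) (by omega) (by omega) (by omega) (by unfold c3; omega)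
      · exact colA C3 1 (t + 1) (by omega) (by omega) (by omega) (by unfold c3; omega)
    · rcases Nat.lt_or_ge (t + 1) h with h5 | h5
      · exact colA C4 0 (t + 1) (by omega) (by omega) (by omega) (by unfold c4; omega)
      · exact colA C4 1 (t + 1) (by omega) (by omega) (by omega) (by unfold c4; omega)
  · intro e he1 he2 he3
    exact ⟨mk _ _ (hL.r0 e (by omega)) (by omega) (by omega) (by omega),
      mk _ _ (hL.r0 (e + 1) (by omega)) (by omega) (by omega) (by omega),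
      mk _ _ (hL.r1 (e + 1) (by omega) (by omega)) (by omega) (by omega) (by omega),
      mk _ _ (hL.r2 (e + 1) (by omega) (by omega) (by omega)) (by omega) (by omega) (by omega)⟩
  · exact ⟨mk _ _ (hL.r0 1 (by omega)) (by omega) (by omega) (by omega),
      mk _ _ (hL.r1 1 (by omega) (by omega)) (by omega) (by omega) (by omega),
      mk _ _ (hL.r0 2 (by omega)) (by omega) (by omega) (by omega),
      mk _ _ (hL.y2 2 (by omega) (by omega) (by omega)).1 (by omega) (by omega) (by omega)⟩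

theorem TpB (h q v T : ℕ) (x : ℕ → ℕ → Bool) (hh : 4 ≤ h) (hL : FL h q v x) (hT : T < v) (t : ℕ)
    (ht1 : h + 2 ≤ t) (ht2 : t ≤ T) (ht3 : t % 2 = 1) : TpX (XM h v T x) (t - 1) 0 := by
  have mk : ∀ t r, x t r = true → 1 ≤ t → t ≤ T → r ≤ 2 * h + 6 → XM h v T x t r := by
    intro t r hx h1 h2 h3
    exact ⟨by omega, hx, Or.inl (Or.inr (Or.inl ⟨h1, h2, h3⟩))⟩
  obtain ⟨u, rfl⟩ : ∃ u, t = u + 1 := ⟨t - 1, by omega⟩
  rw [Nat.add_sub_cancel]
  exact ⟨mk _ _ (hL.r0 u (by omega)) (by omega) (by omega) (by omega),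
    mk _ _ (hL.r0 (u + 1) (by omega)) (by omega) (by omega) (by omega),
    mk _ _ (hL.r1 (u + 1) (by omega) ht3) (by omega) (by omega) (by omega),
    mk _ _ (hL.r2 (u + 1) (by omega) (by omega) ht3) (by omega) (by omega) (by omega)⟩

theorem GI (k q h v : ℕ) (F : ℤ → Bool) (ρ σ : ℕ) (hP : Par1 k q h v) (hk : 4 ≤ k) (hF : IsF v F)
    (hL : FL h q v (xF v F)) (hC : CF h v (xF v F)) (hρ : 4 * h + 17 ≤ ρ) (hσ : σ < v) :
    Two F ((v : ℤ) * ρ + 2 * σ) := by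
  by_contra hT
  obtain ⟨h16, hh16⟩ := hP.h16 hk
  have hodd := hP.odd
  have h35 := hP.v35
  have hOne : OneX (XM h v (v - 1) (xF v F)) (yF v F ((v : ℤ) * ρ + 2 * σ)) := by
    refine OneX_of v F ρ σ _ hodd hσ (fun t r hX => ⟨hX.1, hX.2.1⟩) ?_ hT
    intro t r t' r' h1 h2
    obtain ⟨a1, -, a2⟩ := h1
    obtain ⟨b1, -, b2⟩ := h2
    have hr : r ≤ 2 * h + 8 := by
      rcases a2 with (h | h | h | h) | h <;> omega
    have hr' : r' ≤ 2 * h + 8 := by
      rcases b2 with (h | h | h | h) | h <;> omega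
    rintro (⟨e1, e2⟩ | ⟨e1, e2⟩)
    · omega
    · have ht : t = h + 3 ∨ t = 3 * h + 3 ∨ t = 3 * h + 5 := by
        rcases a2 with (h | h | h | h) | h <;> omega
      have ht' : t' = h + 3 ∨ t' = 3 * h + 3 ∨ t' = 3 * h + 5 := by
        rcases b2 with (h | h | h | h) | h <;> omega
      have hs : r = 2 * h + 8 ∨ r' = 2 * h + 8 := by omega
      rcases hs with hs | hs
      · have : t = h + 3 := by
          rcases a2 with (h | h | h | h) | h <;> omega
        omega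
      · have : t' = h + 3 := by
          rcases b2 with (h | h | h | h) | h <;> omega
        omega
  have e7 : XM h v (v - 1) (xF v F) (h + 3) (2 * h + 7) := by
    have h6 := (hC.f7 1 3 (by omega) (by omega)).mpr (by unfold c7x; omega)
    have h7 : 1 * h + 3 = h + 3 := by omega
    rw [h7] at h6
    exact ⟨by omega, h6, Or.inl (Or.inr (Or.inr (Or.inl ⟨rfl, by omega⟩)))⟩
  have e8 : XM h v (v - 1) (xF v F) (h + 3) (2 * h + 8) := by
    have h6 := (hC.f8 1 3 (by omega) (by omega) (by omega)).mpr (by unfold c8x; omega)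
    have h7 : 1 * h + 3 = h + 3 := by omega
    rw [h7] at h6
    exact ⟨by omega, h6, Or.inl (Or.inr (Or.inr (Or.inl ⟨rfl, by omega⟩)))⟩
  exact MAIX h v F ρ σ (XM h v (v - 1) (xF v F)) (by omega) (by omega) hodd (by omega) hF
    (YFB k q h v (v - 1) _ hP hk hL hC (by omega) (by omega))
    (fun t ht1 ht2 ht3 => TpB h q v (v - 1) _ (by omega) hL (by omega) t ht1 (by omega) ht3)
    (fun t ht1 ht2 ht3 => KPB k q h v (v - 1) _ hP hk hC t ht1 ht2 ht3 (by omega) (by omega) (Or.inl (by omega)))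
    e7 e8 (by omega) hOne

theorem GIIm (k q h v m : ℕ) (F : ℤ → Bool) (ρ σ : ℕ) (hP : Par1 k q h v) (hk : 4 ≤ k) (hF : IsF v F)
    (hL : FL h q v (xF v F)) (hC : CF h v (xF v F))
    (h5 : ∀ t, m ≤ t → t < v → t % 2 = 0 → xF v F t (2 * h + 5) = true)
    (hρ : 2 * h + 7 ≤ ρ) (hρ' : ρ ≤ 4 * h + 16) (hσ : σ < v) (hm : m + h + 7 ≤ σ) (hσ' : 2 * h + 19 ≤ σ)
    (he1 : ¬(σ + 1 = v ∧ ρ + 4 ≤ 4 * h ∧ ρ % 4 ≠ 1)) (he2 : ¬(σ + 2 = v ∧ ρ + 6 ≤ 4 * h ∧ ρ % 4 = 2)) :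
    Two F ((v : ℤ) * ρ + 2 * σ) := by
  by_contra hT
  obtain ⟨h16, hh16⟩ := hP.h16 hk
  have hodd := hP.odd
  have h35 := hP.v35
  have hOne : OneX (XM h v (h + 9) (xF v F)) (yF v F ((v : ℤ) * ρ + 2 * σ)) := by
    refine OneX_of v F ρ σ _ hodd hσ (fun t r hX => ⟨hX.1, hX.2.1⟩) ?_ hT
    intro t r t' r' h1 h2
    obtain ⟨a1, -, a2⟩ := h1
    obtain ⟨b1, -, b2⟩ := h2
    have ha : (t ≤ h + 9 ∧ (t = 0 → r ≤ 2 * h ∧ r % 4 ≠ 1)) ∨ (t + 1 = v ∧ r % 4 = 0 ∧ r + 4 ≤ 2 * h) := by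
      rcases a2 with (h | h | h | h) | h <;> omega
    have hb : (t' ≤ h + 9 ∧ (t' = 0 → r' ≤ 2 * h ∧ r' % 4 ≠ 1)) ∨ (t' + 1 = v ∧ r' % 4 = 0 ∧ r' + 4 ≤ 2 * h) := by
      rcases b2 with (h | h | h | h) | h <;> omega
    clear a2 b2 hT
    omega
  exact MBIX h v m F ρ σ (XM h v (h + 9) (xF v F)) hh16 (by omega) (by omega) hF
    (YFB k q h v (h + 9) _ hP hk hL hC (by omega) (by omega))
    (fun t ht1 ht2 ht3 => TpB h q v (h + 9) _ (by omega) hL (by omega) t ht1 (by omega) ht3)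
    (fun t ht1 ht2 ht3 => KPB k q h v (h + 9) _ hP hk hC t ht1 (by omega) ht3 (by omega) (by omega)
      (Or.inr (by omega)))
    h5 hρ hρ' hσ hm hOne

/-- column 5 at the even times `≥ h + 6` (`q = 1`) or `≥ 2 h` -/
theorem c5_even {k q h v : ℕ} {x : ℕ → ℕ → Bool} (hP : Par1 k q h v) (hk : 4 ≤ k) (hC : CF h v x) :
    ∀ t, h + 6 ≤ t → t < v → t % 2 = 0 → x t (2 * h + 5) = true := by
  intro t ht1 ht2 ht3
  obtain ⟨h16, hh16⟩ := hP.h16 hk
  obtain ⟨B, hB⟩ : ∃ B, B = t / h := ⟨_, rfl⟩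
  obtain ⟨d, hd⟩ : ∃ d, d = t % h := ⟨_, rfl⟩
  have hlt : d < h := by
    rw [hd]
    exact Nat.mod_lt _ (by omega)
  have e : B * h + d = t := by
    rw [hB, hd, Nat.mul_comm]
    exact Nat.div_add_mod _ _
  have hd2 : d % 2 = 0 := by
    rw [← e] at ht3
    obtain ⟨c, hc⟩ : ∃ c, h = 2 * c := ⟨h / 2, by omega⟩
    rw [hc] at ht3
    have : B * (2 * c) = 2 * (B * c) := by ring
    rw [this] at ht3
    omega
  have hB1 : 1 ≤ B := by
    rcases Nat.eq_zero_or_pos B with h0 | h0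
    · subst h0
      omega
    · exact h0
  have h6 := (hC.f5 B d hB1 hlt (by omega)).mpr (by
    rcases Nat.lt_or_ge B 2 with h7 | h7
    · have h8 : B = 1 := by omega
      subst h8
      unfold c5
      omega
    · unfold c5
      omega)
  rw [e] at h6
  exact h6

theorem GII (k q h v : ℕ) (F : ℤ → Bool) (ρ σ : ℕ) (hP : Par1 k q h v) (hk : 4 ≤ k) (hF : IsF v F)
    (hL : FL h q v (xF v F)) (hC : CF h v (xF v F))
    (hρ : 2 * h + 7 ≤ ρ) (hρ' : ρ ≤ 4 * h + 16) (hσ : σ < v) (hσ' : 2 * h + 19 ≤ σ)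
    (he1 : ¬(σ + 1 = v ∧ ρ + 4 ≤ 4 * h ∧ ρ % 4 ≠ 1)) (he2 : ¬(σ + 2 = v ∧ ρ + 6 ≤ 4 * h ∧ ρ % 4 = 2)) :
    Two F ((v : ℤ) * ρ + 2 * σ) :=
  GIIm k q h v (h + 6) F ρ σ hP hk hF hL hC (c5_even hP hk hC) hρ hρ' hσ (by omega) hσ' he1 he2

end Pool.Agent.U4B
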