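import Pool.Agent.helper13.U4B.Base
import Pool.Agent.helper78.U4.LOW
import Pool.Agent.helper25.U4.FLO

/-!
# Project U4, extension: the low rows
-/

set_option autoImplicit false

namespace Pool.Agent.U4B

open Pool.Agent.UL Pool.Agent.U4

theorem LOW_modB (k q h v : ℕ) (P : Par1 k q h v) : v % h = h - 1 ∧ 1 ≤ h ∧ h ≤ v := by
  have hh : 1 ≤ h := by
    rw [P.hh]
    exact Nat.one_le_two_pow
  have hv := P.hv
  have e1 : v = (h - 1) + h * (2 * q) := by
    have e2 : 2 * h * q = h * (2 * q) := by ring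
    rw [e2] at hv
    omega
  have hq := P.hq
  refine ⟨?_, hh, ?_⟩
  · rw [e1, Nat.add_mul_mod_self_left]
    exact Nat.mod_eq_of_lt (by omega)
  · have e3 : h * 1 ≤ h * (2 * q) := Nat.mul_le_mul_left _ (by omega)
    omega

theorem LOW_p0B (r : ℕ) : (p0 (r + 2) = true ↔ r % 4 ≠ 3) := by
  unfold p0
  rw [decide_eq_true_iff]
  omega

/-- LOW -/
theorem LOW1 (h1 : GPW_stmt) (h2 : LB0_stmt) (h3 : LB1_stmt) : ∀ (k q h v : ℕ) (x : ℕ → ℕ → Bool),
    Par1 k q h v → XR v x →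
    (∀ r ≤ 2 * h, x 0 r = p0 r) ∧ (∀ t, 1 ≤ t → t ≤ v → ∀ r ≤ 2 * h, x t r = blk t r) ∧
    ∀ t, h ≤ t → t ≤ v → ∀ r, r + 2 ≤ 2 * h → x t r = g (t % h) r := by
  intro k q h v x P hx
  obtain ⟨hmod, hh1, hhv⟩ := LOW_modB k q h v P
  have hk1 : 1 ≤ k := by
    have := P.hk
    omega
  have key : ∀ ρ, 1 ≤ ρ → ρ ≤ 2 * h → ∀ r ≤ ρ, x 0 r = p0 r := by
    intro ρ hρ
    induction ρ, hρ using Nat.le_induction with
    | base =>
      intro _ r hr
      have e1 : r = 0 ∨ r = 1 := by omega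
      rcases e1 with e1 | e1
      · rw [e1, hx.z0]
        rfl
      · rw [e1, hx.z1]
        rfl
    | succ ρ hρ ih =>
      intro hρ2 r hr
      have ih' := ih (by omega)
      rcases Nat.lt_or_ge r (ρ + 1) with h4 | h4
      · exact ih' r (by omega)
      have e1 : r = (ρ - 1) + 2 := by omega
      rw [e1]
      have e2 := h2 v ρ x hx ih'
      have e3 : ∀ r' ≤ ρ - 1, (x h r' = true ↔ r' = 0) := by
        intro r' hr'
        rw [e2 h hh1 hhv r' (by omega)]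
        exact LOW_blk h1 k h P.hh r' (by omega)
      have e4 := h3 k h v (ρ - 1) x P.hk P.hh hhv hx (by omega) e3 v hhv le_rfl (ρ - 1) le_rfl
      rw [← hx.w, e4, hmod, P.hh, Bool.eq_iff_iff, h1.2.1 k hk1, LOW_p0B]
      have e5 := P.hh
      constructor
      · rintro ⟨e6, _⟩
        exact e6
      · intro e6
        exact ⟨e6, by omega⟩
  have hA : ∀ r ≤ 2 * h, x 0 r = p0 r := key (2 * h) (by omega) le_rfl
  have hB := h2 v (2 * h) x hx hA
  refine ⟨hA, hB, ?_⟩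
  intro t ht htv r hr
  refine h3 k h v (2 * h - 2) x P.hk P.hh hhv hx (by omega) ?_ t ht htv r (by omega)
  intro r' hr'
  rw [hB h hh1 hhv r' (by omega)]
  exact LOW_blk h1 k h P.hh r' (by omega)

theorem FLO1 (h1 : GPW_stmt) (h0 : LB0_stmt) (h0' : LB1_stmt) : ∀ (k q h v : ℕ) (x : ℕ → ℕ → Bool),
    Par1 k q h v → XR v x → FL h q v x := by
  intro k q h v x hp hx
  obtain ⟨hA, hB, hC⟩ := LOW1 h1 h0 h0' k q h v x hp hx
  obtain ⟨-, g2, g3, -, -, g6, g7⟩ := h1
  have hk := hp.hk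
  have hh := hp.hh
  have hq := hp.hq
  have hv := hp.hv
  have h4 : 4 ≤ h := by
    rw [hh]
    calc 4 = 2 ^ 2 := by norm_num
      _ ≤ 2 ^ k := Nat.pow_le_pow_right (by norm_num) hk
  have hhq : 2 * h * 1 ≤ 2 * h * q := Nat.mul_le_mul_left _ hq
  have hvl : 3 * h ≤ v + 1 := by omega
  have hk1 : 1 ≤ k := by omega
  -- odd times
  have hodd : ∀ t ≤ v, 3 ≤ t → t % 2 = 1 → ∀ r ≤ 2 * h, (∀ d, d % 2 = 1 → g d r = true) →
      x t r = true := by
    intro t ht ht3 ht1 r hr hg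
    obtain ⟨j, τ, hj, hτ⟩ := FLO_dec t (by omega)
    have hj1 : 1 ≤ j := by
      by_contra hc
      have h0 : j = 0 := by omega
      rw [h0, pow_zero] at hj hτ
      omega
    have he := FLO_even hj1
    rw [hB t (by omega) ht r hr, hj]
    exact FLO_b1 hτ (hg τ (by omega))
  refine ⟨?_, ?_, ?_, ?_, ?_, ?_, ?_, ?_, ?_, ?_⟩
  · intro t ht
    rcases Nat.eq_zero_or_pos t with h0 | h0
    · rw [h0, hA 0 (by omega)]
      rfl
    · obtain ⟨j, τ, hj, hτ⟩ := FLO_dec t h0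
      rw [hB t h0 ht 0 (by omega), hj]
      exact FLO_b1 hτ (g6 τ)
  · intro t ht ht1
    by_cases h3 : 3 ≤ t
    · exact hodd t ht h3 ht1 1 (by omega) fun d hd => (g7 d hd).1
    · have h0 : t = 1 := by omega
      rw [h0, hB 1 le_rfl (by omega) 1 (by omega)]
      have := FLO_b2 (j := 0) (τ := 0) (r := 0) (by norm_num) (g6 0)
      simpa using this
  · intro t ht h3 ht1
    exact hodd t ht h3 ht1 2 (by omega) fun d hd => (g7 d hd).2
  · rw [hA 2 (by omega)]
    decide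
  · intro B r hB1 hB2 hr hr3
    have hBh : h ≤ B * h := Nat.le_mul_of_pos_left h hB1
    have hBq : B * h ≤ 2 * q * h := Nat.mul_le_mul_right h hB2
    have e1 : 2 * q * h = 2 * h * q := by ring
    have e2 : (B * h + (h - 1)) % h = h - 1 := by
      rw [Nat.mul_comm, Nat.mul_add_mod]
      exact Nat.mod_eq_of_lt (by omega)
    rw [hC (B * h + (h - 1)) (by omega) (by omega) r hr, e2, hh]
    rw [hh] at hr
    exact (g2 k hk1 r).2 ⟨hr3, hr⟩
  · intro j hj hjh r hr hr3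
    have h5 : 1 ≤ 2 ^ j := Nat.one_le_two_pow
    rw [hB (2 * 2 ^ j - 1) (by omega) (by omega) _ (by omega)]
    have e1 : 2 * 2 ^ j - 1 = 2 ^ j + (2 ^ j - 1) := by omega
    have h6 := FLO_b2 (j := j) (τ := 2 ^ j - 1) (r := r) (by omega) ((g2 j hj r).2 ⟨hr3, hr⟩)
    rw [← e1] at h6
    exact h6
  · intro j hj hjh i hi
    have h5 : 2 ≤ 2 ^ j := by
      calc 2 = 2 ^ 1 := (pow_one 2).symm
        _ ≤ 2 ^ j := Nat.pow_le_pow_right (by norm_num) hj
    rw [hB (2 * 2 ^ j - 2) (by omega) (by omega) _ (by omega)]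
    have e1 : 2 * 2 ^ j - 2 = 2 ^ j + (2 ^ j - 2) := by omega
    have h6 := FLO_b2 (j := j) (τ := 2 ^ j - 2) (r := 4 * i) (by omega) ((g3 j hj i).2 hi)
    rw [← e1] at h6
    exact h6
  · intro i hi
    have e1 : v - 1 = h * (2 * q) + (h - 2) := by
      have : h * (2 * q) = 2 * h * q := by ring
      omega
    have e2 : (v - 1) % h = h - 2 := by
      rw [e1, Nat.mul_add_mod]
      exact Nat.mod_eq_of_lt (by omega)
    have hp0 : ∀ r, 2 ≤ r → r ≤ 2 * h → r % 4 ≠ 1 → x 0 r = true := by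
      intro r h6 h7 h8
      rw [hA r h7]
      unfold p0
      rw [decide_eq_true_eq]
      exact Or.inr ⟨h6, h8⟩
    refine ⟨?_, hp0 _ (by omega) (by omega) (by omega), hp0 _ (by omega) (by omega) (by omega),
      hp0 _ (by omega) (by omega) (by omega)⟩
    rw [hC (v - 1) (by omega) (by omega) (4 * i) (by omega), e2, hh]
    rw [hh] at hi
    exact (g3 k hk1 i).2 hi
  · intro e he0 he2 heh
    obtain ⟨j, τ, hj, hτ⟩ := FLO_dec e (by omega)
    have hj1 : 1 ≤ j := by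
      by_contra hc
      have h0 : j = 0 := by omega
      rw [h0, pow_zero] at hj hτ
      omega
    have hev := FLO_even hj1
    have hτ0 : τ % 2 = 0 := by omega
    have e3 : 2 * e - 1 = 2 * 2 ^ j - 1 + 2 * τ := by
      have : 1 ≤ 2 ^ j := Nat.one_le_two_pow
      omega
    have e4 : 2 * e = 2 * 2 ^ j - 1 + (2 * τ + 1) := by
      have : 1 ≤ 2 ^ j := Nat.one_le_two_pow
      omega
    have e5 : e + 1 = 2 ^ j + (τ + 1) := by omega
    have hτ1 : τ + 1 < 2 ^ j := by omega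
    refine ⟨?_, ?_, ?_⟩
    · rw [hB e (by omega) (by omega) (2 * e - 1) (by omega), e3, hj]
      exact FLO_b2 hτ (FLO_g0 hτ0)
    · rw [hB (e + 1) (by omega) (by omega) (2 * e - 1) (by omega), e3, e5]
      exact FLO_b2 hτ1 (FLO_g1 (i := 0) hτ0 (by omega))
    · rw [hB (e + 1) (by omega) (by omega) (2 * e) (by omega), e5, e4]
      exact FLO_b2 hτ1 (FLO_g1 (i := 1) hτ0 (by omega))
  · intro e he0 he2 heh
    obtain ⟨j, τ, hj, hτ⟩ := FLO_dec e (by omega)
    have hj1 : 1 ≤ j := by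
      by_contra hc
      have h0 : j = 0 := by omega
      rw [h0, pow_zero] at hj hτ
      omega
    have hev := FLO_even hj1
    have hτ0 : τ % 2 = 0 := by omega
    have e4 : 2 * e + 1 = 2 * 2 ^ j - 1 + (2 * τ + 2) := by
      have : 1 ≤ 2 ^ j := Nat.one_le_two_pow
      omega
    have e5 : e + 1 = 2 ^ j + (τ + 1) := by omega
    have hτ1 : τ + 1 < 2 ^ j := by omega
    rw [hB (e + 1) (by omega) (by omega) (2 * e + 1) (by omega), e5, e4]
    exact FLO_b2 hτ1 (FLO_g1 (i := 2) hτ0 (by omega))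


theorem LW1 (h1 : GPW_stmt) (h0 : LB0_stmt) (h0' : LB1_stmt) : ∀ (k q h v : ℕ) (x : ℕ → ℕ → Bool),
    Par1 k q h v → XR v x → LW h v x := by
  intro k q h v x hp hx
  obtain ⟨hA, hB, hC⟩ := LOW1 h1 h0 h0' k q h v x hp hx
  obtain ⟨-, g2, g3, -, -, -, -⟩ := h1
  obtain ⟨h4, h4', h3, hveq, hk1⟩ := hp.base
  have hh := hp.hh
  have hk := hp.hk
  refine ⟨?_, ?_, ?_, ?_⟩
  · intro r h6 h7 h8
    rw [hA r h7]
    unfold p0
    rw [decide_eq_true_eq]
    exact Or.inr ⟨h6, h8⟩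
  · intro r hr1 hr2
    have h5 : 2 ≤ 2 ^ (k - 1) := by omega
    rw [hB (h - 1) (by omega) (by omega) _ (by omega)]
    have e1 : h - 1 = 2 ^ (k - 1) + (2 ^ (k - 1) - 1) := by omega
    by_cases h6 : r + 2 ≤ h
    · rw [e1]
      exact FLO_b1 (by omega) ((g2 (k - 1) (by omega) r).2 ⟨by omega, by omega⟩)
    · have h7 := FLO_b2 (j := k - 1) (τ := 2 ^ (k - 1) - 1) (r := r + 1 - h) (by omega)
        ((g2 (k - 1) (by omega) (r + 1 - h)).2 ⟨by omega, by omega⟩)
      have e2 : 2 * 2 ^ (k - 1) - 1 + (r + 1 - h) = r := by omega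
      rw [e2, ← e1] at h7
      exact h7
  · intro B r hB1 hv hr hr3
    have hBh : h ≤ B * h := Nat.le_mul_of_pos_left h hB1
    have e2 : (B * h + (h - 1)) % h = h - 1 := by
      rw [Nat.mul_comm, Nat.mul_add_mod]
      exact Nat.mod_eq_of_lt (by omega)
    rw [hC (B * h + (h - 1)) (by omega) (by omega) r hr, e2, hh]
    rw [hh] at hr
    exact (g2 k (by omega) r).2 ⟨hr3, hr⟩
  · intro B r hB1 hv hr hr0
    have hBh : h ≤ B * h := Nat.le_mul_of_pos_left h hB1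
    have e2 : (B * h + (h - 2)) % h = h - 2 := by
      rw [Nat.mul_comm, Nat.mul_add_mod]
      exact Nat.mod_eq_of_lt (by omega)
    rw [hC (B * h + (h - 2)) (by omega) (by omega) r (by omega), e2, hh]
    obtain ⟨i, rfl⟩ : ∃ i, r = 4 * i := ⟨r / 4, by omega⟩
    rw [hh] at hr
    exact (g3 k (by omega) i).2 hr

end Pool.Agent.U4B
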