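import Pool.Agent.helper13.U4B.Base
import Pool.Agent.helper35.U4.AM1
import Pool.Agent.helper44.U4.KL4
import Pool.Agent.helper44.U4.SPR
import Pool.Agent.helper29.U4.KL5
import Pool.Agent.helper5.U4.KL3
import Pool.Agent.helper56.U4.KLB
import Pool.Agent.helper56.U4.KL6
import Pool.Agent.helper56.U4.YRC
import Pool.Agent.helper45.U4.KIL
import Pool.Agent.helper48.U4.YST
import Pool.Agent.helper48.U4.YVA
import Pool.Agent.helper70.U4.STC
import Pool.Agent.helper84.U4.STA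
import Pool.Agent.helper92.U4.STB
import Pool.Agent.helper14.U4.EZR
import Pool.Agent.helper52.U4.ZWN
import Pool.Agent.helper78.U4.CEL

/-!
# Project U4, extension: the array `y`, with an abstract set `X` of cells
-/

set_option autoImplicit false

namespace Pool.Agent.U4B

open Pool.Agent.UL Pool.Agent.U4

/-- at most one cell of `X` with `y` true -/
def OneX (X : ℕ → ℕ → Prop) (y : ℕ → ℕ → Bool) : Prop :=
  ∀ t r t' r', X t r → y t r = true → X t' r' → y t' r' = true → t = t' ∧ r = r'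

theorem OneX.one {X : ℕ → ℕ → Prop} {y : ℕ → ℕ → Bool} (h : OneX X y) : One (fun _ _ => true) y X :=
  fun t r t' r' a b _ c _ d => h t r t' r' a c b d

def TpX (X : ℕ → ℕ → Prop) (t r : ℕ) : Prop :=
  X t r ∧ X (t + 1) r ∧ X (t + 1) (r + 1) ∧ X (t + 1) (r + 2)

/-- the kill patterns -/
def KPX (h T : ℕ) (X : ℕ → ℕ → Prop) (t : ℕ) : Prop :=
  (h + 4 ≤ t ∧ ∃ a, 3 ≤ a ∧ a ≤ 4 ∧ X t (2 * h + a) ∧ X t (2 * h + a + 1) ∧ X t (2 * h + a + 2)) ∨
  (h + 4 ≤ t ∧ t + 1 ≤ T ∧ ∃ a, 3 ≤ a ∧ a ≤ 4 ∧ X t (2 * h + a) ∧ X t (2 * h + a + 1) ∧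
    X (t + 1) (2 * h + a) ∧ X (t + 1) (2 * h + a + 3)) ∨
  (t = h + 2 ∧ t + 1 ≤ T ∧ X t (2 * h - 1) ∧ X t (2 * h + 4) ∧ X t (2 * h + 6) ∧
    X (t + 1) (2 * h - 1) ∧ X (t + 1) (2 * h) ∧ X (t + 1) (2 * h + 1) ∧
    X (t + 1) (2 * h + 4) ∧ X (t + 1) (2 * h + 5) ∧ X (t + 1) (2 * h + 7) ∧ X (t + 1) (2 * h + 8)) ∨
  (t = 3 * h + 2 ∧ t + 1 ≤ T ∧ TpX X t (2 * h) ∧ TpX X t (2 * h + 5)) ∨
  (h + 4 ≤ t ∧ t + 2 ≤ T ∧ ∃ a, 4 ≤ a ∧ a ≤ 5 ∧ TpX X t (2 * h + a - 5) ∧ X t (2 * h + a) ∧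
    X t (2 * h + a + 1) ∧ X (t + 1) (2 * h + a) ∧ X (t + 2) (2 * h + a - 1) ∧
    X (t + 2) (2 * h + a) ∧ X (t + 2) (2 * h + a + 1)) ∨
  (h = 4 ∧ t = 14 ∧ t + 1 ≤ T ∧ TpX X 14 8 ∧ X 14 13 ∧ X 14 15 ∧ X 14 16 ∧ X 15 13 ∧ X 15 14)

theorem cntX {X : ℕ → ℕ → Prop} {y : ℕ → ℕ → Bool} (hO : OneX X y) (t m : ℕ)
    (L : List (ℕ × ℕ)) (hL : L.Nodup) (hm : ∀ p ∈ L, X (t + p.1) (m + p.2)) :
    (L.map fun p => y (t + p.1) (m + p.2)).count true ≤ 1 :=
  KIL_cnt AM1 hO.one t m L hL fun p hp => ⟨hm p hp, rfl⟩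

theorem KILX (h T t : ℕ) (X : ℕ → ℕ → Prop) (y : ℕ → ℕ → Bool) (hh : 4 ≤ h)
    (hOne : OneX X y) (hYR : YR T (2 * h + 12) y) (ht : h + 2 ≤ t) (htT : t ≤ T)
    (hodd : t % 2 = 1 → TpX X (t - 1) 0) (heven : t % 2 = 0 → KPX h T X t)
    (hprev : ∀ r, r ≤ 2 * (t - 1) → r ≤ 2 * h + 12 → y (t - 1) r = false) :
    ∀ r, r ≤ 2 * t → r ≤ 2 * h + 12 → y t r = false := by
  intro r hr1 hr2
  obtain ⟨k1, k2, k3⟩ := KLB
  have Q : ∀ {a b a' b' : ℕ}, X a b → a = a' → b = b' → X a' b' := by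
    rintro a b _ _ h rfl rfl
    exact h
  have hex : ∀ r ≤ min (2 * (t - 1)) (2 * h + 12), ex1 (y t r) (y t (r + 1)) (y t (r + 2)) = false := by
    intro r hr
    have e1 := hprev r (by omega) (by omega)
    have e2 := hYR (t - 1) (by omega) r (by omega)
    rw [show t - 1 + 1 = t by omega] at e2
    rw [← e2, e1]
  have fin : ∀ b, b ≤ min (2 * (t - 1)) (2 * h + 12) + 1 → y t b = false → y t (b + 1) = false → y t r = false := by
    intro b hb hb0 hb1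
    exact SPR (y t) _ b hex hb hb0 hb1 r (by omega)
  have hY1 : t + 1 ≤ T → ∀ r ≤ 2 * h + 12, y t r = ex1 (y (t + 1) r) (y (t + 1) (r + 1)) (y (t + 1) (r + 2)) :=
    fun ht' r hr => hYR t (by omega) r hr
  have hY2 : t + 2 ≤ T → ∀ r ≤ 2 * h + 12, y (t + 1) r = ex1 (y (t + 2) r) (y (t + 2) (r + 1)) (y (t + 2) (r + 2)) :=
    fun ht' r hr => hYR (t + 1) (by omega) r hr
  rcases Nat.mod_two_eq_zero_or_one t with hpar | hpar
  swap
  · -- odd times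
    obtain ⟨a1, a2, a3, a4⟩ := hodd hpar
    have hc := cntX hOne (t - 1) 0 [(0, 0), (1, 0), (1, 1), (1, 2)] (by decide) (by
      simp only [List.mem_cons, List.not_mem_nil, or_false, forall_eq_or_imp, forall_eq]
      exact ⟨Q a1 (by omega) (by omega), Q a2 (by omega) (by omega), Q a3 (by omega) (by omega),
        Q a4 (by omega) (by omega)⟩)
    have e2 := hYR (t - 1) (by omega) 0 (by omega)
    simp only [List.map_cons, List.map_nil, show t - 1 + 1 = t by omega, Nat.zero_add, Nat.add_zero] at hc e2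
    rw [e2] at hc
    obtain ⟨-, b1, b2, -⟩ := k3 _ _ _ hc
    exact fin 0 (by omega) b1 b2
  · rcases heven hpar with ⟨q1, a, ha3, ha4, c1, c2, c3⟩ | ⟨q1, q2, a, ha3, ha4, c1, c2, c3, c4⟩ |
      ⟨q1, q2, c1, c2, c3, c4, c5, c6, c7, c8, c9, c10⟩ | ⟨q1, q2, ⟨c1, c2, c3, c4⟩, ⟨c5, c6, c7, c8⟩⟩ |
      ⟨q1, q2, a, ha3, ha4, ⟨c1, c2, c3, c4⟩, c5, c6, c7, c8, c9, c10⟩ |
      ⟨q1, q2, q3, ⟨c1, c2, c3, c4⟩, c5, c6, c7, c8, c9⟩
    · -- first pattern
      have hc := cntX hOne t (2 * h + a) [(0, 0), (0, 1), (0, 2)] (by decide) (by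
        simp only [List.mem_cons, List.not_mem_nil, or_false, forall_eq_or_imp, forall_eq]
        exact ⟨Q c1 (by omega) (by omega), Q c2 (by omega) (by omega), Q c3 (by omega) (by omega)⟩)
      obtain ⟨b1, b2, -⟩ := k1 (y t (2 * h + a)) (y t (2 * h + a + 1)) (y t (2 * h + a + 2)) hc
        (hex (2 * h + a) (by omega))
      exact fin (2 * h + a) (by omega) b1 b2
    · -- second pattern
      have hc := cntX hOne t (2 * h + a) [(0, 0), (0, 1), (1, 0), (1, 3)] (by decide) (by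
        simp only [List.mem_cons, List.not_mem_nil, or_false, forall_eq_or_imp, forall_eq]
        exact ⟨Q c1 (by omega) (by omega), Q c2 (by omega) (by omega), Q c3 (by omega) (by omega),
          Q c4 (by omega) (by omega)⟩)
      have e1 := hY1 (by omega) (2 * h + a) (by omega)
      have e2 := hY1 (by omega) (2 * h + a + 1) (by omega)
      have hc' : [ex1 (y (t + 1) (2 * h + a)) (y (t + 1) (2 * h + a + 1)) (y (t + 1) (2 * h + a + 2)),
          ex1 (y (t + 1) (2 * h + a + 1)) (y (t + 1) (2 * h + a + 1 + 1)) (y (t + 1) (2 * h + a + 1 + 2)),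
          y (t + 1) (2 * h + a), y (t + 1) (2 * h + a + 3)].count true ≤ 1 := by
        rw [← e1, ← e2]
        exact hc
      obtain ⟨b1, b2⟩ := k2 _ _ _ _ hc'
      exact fin (2 * h + a) (by omega) (e1.trans b1) (e2.trans b2)
    · -- third pattern
      have hc := cntX hOne t (2 * h - 1)
        [(0, 0), (0, 5), (0, 7), (1, 0), (1, 1), (1, 2), (1, 5), (1, 6), (1, 8), (1, 9)] (by decide) (by
        simp only [List.mem_cons, List.not_mem_nil, or_false, forall_eq_or_imp, forall_eq]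
        exact ⟨Q c1 (by omega) (by omega), Q c2 (by omega) (by omega), Q c3 (by omega) (by omega),
          Q c4 (by omega) (by omega), Q c5 (by omega) (by omega), Q c6 (by omega) (by omega),
          Q c7 (by omega) (by omega), Q c8 (by omega) (by omega), Q c9 (by omega) (by omega),
          Q c10 (by omega) (by omega)⟩)
      obtain ⟨b1, b2⟩ := KL3 (fun i => y (t + 1) (2 * h - 1 + i)) (fun i => y t (2 * h - 1 + i))
        (fun i hi => hY1 (by omega) (2 * h - 1 + i) (by omega)) hc (fun i hi => hex (2 * h - 1 + i) (by omega))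
      exact fin (2 * h - 1) (by omega) b1 b2
    · -- fourth pattern
      have hc := cntX hOne t (2 * h)
        [(0, 0), (0, 5), (1, 0), (1, 1), (1, 2), (1, 5), (1, 6), (1, 7)] (by decide) (by
        simp only [List.mem_cons, List.not_mem_nil, or_false, forall_eq_or_imp, forall_eq]
        exact ⟨Q c1 (by omega) (by omega), Q c5 (by omega) (by omega), Q c2 (by omega) (by omega),
          Q c3 (by omega) (by omega), Q c4 (by omega) (by omega), Q c6 (by omega) (by omega),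
          Q c7 (by omega) (by omega), Q c8 (by omega) (by omega)⟩)
      obtain ⟨b1, b2⟩ := KL4 (fun i => y (t + 1) (2 * h + i)) (fun i => y t (2 * h + i))
        (fun i hi => hY1 (by omega) (2 * h + i) (by omega)) hc (fun i hi => hex (2 * h + i) (by omega))
      exact fin (2 * h) (by omega) b1 b2
    · -- fifth pattern
      have hc := cntX hOne t (2 * h + a - 5)
        [(0, 0), (0, 5), (0, 6), (1, 0), (1, 1), (1, 2), (1, 5), (2, 4), (2, 5), (2, 6)] (by decide) (by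
        simp only [List.mem_cons, List.not_mem_nil, or_false, forall_eq_or_imp, forall_eq]
        exact ⟨Q c1 (by omega) (by omega), Q c5 (by omega) (by omega), Q c6 (by omega) (by omega),
          Q c2 (by omega) (by omega), Q c3 (by omega) (by omega), Q c4 (by omega) (by omega),
          Q c7 (by omega) (by omega), Q c8 (by omega) (by omega), Q c9 (by omega) (by omega),
          Q c10 (by omega) (by omega)⟩)
      obtain ⟨b1, b2⟩ := KL5 (fun i => y (t + 2) (2 * h + a - 5 + i)) (fun i => y (t + 1) (2 * h + a - 5 + i))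
        (fun i => y t (2 * h + a - 5 + i))
        (fun i hi => hY2 (by omega) (2 * h + a - 5 + i) (by omega))
        (fun i hi => hY1 (by omega) (2 * h + a - 5 + i) (by omega)) hc
        (fun i hi => hex (2 * h + a - 5 + i) (by omega))
      exact fin (2 * h + a - 5) (by omega) b1 b2
    · -- sixth pattern
      subst q1
      subst q2
      have hc := cntX hOne 14 8
        [(0, 0), (0, 5), (0, 7), (0, 8), (1, 0), (1, 1), (1, 2), (1, 5), (1, 6)] (by decide) (by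
        simp only [List.mem_cons, List.not_mem_nil, or_false, forall_eq_or_imp, forall_eq]
        exact ⟨Q c1 (by omega) (by omega), Q c5 (by omega) (by omega), Q c6 (by omega) (by omega),
          Q c7 (by omega) (by omega), Q c2 (by omega) (by omega), Q c3 (by omega) (by omega),
          Q c4 (by omega) (by omega), Q c8 (by omega) (by omega), Q c9 (by omega) (by omega)⟩)
      obtain ⟨b1, b2⟩ := KL6 (fun i => y 15 (8 + i)) (fun i => y 14 (8 + i))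
        (fun i hi => hY1 (by omega) (8 + i) (by omega)) hc (fun i hi => hex (8 + i) (by omega))
      exact fin 8 (by omega) b1 b2

theorem GRWX (h T T' : ℕ) (X : ℕ → ℕ → Prop) (y : ℕ → ℕ → Bool) (hh : 4 ≤ h)
    (hOne : OneX X y) (hYR : YR T (2 * h + 12) y) (hT : T' ≤ T)
    (hodd : ∀ t, h + 2 ≤ t → t ≤ T' → t % 2 = 1 → TpX X (t - 1) 0)
    (heven : ∀ t, h + 2 ≤ t → t ≤ T' → t % 2 = 0 → KPX h T X t)
    (hbase : ∀ r ≤ 2 * (h + 1), y (h + 1) r = false) :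
    ∀ t, h + 1 ≤ t → t ≤ T' → ∀ r, r ≤ 2 * t → r ≤ 2 * h + 12 → y t r = false := by
  intro t ht
  induction t, ht using Nat.le_induction with
  | base =>
    intro _ r hr _
    exact hbase r hr
  | succ t ht ih =>
    intro ht'
    refine KILX h T (t + 1) X y hh hOne hYR (by omega) (by omega)
      (fun h2 => hodd (t + 1) (by omega) ht' h2) (fun h2 => heven (t + 1) (by omega) ht' h2) ?_
    intro r hr hr'
    exact ih (by omega) r hr hr'

/-- the cells used at the times `≤ h + 1` -/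
structure YF (h v : ℕ) (X : ℕ → ℕ → Prop) : Prop where
  y1 : ∀ i, 4 * i + 4 ≤ 2 * h → X (v - 1) (4 * i) ∧ X 0 (4 * i + 2) ∧ X 0 (4 * i + 3) ∧ X 0 (4 * i + 4)
  y2 : ∀ e, e % 2 = 0 → 2 ≤ e → e ≤ h → X e (2 * e - 1) ∧ X (e + 1) (2 * e - 1) ∧ X (e + 1) (2 * e) ∧
    X (e + 1) (2 * e + 1)
  y3 : ∀ t, t % 2 = 1 → t < h → X t (2 * h + 2) ∧ X (t + 1) (2 * h + 2) ∧ X (t + 1) (2 * h + 3) ∧
    X (t + 1) (2 * h + 4)
  y4 : ∀ e, e % 2 = 0 → 2 ≤ e → e ≤ h → X e 0 ∧ X (e + 1) 0 ∧ X (e + 1) 1 ∧ X (e + 1) 2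
  y5 : X 1 0 ∧ X 1 1 ∧ X 2 0 ∧ X 2 3

theorem YSTX_tp {h : ℕ} {X : ℕ → ℕ → Prop} {y : ℕ → ℕ → Bool}
    (hO : OneX X y) (hY : YR (h + 2) (2 * h + 2) y) (t r : ℕ) (ht : t ≤ h) (hr : r ≤ 2 * h + 2)
    (x0 : X t r) (x1 : X (t + 1) r) (x2 : X (t + 1) (r + 1)) (x3 : X (t + 1) (r + 2)) :
    y t r = false ∧ y (t + 1) r = false ∧ y (t + 1) (r + 1) = false ∧ y (t + 1) (r + 2) = false := by
  refine YST_four AM1 KLB hO.one t r (t + 1) r (t + 1) (r + 1) (t + 1) (r + 2) ?_ x0 x1 x2 x3 rfl rfl rfl rfl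
    (hY t (by omega) r hr)
  simp

theorem YSTX (h v : ℕ) (X : ℕ → ℕ → Prop) (y : ℕ → ℕ → Bool) (hh : 4 ≤ h) (hh2 : h % 2 = 0) (hv : h + 3 ≤ v)
    (hF : YF h v X) (hO : OneX X y) (hY : YR (h + 2) (2 * h + 2) y)
    (hw : ∀ i, 4 * i + 4 ≤ 2 * h → y (v - 1) (4 * i) = ex1 (y 0 (4 * i + 2)) (y 0 (4 * i + 3)) (y 0 (4 * i + 4))) :
    SC h y ∧ y 0 2 = false ∧ y 0 3 = false := by
  have tp := YSTX_tp hO hY
  have wr : ∀ i, 4 * i + 4 ≤ 2 * h → y 0 (4 * i + 2) = false ∧ y 0 (4 * i + 3) = false ∧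
      y 0 (4 * i + 4) = false := by
    intro i hi
    obtain ⟨a0, a1, a2, a3⟩ := hF.y1 i hi
    have h5 := YST_four AM1 KLB hO.one (v - 1) (4 * i) 0 (4 * i + 2) 0 (4 * i + 3) 0 (4 * i + 4)
      (by
        have hv : v - 1 ≠ 0 := by omega
        simp [hv]) a0 a1 a2 a3 rfl rfl rfl rfl (hw i hi)
    exact h5.2
  have o3 : ∀ t, t % 2 = 1 → t < h → y t (2 * h + 2) = false ∧ y (t + 1) (2 * h + 2) = false ∧
      y (t + 1) (2 * h + 3) = false := by
    intro t ht hth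
    obtain ⟨c0, c1, c2, c3⟩ := hF.y3 t ht hth
    obtain ⟨b0, b1, b2, -⟩ := tp t (2 * h + 2) (by omega) (by omega) c0 c1 c2 c3
    exact ⟨b0, b1, b2⟩
  refine ⟨⟨?_, ?_, ?_, ?_, ?_, ?_, ?_⟩, (wr 0 (by omega)).1, (wr 0 (by omega)).2.1⟩
  · intro t ht r hr
    exact hY t (by omega) r (by omega)
  · intro j hj hjh
    obtain ⟨i, rfl⟩ : ∃ i, j = i + 1 := ⟨j - 1, by omega⟩
    have h5 := (wr i (by omega)).2.2
    have h6 : 4 * (i + 1) = 4 * i + 4 := by ring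
    rw [h6]
    exact h5
  · intro e he he2 heh
    obtain ⟨a0, a1, a2, a3⟩ := hF.y2 e he he2 heh
    have e1 : 2 * e = 2 * e - 1 + 1 := by omega
    have e2 : 2 * e + 1 = 2 * e - 1 + 2 := by omega
    rw [e1] at a2
    rw [e2] at a3
    have h6 : 2 * (e : ℕ) - 1 + 1 - 1 = 2 * e - 1 := by omega
    have h5 := tp e (2 * e - 1) (by omega) (by omega) a0 a1 (by simpa [h6] using a2) (by simpa using a3)
    rw [← e1, ← e2] at h5
    exact h5
  · intro t ht hth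
    rcases Nat.mod_two_eq_zero_or_one t with h5 | h5
    · obtain ⟨s, rfl⟩ : ∃ s, t = s + 1 := ⟨t - 1, by omega⟩
      exact (o3 s (by omega) (by omega)).2.1
    · exact (o3 t h5 (by omega)).1
  · intro e he he2 heh
    obtain ⟨s, rfl⟩ : ∃ s, e = s + 1 := ⟨e - 1, by omega⟩
    exact (o3 s (by omega) (by omega)).2.2
  · intro e he he2 heh
    obtain ⟨c0, c1, c2, c3⟩ := hF.y4 e he he2 heh
    exact (tp e 0 (by omega) (by omega) c0 c1 c2 c3).2
  · obtain ⟨c0, c1, c2, c3⟩ := hF.y5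
    have h5 := AM1 (fun _ _ => true) y X [(1, 0), (1, 1), (2, 0), (2, 3)] hO.one (by decide) (by
      intro p hp
      simp only [List.mem_cons, List.not_mem_nil, or_false] at hp
      rcases hp with rfl | rfl | rfl | rfl
      · exact ⟨c0, rfl⟩
      · exact ⟨c1, rfl⟩
      · exact ⟨c2, rfl⟩
      · exact ⟨c3, rfl⟩)
    have h6 : [y 1 0, y 1 1, y 2 0, y 2 3].count true ≤ 1 := h5
    have h7 := hY 1 (by omega) 0 (by omega)
    have h8 := hY 1 (by omega) 1 (by omega)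
    simp only [Nat.reduceAdd] at h7 h8
    rw [h7, h8] at h6 ⊢
    exact KLB.2.1 _ _ _ _ h6

/-- the recursion of `y` -/
theorem YRX (v : ℕ) (F : ℤ → Bool) (hF : IsF v F) (ρ σ T R : ℕ) (hR : R + 3 ≤ ρ) (hT : T ≤ v) :
    YR T R (yF v F ((v : ℤ) * ρ + 2 * σ)) :=
  fun t ht r hr => (YRC v F hF _ t r).1 (YVA_pos v t r ρ σ (by omega) (by omega))

theorem YWX (v h : ℕ) (F : ℤ → Bool) (hF : IsF v F) (ρ σ : ℕ) (hρ : 2 * h + 7 ≤ ρ) (hv : 1 ≤ v) :
    ∀ i, 4 * i + 4 ≤ 2 * h → yF v F ((v : ℤ) * ρ + 2 * σ) (v - 1) (4 * i) =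
      ex1 (yF v F ((v : ℤ) * ρ + 2 * σ) 0 (4 * i + 2)) (yF v F ((v : ℤ) * ρ + 2 * σ) 0 (4 * i + 3))
        (yF v F ((v : ℤ) * ρ + 2 * σ) 0 (4 * i + 4)) := by
  intro i hi
  have h2 := (YRC v F hF ((v : ℤ) * ρ + 2 * σ) (v - 1) (4 * i)).1
    (YVA_pos v (v - 1) (4 * i) ρ σ (by omega) (by omega))
  have h3 : v - 1 + 1 = v := by omega
  rw [h2, h3, (YRC v F hF ((v : ℤ) * ρ + 2 * σ) 0 (4 * i)).2,
    (YRC v F hF ((v : ℤ) * ρ + 2 * σ) 0 (4 * i + 1)).2,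
    (YRC v F hF ((v : ℤ) * ρ + 2 * σ) 0 (4 * i + 2)).2]

/-- a zero window -/
theorem GENX (v : ℕ) (F : ℤ → Bool) (ρ σ : ℕ) (hF : IsF v F) (hρ : 5 ≤ ρ) (hv3 : 3 ≤ v) (h : ℕ) (hh : 4 ≤ h)
    (hy : ∀ t < v, ∀ r, r ≤ 2 * t → r ≤ 2 * h + 12 → yF v F ((v : ℤ) * ρ + 2 * σ) t r = false)
    (h02 : yF v F ((v : ℤ) * ρ + 2 * σ) 0 2 = false) (h03 : yF v F ((v : ℤ) * ρ + 2 * σ) 0 3 = false)
    (h01 : yF v F ((v : ℤ) * ρ + 2 * σ) 0 1 = false) (h13 : yF v F ((v : ℤ) * ρ + 2 * σ) 1 3 = false)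
    (hvo : v % 2 = 1) : False := by
  have hS0 : (v : ℤ) * 5 ≤ (v : ℤ) * ρ := by
    have h2 : (5 : ℤ) ≤ ρ := by exact_mod_cast hρ
    exact mul_le_mul_of_nonneg_left h2 (Int.natCast_nonneg v)
  obtain ⟨S, hS⟩ : ∃ S : ℤ, S = (v : ℤ) * ρ + 2 * σ := ⟨_, rfl⟩
  rw [← hS] at hy h02 h03 h01 h13
  have hS1 : 3 * (v : ℤ) + 2 ≤ S := by omega
  obtain ⟨m, ha, hb, hm⟩ := ZWN v F (by omega) hF (S - 3 * v - 2) (by omega)
  obtain ⟨n, hn⟩ : ∃ n : ℕ, (n : ℤ) = S - m := ⟨(S - m).toNat, by omega⟩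
  have hmn : m = S - n := by omega
  have hn1 : v + 1 ≤ n := by omega
  have hn2 : n ≤ 3 * v + 2 := by omega
  rcases Nat.even_or_odd' n with ⟨c, hc | hc⟩
  · by_cases hc1 : c < v
    · have h2 := hy c hc1 0 (by omega) (by omega)
      unfold yF at h2
      have e : S - (v : ℤ) * ((0 : ℕ) : ℤ) - 2 * (c : ℤ) = m := by push_cast; omega
      rw [e, hm] at h2
      exact Bool.noConfusion h2
    · obtain ⟨t, ht⟩ : ∃ t : ℕ, c = v + t := ⟨c - v, by omega⟩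
      have h2 : yF v F S t 2 = false := by
        by_cases ht0 : t = 0
        · rw [ht0]; exact h02
        · exact hy t (by omega) 2 (by omega) (by omega)
      unfold yF at h2
      have e : S - (v : ℤ) * ((2 : ℕ) : ℤ) - 2 * (t : ℤ) = m := by push_cast; omega
      rw [e, hm] at h2
      exact Bool.noConfusion h2
  · obtain ⟨t, ht⟩ : ∃ t : ℕ, n = v + 2 * t := ⟨(n - v) / 2, by omega⟩
    by_cases ht1 : t < v
    · have h2 : yF v F S t 1 = false := by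
        by_cases ht0 : t = 0
        · rw [ht0]; exact h01
        · exact hy t (by omega) 1 (by omega) (by omega)
      unfold yF at h2
      have e : S - (v : ℤ) * ((1 : ℕ) : ℤ) - 2 * (t : ℤ) = m := by push_cast; omega
      rw [e, hm] at h2
      exact Bool.noConfusion h2
    · obtain ⟨u, hu⟩ : ∃ u : ℕ, t = v + u := ⟨t - v, by omega⟩
      have hu1 : u = 0 ∨ u = 1 := by omega
      have h2 : yF v F S u 3 = false := by
        rcases hu1 with h | h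
        · rw [h]; exact h03
        · rw [h]; exact h13
      unfold yF at h2
      have e : S - (v : ℤ) * ((3 : ℕ) : ℤ) - 2 * (u : ℤ) = m := by push_cast; omega
      rw [e, hm] at h2
      exact Bool.noConfusion h2

/-- no two cells of `X` have the sum `v ρ + 2 σ`, all cells have times `< v` and are true: at most one conflict -/
theorem OneX_of (v : ℕ) (F : ℤ → Bool) (ρ σ : ℕ) (X : ℕ → ℕ → Prop) (hodd : v % 2 = 1) (hσ : σ < v)
    (hX : ∀ t r, X t r → t < v ∧ xF v F t r = true)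
    (hs : ∀ t r t' r', X t r → X t' r' → ¬((r + r' = ρ ∧ t + t' = σ) ∨ (r + r' + 2 = ρ ∧ t + t' = σ + v)))
    (hT : ¬Two F ((v : ℤ) * ρ + 2 * σ)) : OneX X (yF v F ((v : ℤ) * ρ + 2 * σ)) := by
  obtain ⟨c1, c2⟩ := CEL v hodd
  have key : ∀ t r t' r', X t r → X t' r' →
      ((v : ℤ) * r + 2 * t) + ((v : ℤ) * r' + 2 * t') ≠ (v : ℤ) * ρ + 2 * σ := by
    intro t r t' r' ho ho' he
    exact hs t r t' r' ho ho' (c2 t r t' r' ρ σ (hX t r ho).1 (hX t' r' ho').1 hσ he)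
  intro t r t' r' ho hy ho' hy'
  by_contra hne
  apply hT
  obtain ⟨ht, hx⟩ := hX t r ho
  obtain ⟨ht', hx'⟩ := hX t' r' ho'
  have e1 : (v : ℤ) * ρ + 2 * σ - (v : ℤ) * r - 2 * t =
      (v : ℤ) * ρ + 2 * σ - ((v : ℤ) * r + 2 * t) := by ring
  have e2 : (v : ℤ) * ρ + 2 * σ - (v : ℤ) * r' - 2 * t' =
      (v : ℤ) * ρ + 2 * σ - ((v : ℤ) * r' + 2 * t') := by ring
  have hy1 : F ((v : ℤ) * ρ + 2 * σ - ((v : ℤ) * r + 2 * t)) = true := by
    rw [← e1]; exact hy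
  have hy2 : F ((v : ℤ) * ρ + 2 * σ - ((v : ℤ) * r' + 2 * t')) = true := by
    rw [← e2]; exact hy'
  refine ⟨(v : ℤ) * r + 2 * t, (v : ℤ) * r' + 2 * t', hx, hy1, hx', hy2, ?_, ?_, ?_, ?_⟩
  · intro h
    exact key t r t r ho ho (by linarith)
  · intro h
    exact key t' r' t' r' ho' ho' (by linarith)
  · intro h
    obtain ⟨a, b⟩ := c1 t r t' r' ht ht' h.symm
    exact hne ⟨a, b⟩
  · intro h
    exact key t r t' r' ho ho' (by linarith)

/-- the generic part: large sums -/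
theorem MAIX (h v : ℕ) (F : ℤ → Bool) (ρ σ : ℕ) (X : ℕ → ℕ → Prop) (hh : 4 ≤ h) (hh2 : h % 2 = 0)
    (hodd : v % 2 = 1) (hv : h + 4 ≤ v) (hF : IsF v F)
    (hYF : YF h v X) (hTp : ∀ t, h + 2 ≤ t → t < v → t % 2 = 1 → TpX X (t - 1) 0)
    (hKP : ∀ t, h + 2 ≤ t → t < v → t % 2 = 0 → KPX h (v - 1) X t)
    (he7 : X (h + 3) (2 * h + 7)) (he8 : X (h + 3) (2 * h + 8)) (hρ : 4 * h + 7 ≤ ρ)
    (hOne : OneX X (yF v F ((v : ℤ) * ρ + 2 * σ))) : False := by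
  have hYR := YRX v F hF ρ σ (v - 1) (2 * h + 12) (by omega) (by omega)
  have hYs := YRX v F hF ρ σ (h + 2) (2 * h + 2) (by omega) (by omega)
  have hYi := YWX v h F hF ρ σ (by omega) (by omega)
  obtain ⟨hSC, y02, y03⟩ := YSTX h v X (yF v F ((v : ℤ) * ρ + 2 * σ)) hh hh2 (by omega) hYF hOne hYs hYi
  have hSTC := STC (STB STA) SPR h (yF v F ((v : ℤ) * ρ + 2 * σ)) hh hh2 hSC
  have hG := GRWX h (v - 1) (v - 1) X (yF v F ((v : ℤ) * ρ + 2 * σ)) hh hOne hYR le_rfl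
    (fun t ht1 ht2 ht3 => hTp t ht1 (by omega) ht3)
    (fun t ht1 ht2 ht3 => hKP t ht1 (by omega) ht3)
    (fun r hr => hSTC (h + 1) le_rfl r hr)
  have hYR3 : YR (h + 3) (2 * h + 10) (yF v F ((v : ℤ) * ρ + 2 * σ)) :=
    fun t ht r hr => hYR t (by omega) r (by omega)
  have hz3 : ∀ t ≤ h + 3, ∀ r ≤ 2 * t, yF v F ((v : ℤ) * ρ + 2 * σ) t r = false := by
    intro t ht r hr
    by_cases htt : t ≤ h + 1
    · exact hSTC t htt r hr
    · exact hG t (by omega) (by omega) r hr (by omega)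
  have hnot : ¬(yF v F ((v : ℤ) * ρ + 2 * σ) (h + 3) (2 * h + 7) = true ∧
      yF v F ((v : ℤ) * ρ + 2 * σ) (h + 3) (2 * h + 8) = true) := by
    rintro ⟨a1, a2⟩
    have := (hOne _ _ _ _ he7 a1 he8 a2).2
    omega
  obtain ⟨y01, y13⟩ := EZR h (yF v F ((v : ℤ) * ρ + 2 * σ)) hh2 hh hYR3 hz3 y02 hnot
  refine GENX v F ρ σ hF (by omega) (by omega) h hh ?_ y02 y03 y01 y13 hodd
  intro t ht r hr1 hr2
  by_cases htt : t ≤ h + 1
  · exact hSTC t htt r hr1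
  · exact hG t (by omega) (by omega) r hr1 hr2

theorem MBIX_val (v : ℕ) (F : ℤ → Bool) (h ρ σ t r : ℕ) (hr : ρ = r + (2 * h + 5)) (ht : t ≤ σ) :
    yF v F ((v : ℤ) * ρ + 2 * σ) t r = xF v F (σ - t) (2 * h + 5) := by
  obtain ⟨u, hu⟩ : ∃ u, σ = t + u := ⟨σ - t, by omega⟩
  have e : σ - t = u := by omega
  rw [e]
  unfold yF xF
  congr 1
  rw [hr, hu]
  push_cast
  ring

/-- the growth part -/
theorem MBIX (h v m : ℕ) (F : ℤ → Bool) (ρ σ : ℕ) (X : ℕ → ℕ → Prop) (hh : 16 ≤ h) (hh2 : h % 2 = 0)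
    (hv : h + 10 ≤ v) (hF : IsF v F)
    (hYF : YF h v X) (hTp : ∀ t, h + 2 ≤ t → t ≤ h + 7 → t % 2 = 1 → TpX X (t - 1) 0)
    (hKP : ∀ t, h + 2 ≤ t → t ≤ h + 7 → t % 2 = 0 → KPX h (h + 9) X t)
    (h5 : ∀ t, m ≤ t → t < v → t % 2 = 0 → xF v F t (2 * h + 5) = true)
    (hρ : 2 * h + 7 ≤ ρ) (hρ' : ρ ≤ 4 * h + 16) (hσ : σ < v) (hσ' : m + h + 7 ≤ σ)
    (hOne : OneX X (yF v F ((v : ℤ) * ρ + 2 * σ))) : False := by
  have hYs := YRX v F hF ρ σ (h + 2) (2 * h + 2) (by omega) (by omega)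
  have hYi := YWX v h F hF ρ σ (by omega) (by omega)
  obtain ⟨hSC, y02, y03⟩ := YSTX h v X (yF v F ((v : ℤ) * ρ + 2 * σ)) (by omega) hh2 (by omega) hYF hOne hYs hYi
  have hST := STC (STB STA) SPR h (yF v F ((v : ℤ) * ρ + 2 * σ)) (by omega) hh2 hSC
  obtain ⟨r, hr⟩ : ∃ r, ρ = r + (2 * h + 5) := ⟨ρ - (2 * h + 5), by omega⟩
  by_cases hc : r ≤ 2 * h
  · obtain ⟨t, ht1, ht2, ht3⟩ : ∃ t, h ≤ t ∧ t ≤ h + 1 ∧ t % 2 = σ % 2 := by
      rcases Nat.mod_two_eq_zero_or_one σ with hs | hs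
      · exact ⟨h, le_rfl, by omega, by omega⟩
      · exact ⟨h + 1, by omega, le_rfl, by omega⟩
    have e1 := hST t ht2 r (by omega)
    have e2 := MBIX_val v F h ρ σ t r hr (by omega)
    have e3 := h5 (σ - t) (by omega) (by omega) (by omega)
    rw [e2, e3] at e1
    exact Bool.noConfusion e1
  · obtain ⟨t, ht1, ht2, ht3⟩ : ∃ t, h + 6 ≤ t ∧ t ≤ h + 7 ∧ t % 2 = σ % 2 := by
      rcases Nat.mod_two_eq_zero_or_one σ with hs | hs
      · exact ⟨h + 6, by omega, by omega, by omega⟩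
      · exact ⟨h + 7, by omega, le_rfl, by omega⟩
    have hYR := YRX v F hF ρ σ (h + 9) (2 * h + 12) (by omega) (by omega)
    have hG := GRWX h (h + 9) (h + 7) X (yF v F ((v : ℤ) * ρ + 2 * σ)) (by omega) hOne hYR (by omega)
      hTp hKP (fun r hr => hST (h + 1) le_rfl r hr)
    have e1 := hG t (by omega) ht2 r (by omega) (by omega)
    have e2 := MBIX_val v F h ρ σ t r hr (by omega)
    have e3 := h5 (σ - t) (by omega) (by omega) (by omega)
    rw [e2, e3] at e1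
    exact Bool.noConfusion e1

end Pool.Agent.U4B
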