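import Pool.Agent.helper13.U4B.ColQ
import Pool.Agent.helper13.U4B.Y
import Pool.Agent.helper5.U4.KP3

/-!
# Project U4, extension: the cells used for `k ≥ 4`
-/

set_option autoImplicit false

namespace Pool.Agent.U4B

open Pool.Agent.UL Pool.Agent.U4

/-- the cells, `T` the last time -/
def Om2 (h T t r : ℕ) : Prop :=
  (t = 0 ∧ 2 ≤ r ∧ r ≤ 2 * h ∧ r % 4 ≠ 1) ∨ (1 ≤ t ∧ t ≤ T ∧ r ≤ 2 * h + 6) ∨
    (t = h + 3 ∧ r ≤ 2 * h + 8) ∨ ((t = 3 * h + 3 ∨ t = 3 * h + 5) ∧ t ≤ T ∧ r = 2 * h + 7)

/-- the true cells -/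
def XM (h v T : ℕ) (x : ℕ → ℕ → Bool) (t r : ℕ) : Prop :=
  t < v ∧ x t r = true ∧ (Om2 h T t r ∨ (t + 1 = v ∧ r % 4 = 0 ∧ r + 4 ≤ 2 * h))

/-- the column from the time `h` on -/
def Col1 (h v : ℕ) (C : ℕ → Bool) (φ : ℕ → ℕ → Prop) : Prop :=
  ∀ B d, 1 ≤ B → d < h → B * h + d ≤ v → (C (B * h + d) = true ↔ φ B d)

theorem Col.c1 {h v : ℕ} {C : ℕ → Bool} {φ : ℕ → ℕ → Prop} (hC : Col h v C φ) : Col1 h v C φ :=
  fun B d _ hd hv => hC B d hd hv

theorem Col.c1q {h v : ℕ} {C : ℕ → Bool} {φ ψ : ℕ → ℕ → Prop}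
    (hC : Col h v C φ) (hf : ∀ B d, 1 ≤ B → (φ B d ↔ ψ B d)) : Col1 h v C ψ :=
  fun B d hB hd hv => (hC B d hd hv).trans (hf B d hB)

/-- the columns from the time `h` on -/
structure CF (h v : ℕ) (x : ℕ → ℕ → Bool) : Prop where
  m1 : Col h v (fun t => x t (2 * h - 1)) cM1
  f0 : Col h v (fun t => x t (2 * h)) c0
  f1 : Col h v (fun t => x t (2 * h + 1)) c1
  f2 : Col h v (fun t => x t (2 * h + 2)) c2
  f3 : Col h v (fun t => x t (2 * h + 3)) c3
  f4 : Col h v (fun t => x t (2 * h + 4)) c4
  f5 : Col1 h v (fun t => x t (2 * h + 5)) c5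
  f6 : Col1 h v (fun t => x t (2 * h + 6)) c6
  f7 : Col h v (fun t => x t (2 * h + 7)) c7x
  f8 : Col1 h v (fun t => x t (2 * h + 8)) c8x

theorem KPB (k q h v T : ℕ) (x : ℕ → ℕ → Bool) (hpar : Par1 k q h v) (hk : 4 ≤ k) (hC : CF h v x)
    (t : ℕ) (ht1 : h + 2 ≤ t) (ht2 : t < v) (ht3 : t % 2 = 0) (hT : T < v) (htT : t ≤ T)
    (hTT : T + 1 = v ∨ t + 2 ≤ T) : KPX h T (XM h v T x) t := by
  obtain ⟨M1, C0, C1, C2, C3, C4, C5, C6, C7, C8⟩ := hC
  replace M1 := Col.c1 M1
  replace C0 := Col.c1 C0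
  replace C1 := Col.c1 C1
  replace C2 := Col.c1 C2
  replace C3 := Col.c1 C3
  replace C4 := Col.c1 C4
  replace C7 := Col.c1 C7
  obtain ⟨h16, hh16⟩ := hpar.h16 hk
  have hvo := hpar.odd
  have hv0 : v + 1 = 2 * (h * q) + h := by
    have h2 := hpar.hv
    have h5 : 2 * h * q = 2 * (h * q) := by ring
    rwa [h5] at h2
  have hv : 3 * h ≤ v + 1 := hpar.base.2.2.1
  have hv5 : 3 * h ≤ v → 5 * h ≤ v + 1 := by
    intro h3
    rcases Nat.lt_or_ge q 2 with hq | hq
    · have := hpar.hq
      have := hpar.one (by omega)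
      omega
    · exact hpar.five hq
  have val : ∀ (r : ℕ) (φ : ℕ → ℕ → Prop), Col1 h v (fun t => x t r) φ → ∀ B d s, B * h + d = s → d < h →
      s < v → h ≤ s ∧ s ≤ T → r ≤ 2 * h + 6 → φ B d → XM h v T x s r := by
    intro r φ hC B d s hs hd hlt hT hr hφ
    have hB : 1 ≤ B := by
      rcases Nat.eq_zero_or_pos B with h0 | h0
      · subst h0
        omega
      · exact h0
    have h6 := (hC B d hB hd (by omega)).mpr hφ
    rw [hs] at h6
    exact ⟨hlt, h6, Or.inl (Or.inr (Or.inl ⟨by omega, by omega, hr⟩))⟩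
  have e7 : h + 3 ≤ T → XM h v T x (h + 3) (2 * h + 7) := by
    intro h3
    have h6 := (C7 1 3 le_rfl (by omega) (by omega)).mpr (by unfold c7x; omega)
    have h7 : 1 * h + 3 = h + 3 := by omega
    rw [h7] at h6
    exact ⟨by omega, h6, Or.inl (Or.inr (Or.inr (Or.inl ⟨rfl, by omega⟩)))⟩
  have e8 : h + 3 ≤ T → XM h v T x (h + 3) (2 * h + 8) := by
    intro h3
    have h6 := (C8 1 3 le_rfl (by omega) (by omega)).mpr (by unfold c8x; omega)
    have h7 : 1 * h + 3 = h + 3 := by omega
    rw [h7] at h6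
    exact ⟨by omega, h6, Or.inl (Or.inr (Or.inr (Or.inl ⟨rfl, by omega⟩)))⟩
  have e73 : 3 * h + 3 ≤ T → XM h v T x (3 * h + 3) (2 * h + 7) := by
    intro h3
    have h6 := (C7 3 3 (by omega) (by omega) (by omega)).mpr (by unfold c7x; omega)
    exact ⟨by omega, h6, Or.inl (Or.inr (Or.inr (Or.inr ⟨Or.inl rfl, by omega, rfl⟩)))⟩
  have e75 : 3 * h + 5 ≤ T → XM h v T x (3 * h + 5) (2 * h + 7) := by
    intro h3
    have h6 := (C7 3 5 (by omega) (by omega) (by omega)).mpr (by unfold c7x; omega)
    exact ⟨by omega, h6, Or.inl (Or.inr (Or.inr (Or.inr ⟨Or.inr rfl, by omega, rfl⟩)))⟩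
  obtain ⟨B, hB⟩ : ∃ B, B = t / h := ⟨_, rfl⟩
  obtain ⟨d, hd⟩ : ∃ d, d = t % h := ⟨_, rfl⟩
  have hlt : d < h := by
    rw [hd]
    exact Nat.mod_lt _ (by omega)
  have e : B * h + d = t := by
    rw [hB, hd, Nat.mul_comm]
    exact Nat.div_add_mod _ _
  have hd2 : d % 2 = 0 := by
    rw [← e] at ht3
    obtain ⟨c, hc⟩ : ∃ c, h = 2 * c := ⟨h / 2, by omega⟩
    rw [hc] at ht3
    have : B * (2 * c) = 2 * (B * c) := by ring
    rw [this] at ht3
    omega
  have hd1 : d + 1 < h := by omega
  have eB1 : (B + 1) * h = B * h + h := Nat.succ_mul B h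
  clear hB hd
  have hBcase : B = 1 ∨ B = 2 ∨ B = 3 ∨ 4 ≤ B := by
    rcases Nat.eq_zero_or_pos B with h0 | h0
    · subst h0
      omega
    · omega
  rcases hBcase with rfl | rfl | rfl | hB4
  · -- B = 1
    rcases Nat.lt_or_ge d 3 with hd3 | hd3
    · have hdd : d = 2 := by omega
      subst hdd
      have et : t = h + 2 := by omega
      subst et
      refine Or.inr (Or.inr (Or.inl ⟨rfl, by omega, ?_, ?_, ?_, ?_, ?_, ?_, ?_, ?_, ?_, ?_⟩))
      · exact val _ _ M1 1 2 _ e hlt (by omega) (by omega) (by omega) (Or.inr rfl)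
      · exact val _ _ C4 1 2 _ e hlt (by omega) (by omega) (by omega) (KP3_v4_1 _ (by norm_num))
      · exact val _ _ C6 1 2 _ e hlt (by omega) (by omega) (by omega) (KP3_v6_1 _ (by norm_num))
      · exact val _ _ M1 1 3 _ (by omega) hd1 (by omega) (by omega) (by omega) (Or.inr rfl)
      · exact val _ _ C0 1 3 _ (by omega) hd1 (by omega) (by omega) (by omega) (Or.inr (Or.inl ⟨rfl, by norm_num⟩))
      · exact val _ _ C1 1 3 _ (by omega) hd1 (by omega) (by omega) (by omega) ⟨by norm_num, by norm_num⟩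
      · exact val _ _ C4 1 3 _ (by omega) hd1 (by omega) (by omega) (by omega) (KP3_v4_1 _ (by norm_num))
      · exact val _ _ C5 1 3 _ (by omega) hd1 (by omega) (by omega) (by omega) (KP3_v5_1 _ (by norm_num))
      · exact e7 (by omega)
      · exact e8 (by omega)
    · rcases Nat.lt_or_ge d 5 with hd5 | hd5
      · have hdd : d = 4 := by omega
        subst hdd
        refine Or.inr (Or.inl ⟨by omega, by omega, 3, le_refl _, by norm_num, ?_, ?_, ?_, ?_⟩)
        · exact val _ _ C3 1 4 _ e hlt (by omega) (by omega) (by omega) (KP3_v3_1 _ (by norm_num) (by norm_num))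
        · exact val _ _ C4 1 4 _ e hlt (by omega) (by omega) (by omega) (KP3_v4_1 _ (by norm_num))
        · exact val _ _ C3 1 5 _ (by omega) hd1 (by omega) (by omega) (by omega) (KP3_v3_1 _ (by norm_num) (by norm_num))
        · exact val _ _ C6 1 5 _ (by omega) hd1 (by omega) (by omega) (by omega) (KP3_v6_1 _ (by norm_num))
      · rcases Nat.lt_or_ge d 7 with hd7 | hd7
        · have hdd : d = 6 := by omega
          subst hdd
          refine Or.inl ⟨by omega, 4, by norm_num, le_refl _, ?_, ?_, ?_⟩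
          · exact val _ _ C4 1 6 _ e hlt (by omega) (by omega) (by omega) (KP3_v4_1 _ (by norm_num))
          · exact val _ _ C5 1 6 _ e hlt (by omega) (by omega) (by omega) (KP3_v5_1 _ (by norm_num))
          · exact val _ _ C6 1 6 _ e hlt (by omega) (by omega) (by omega) (KP3_v6_1 _ (by norm_num))
        · have hm : d % 4 = 0 ∨ d % 4 = 2 := by omega
          rcases hm with hm | hm
          · refine Or.inl ⟨by omega, 3, le_refl _, by norm_num, ?_, ?_, ?_⟩
            · exact val _ _ C3 1 d _ e hlt (by omega) (by omega) (by omega) (KP3_v3_1 _ (by omega) (by omega))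
            · exact val _ _ C4 1 d _ e hlt (by omega) (by omega) (by omega) (KP3_v4_1 _ (by omega))
            · exact val _ _ C5 1 d _ e hlt (by omega) (by omega) (by omega) (KP3_v5_1 _ (Or.inr ⟨by omega, hd2⟩))
          · have L : XM h v T x (t + 2) (2 * h + 3) ∧ XM h v T x (t + 2) (2 * h + 4) ∧ XM h v T x (t + 2) (2 * h + 5) := by
              rcases Nat.lt_or_ge (d + 2) h with h2 | h2
              · exact ⟨val _ _ C3 1 (d + 2) _ (by omega) h2 (by omega) (by omega) (by omega) (KP3_v3_1 _ (by omega) (by omega)),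
                  val _ _ C4 1 (d + 2) _ (by omega) h2 (by omega) (by omega) (by omega) (KP3_v4_1 _ (by omega)),
                  val _ _ C5 1 (d + 2) _ (by omega) h2 (by omega) (by omega) (by omega) (KP3_v5_1 _ (Or.inr ⟨by omega, by omega⟩))⟩
              · exact ⟨val _ _ C3 2 0 _ (by omega) (by omega) (by omega) (by omega) (by omega) (KP3_v3_2 _),
                  val _ _ C4 2 0 _ (by omega) (by omega) (by omega) (by omega) (by omega) (KP3_v4_2 _ (by norm_num)),
                  val _ _ C5 2 0 _ (by omega) (by omega) (by omega) (by omega) (by omega) (KP3_v5_e _ _ (le_refl _) (by norm_num) (by norm_num))⟩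
            refine Or.inr (Or.inr (Or.inr (Or.inr (Or.inl ⟨by omega, by omega, 4, le_refl _, by norm_num,
              ⟨?_, ?_, ?_, ?_⟩, ?_, ?_, ?_, L.1, L.2.1, L.2.2⟩))))
            · exact val _ _ M1 1 d _ e hlt (by omega) (by omega) (by omega) (Or.inr rfl)
            · exact val _ _ M1 1 (d + 1) _ (by omega) hd1 (by omega) (by omega) (by omega) (Or.inr rfl)
            · have e9 : 2 * h + 4 - 5 + 1 = 2 * h := by omega
              rw [e9]
              exact val _ _ C0 1 (d + 1) _ (by omega) hd1 (by omega) (by omega) (by omega) (Or.inr (Or.inl ⟨rfl, by omega⟩))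
            · have e9 : 2 * h + 4 - 5 + 2 = 2 * h + 1 := by omega
              rw [e9]
              exact val _ _ C1 1 (d + 1) _ (by omega) hd1 (by omega) (by omega) (by omega) ⟨by norm_num, by omega⟩
            · exact val _ _ C4 1 d _ e hlt (by omega) (by omega) (by omega) (KP3_v4_1 _ (by omega))
            · exact val _ _ C5 1 d _ e hlt (by omega) (by omega) (by omega) (KP3_v5_1 _ (Or.inr ⟨by omega, hd2⟩))
            · exact val _ _ C4 1 (d + 1) _ (by omega) hd1 (by omega) (by omega) (by omega) (KP3_v4_1 _ (by omega))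
  · -- B = 2
    refine Or.inl ⟨by omega, 3, le_refl _, by norm_num, ?_, ?_, ?_⟩
    · exact val _ _ C3 2 d _ e hlt (by omega) (by omega) (by omega) (KP3_v3_2 _)
    · exact val _ _ C4 2 d _ e hlt (by omega) (by omega) (by omega) (KP3_v4_2 _ hd2)
    · exact val _ _ C5 2 d _ e hlt (by omega) (by omega) (by omega) (KP3_v5_e _ _ (le_refl _) (by norm_num) hd2)
  · -- B = 3
    rcases Nat.lt_or_ge d 1 with hd1' | hd1'
    · have hdd : d = 0 := by omega
      subst hdd
      refine Or.inl ⟨by omega, 3, le_refl _, by norm_num, ?_, ?_, ?_⟩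
      · exact val _ _ C3 3 0 _ e hlt (by omega) (by omega) (by omega) (KP3_v3_3 _ (by norm_num))
      · exact val _ _ C4 3 0 _ e hlt (by omega) (by omega) (by omega) (KP3_v4_3 _ (Or.inl rfl))
      · exact val _ _ C5 3 0 _ e hlt (by omega) (by omega) (by omega) (KP3_v5_o _ _ (le_refl _) (by norm_num) (by norm_num))
    · rcases Nat.lt_or_ge d 3 with hd3 | hd3
      · have hdd : d = 2 := by omega
        subst hdd
        have et : t = 3 * h + 2 := by omega
        subst et
        refine Or.inr (Or.inr (Or.inr (Or.inl ⟨rfl, by omega, ⟨?_, ?_, ?_, ?_⟩, ⟨?_, ?_, ?_, ?_⟩⟩)))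
        · exact val _ _ C0 3 2 _ e hlt (by omega) (by omega) (by omega) (Or.inr (Or.inr ⟨le_refl _, by norm_num⟩))
        · exact val _ _ C0 3 3 _ (by omega) hd1 (by omega) (by omega) (by omega) (Or.inr (Or.inr ⟨le_refl _, by norm_num⟩))
        · exact val _ _ C1 3 3 _ (by omega) hd1 (by omega) (by omega) (by omega) ⟨by norm_num, by norm_num⟩
        · exact val _ _ C2 3 3 _ (by omega) hd1 (by omega) (by omega) (by omega) (Or.inr (Or.inr ⟨le_refl _, by norm_num, by norm_num⟩))
        · exact val _ _ C5 3 2 _ e hlt (by omega) (by omega) (by omega) (KP3_v5_o _ _ (le_refl _) (by norm_num) (by norm_num))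
        · exact val _ _ C5 3 3 _ (by omega) hd1 (by omega) (by omega) (by omega) (KP3_v5_o _ _ (le_refl _) (by norm_num) (by norm_num))
        · exact val _ _ C6 3 3 _ (by omega) hd1 (by omega) (by omega) (by omega) (KP3_v6_3 _ (Or.inl rfl))
        · exact e73 (by omega)
      · rcases Nat.lt_or_ge d 5 with hd5 | hd5
        · have hdd : d = 4 := by omega
          subst hdd
          have et : t = 3 * h + 4 := by omega
          subst et
          refine Or.inr (Or.inl ⟨by omega, by omega, 4, by norm_num, le_refl _, ?_, ?_, ?_, ?_⟩)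
          · exact val _ _ C4 3 4 _ e hlt (by omega) (by omega) (by omega) (KP3_v4_3 _ (Or.inr ⟨le_refl _, by norm_num⟩))
          · exact val _ _ C5 3 4 _ e hlt (by omega) (by omega) (by omega) (KP3_v5_o _ _ (le_refl _) (by norm_num) (by norm_num))
          · exact val _ _ C4 3 5 _ (by omega) hd1 (by omega) (by omega) (by omega) (KP3_v4_3 _ (Or.inr ⟨by norm_num, by norm_num⟩))
          · exact e75 (by omega)
        · have hm : d % 4 = 0 ∨ d % 4 = 2 := by omega
          rcases hm with hm | hm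
          · refine Or.inl ⟨by omega, 4, by norm_num, le_refl _, ?_, ?_, ?_⟩
            · exact val _ _ C4 3 d _ e hlt (by omega) (by omega) (by omega) (KP3_v4_3 _ (Or.inr ⟨by omega, by omega⟩))
            · exact val _ _ C5 3 d _ e hlt (by omega) (by omega) (by omega) (KP3_v5_o _ _ (le_refl _) (by norm_num) (by omega))
            · exact val _ _ C6 3 d _ e hlt (by omega) (by omega) (by omega) (KP3_v6_3 _ (Or.inr ⟨by omega, hd2⟩))
          · have L : XM h v T x (t + 2) (2 * h + 4) ∧ XM h v T x (t + 2) (2 * h + 5) ∧ XM h v T x (t + 2) (2 * h + 6) := by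
              rcases Nat.lt_or_ge (d + 2) h with h2 | h2
              · exact ⟨val _ _ C4 3 (d + 2) _ (by omega) h2 (by omega) (by omega) (by omega) (KP3_v4_3 _ (Or.inr ⟨by omega, by omega⟩)),
                  val _ _ C5 3 (d + 2) _ (by omega) h2 (by omega) (by omega) (by omega) (KP3_v5_o _ _ (le_refl _) (by norm_num) (by omega)),
                  val _ _ C6 3 (d + 2) _ (by omega) h2 (by omega) (by omega) (by omega) (KP3_v6_3 _ (Or.inr ⟨by omega, by omega⟩))⟩
              · exact ⟨val _ _ C4 4 0 _ (by omega) (by omega) (by omega) (by omega) (by omega) (KP3_v4_e _ _ (le_refl _) (by norm_num)),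
                  val _ _ C5 4 0 _ (by omega) (by omega) (by omega) (by omega) (by omega) (KP3_v5_e _ _ (by norm_num) (by norm_num) (by norm_num)),
                  val _ _ C6 4 0 _ (by omega) (by omega) (by omega) (by omega) (by omega) (KP3_v6_4 _ _ (le_refl _) (by norm_num))⟩
            refine Or.inr (Or.inr (Or.inr (Or.inr (Or.inl ⟨by omega, by omega, 5, by norm_num, le_refl _,
              ⟨?_, ?_, ?_, ?_⟩, ?_, ?_, ?_, L.1, L.2.1, L.2.2⟩))))
            · exact val _ _ C0 3 d _ e hlt (by omega) (by omega) (by omega) (Or.inr (Or.inr ⟨le_refl _, by norm_num⟩))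
            · exact val _ _ C0 3 (d + 1) _ (by omega) hd1 (by omega) (by omega) (by omega) (Or.inr (Or.inr ⟨le_refl _, by norm_num⟩))
            · exact val _ _ C1 3 (d + 1) _ (by omega) hd1 (by omega) (by omega) (by omega) ⟨by norm_num, by omega⟩
            · exact val _ _ C2 3 (d + 1) _ (by omega) hd1 (by omega) (by omega) (by omega) (Or.inr (Or.inr ⟨le_refl _, by norm_num, by omega⟩))
            · exact val _ _ C5 3 d _ e hlt (by omega) (by omega) (by omega) (KP3_v5_o _ _ (le_refl _) (by norm_num) (by omega))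
            · exact val _ _ C6 3 d _ e hlt (by omega) (by omega) (by omega) (KP3_v6_3 _ (Or.inr ⟨by omega, hd2⟩))
            · exact val _ _ C5 3 (d + 1) _ (by omega) hd1 (by omega) (by omega) (by omega) (KP3_v5_o _ _ (le_refl _) (by norm_num) (by omega))
  · -- 4 ≤ B
    have hBh : 4 * h ≤ B * h := Nat.mul_le_mul_right h hB4
    rcases Nat.mod_two_eq_zero_or_one B with he | he
    · refine Or.inl ⟨by omega, 4, by norm_num, le_refl _, ?_, ?_, ?_⟩
      · exact val _ _ C4 B d _ e hlt (by omega) (by omega) (by omega) (KP3_v4_e _ _ hB4 he)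
      · exact val _ _ C5 B d _ e hlt (by omega) (by omega) (by omega) (KP3_v5_e _ _ (by omega) he hd2)
      · exact val _ _ C6 B d _ e hlt (by omega) (by omega) (by omega) (KP3_v6_4 _ _ hB4 hd2)
    · have hB5 : 5 ≤ B := by omega
      have hm : d % 4 = 0 ∨ d % 4 = 2 := by omega
      rcases hm with hm | hm
      · refine Or.inl ⟨by omega, 4, by norm_num, le_refl _, ?_, ?_, ?_⟩
        · exact val _ _ C4 B d _ e hlt (by omega) (by omega) (by omega) (KP3_v4_o _ _ hB5 he (by omega))
        · exact val _ _ C5 B d _ e hlt (by omega) (by omega) (by omega) (KP3_v5_o _ _ (by omega) he (by omega))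
        · exact val _ _ C6 B d _ e hlt (by omega) (by omega) (by omega) (KP3_v6_4 _ _ hB4 hd2)
      · have ht5 : t + 3 ≤ v := by
          have hBq : B ≤ 2 * q := by
            by_contra hcon
            have h9 := Nat.mul_le_mul_right h (not_le.mp hcon)
            have h10 : (2 * q).succ * h = 2 * (h * q) + h := by
              rw [Nat.succ_mul]
              ring
            rw [h10] at h9
            omega
          have hBq2 : B + 1 ≤ 2 * q := by omega
          have h9 := Nat.mul_le_mul_right h hBq2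
          have h10 : (2 * q) * h = 2 * (h * q) := by ring
          rw [h10, eB1] at h9
          omega
        have L : XM h v T x (t + 2) (2 * h + 4) ∧ XM h v T x (t + 2) (2 * h + 5) ∧ XM h v T x (t + 2) (2 * h + 6) := by
          rcases Nat.lt_or_ge (d + 2) h with h2 | h2
          · exact ⟨val _ _ C4 B (d + 2) _ (by omega) h2 (by omega) (by omega) (by omega) (KP3_v4_o _ _ hB5 he (by omega)),
              val _ _ C5 B (d + 2) _ (by omega) h2 (by omega) (by omega) (by omega) (KP3_v5_o _ _ (by omega) he (by omega)),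
              val _ _ C6 B (d + 2) _ (by omega) h2 (by omega) (by omega) (by omega) (KP3_v6_4 _ _ hB4 (by omega))⟩
          · exact ⟨val _ _ C4 (B + 1) 0 _ (by omega) (by omega) (by omega) (by omega) (by omega) (KP3_v4_e _ _ (by omega) (by omega)),
              val _ _ C5 (B + 1) 0 _ (by omega) (by omega) (by omega) (by omega) (by omega) (KP3_v5_e _ _ (by omega) (by omega) (by norm_num)),
              val _ _ C6 (B + 1) 0 _ (by omega) (by omega) (by omega) (by omega) (by omega) (KP3_v6_4 _ _ (by omega) (by norm_num))⟩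
        refine Or.inr (Or.inr (Or.inr (Or.inr (Or.inl ⟨by omega, by omega, 5, by norm_num, le_refl _,
          ⟨?_, ?_, ?_, ?_⟩, ?_, ?_, ?_, L.1, L.2.1, L.2.2⟩))))
        · exact val _ _ C0 B d _ e hlt (by omega) (by omega) (by omega) (Or.inr (Or.inr ⟨by omega, he⟩))
        · exact val _ _ C0 B (d + 1) _ (by omega) hd1 (by omega) (by omega) (by omega) (Or.inr (Or.inr ⟨by omega, he⟩))
        · exact val _ _ C1 B (d + 1) _ (by omega) hd1 (by omega) (by omega) (by omega) ⟨he, by omega⟩
        · exact val _ _ C2 B (d + 1) _ (by omega) hd1 (by omega) (by omega) (by omega) (Or.inr (Or.inr ⟨by omega, he, by omega⟩))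
        · exact val _ _ C5 B d _ e hlt (by omega) (by omega) (by omega) (KP3_v5_o _ _ (by omega) he (by omega))
        · exact val _ _ C6 B d _ e hlt (by omega) (by omega) (by omega) (KP3_v6_4 _ _ hB4 hd2)
        · exact val _ _ C5 B (d + 1) _ (by omega) hd1 (by omega) (by omega) (by omega) (KP3_v5_o _ _ (by omega) he (by omega))


end Pool.Agent.U4B
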