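import Pool.Agent.helper13.U4B.Y
import Pool.Agent.helper56.U4.XOF
import Pool.Agent.helper31.U4.TWA

/-!
# Project U4, extension: a finite check for one `v`
-/

set_option autoImplicit false

namespace Pool.Agent.U4B

open Pool.Agent.UL Pool.Agent.U4

/-! ## The sequence as a number -/

/-- one step of the recursion for all bits at once -/
def wrd (v L N : ℕ) : ℕ :=
  (((((N <<< 2) ^^^ (N <<< (v + 2))) ^^^ (N <<< (2 * v + 2))) ^^^
    (((N <<< 2) &&& (N <<< (v + 2))) &&& (N <<< (2 * v + 2)))) % 2 ^ L) ||| 1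

theorem ex1_bits (a b c : Bool) : ex1 a b c = (((a ^^ b) ^^ c) ^^ ((a && b) && c)) := by
  unfold ex1
  revert a b c
  decide

theorem numF (v L N : ℕ) (F : ℤ → Bool) (hF : IsF v F) (h : wrd v L N = N) :
    ∀ m < L, F (m : ℤ) = N.testBit m := by
  intro m
  induction m using Nat.strong_induction_on with
  | _ m ih =>
    intro hm
    have sub : ∀ d : ℕ, 0 < d → F ((m : ℤ) - (d : ℤ)) = (decide (m ≥ d) && N.testBit (m - d)) := by
      intro d hd
      by_cases hdm : d ≤ m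
      · have e : (m : ℤ) - d = ((m - d : ℕ) : ℤ) := by omega
        rw [e, ih (m - d) (by omega) (by omega)]
        simp [hdm]
      · rw [hF.neg _ (by omega)]
        have : ¬(m ≥ d) := hdm
        simp [this]
    rcases Nat.eq_zero_or_pos m with h0 | h0
    · subst h0
      rw [← h]
      unfold wrd
      rw [Nat.testBit_or]
      simpa using hF.zero
    · have e1 := hF.recF (m : ℤ) (by omega)
      have e2 := sub 2 (by omega)
      have e3 := sub (v + 2) (by omega)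
      have e4 := sub (2 * v + 2) (by omega)
      have c1 : (m : ℤ) - ((2 : ℕ) : ℤ) = (m : ℤ) - 2 := by push_cast; ring
      have c2 : (m : ℤ) - ((v + 2 : ℕ) : ℤ) = (m : ℤ) - v - 2 := by push_cast; ring
      have c3 : (m : ℤ) - ((2 * v + 2 : ℕ) : ℤ) = (m : ℤ) - 2 * v - 2 := by push_cast; ring
      rw [c1] at e2
      rw [c2] at e3
      rw [c3] at e4
      rw [e1, e2, e3, e4, ex1_bits]
      conv_rhs => rw [← h]
      unfold wrd
      rw [Nat.testBit_or, Nat.testBit_mod_two_pow, Nat.testBit_xor, Nat.testBit_xor, Nat.testBit_xor,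
        Nat.testBit_and, Nat.testBit_and, Nat.testBit_shiftLeft, Nat.testBit_shiftLeft, Nat.testBit_shiftLeft]
      have e5 : (1 : ℕ).testBit m = false := by
        obtain ⟨n, rfl⟩ : ∃ n, m = n + 1 := ⟨m - 1, by omega⟩
        simp [Nat.testBit_succ]
      rw [e5]
      simp [hm]

/-! ## Sums -/

def WN (N a : ℕ) : ℕ := (N >>> (a + 1)) <<< (2 * a + 1)

theorem WN_bit (N a s : ℕ) (h : (WN N a).testBit s = true) : 2 * a < s ∧ N.testBit (s - a) = true := by
  unfold WN at h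
  rw [Nat.testBit_shiftLeft, Nat.testBit_shiftRight, Bool.and_eq_true, decide_eq_true_iff] at h
  obtain ⟨h1, h2⟩ := h
  have e : a + 1 + (s - (2 * a + 1)) = s - a := by omega
  rw [e] at h2
  exact ⟨by omega, h2⟩

/-- steps, `a`, at least one, at least two -/
def accG (N : ℕ) : ℕ → ℕ → ℕ → ℕ → ℕ
  | 0, _, _, t => t
  | n + 1, a, o, t => bif N.testBit a then accG N n (a + 1) (o ||| WN N a) (t ||| (o &&& WN N a))
      else accG N n (a + 1) o t

def In1 (N s a : ℕ) : Prop := N.testBit a = true ∧ 2 * a < s ∧ N.testBit (s - a) = true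

theorem accG_sound (N : ℕ) : ∀ n a o t s, (∀ s, o.testBit s = true → ∃ b < a, In1 N s b) →
    (∀ s, t.testBit s = true → ∃ b c, b ≠ c ∧ In1 N s b ∧ In1 N s c) →
    (accG N n a o t).testBit s = true → ∃ b c, b ≠ c ∧ In1 N s b ∧ In1 N s c := by
  intro n
  induction n with
  | zero =>
    intro a o t s _ h2 h3
    exact h2 s h3
  | succ n ih =>
    intro a o t s h1 h2 h3
    unfold accG at h3
    cases hb : N.testBit a with
    | true =>
      rw [hb, cond_true] at h3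
      refine ih _ _ _ s ?_ ?_ h3
      · intro s hs
        rw [Nat.testBit_or, Bool.or_eq_true] at hs
        rcases hs with hs | hs
        · obtain ⟨b, hb1, hb2⟩ := h1 s hs
          exact ⟨b, by omega, hb2⟩
        · exact ⟨a, by omega, hb, WN_bit N a s hs⟩
      · intro s hs
        rw [Nat.testBit_or, Bool.or_eq_true, Nat.testBit_and, Bool.and_eq_true] at hs
        rcases hs with hs | ⟨hs1, hs2⟩
        · exact h2 s hs
        · obtain ⟨b, hb1, hb2⟩ := h1 s hs1
          exact ⟨b, a, by omega, hb2, hb, WN_bit N a s hs2⟩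
    | false =>
      rw [hb, cond_false] at h3
      refine ih _ _ _ s ?_ h2 h3
      intro s hs
      obtain ⟨b, hb1, hb2⟩ := h1 s hs
      exact ⟨b, by omega, hb2⟩

/-- all of an interval of length `2 ^ d` -/
def allR (f : ℕ → Bool) : ℕ → ℕ → Bool
  | 0, s => f s
  | d + 1, s => allR f d s && allR f d (s + 2 ^ d)

theorem allR_sound (f : ℕ → Bool) : ∀ d s, allR f d s = true → ∀ n, s ≤ n → n < s + 2 ^ d → f n = true := by
  intro d
  induction d with
  | zero =>
    intro s h n h1 h2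
    have e : n = s := by
      rw [pow_zero] at h2
      omega
    rw [e]
    exact h
  | succ d ih =>
    intro s h n h1 h2
    unfold allR at h
    rw [Bool.and_eq_true] at h
    rw [pow_succ] at h2
    rcases Nat.lt_or_ge n (s + 2 ^ d) with h3 | h3
    · exact ih s h.1 n h1 h3
    · exact ih (s + 2 ^ d) h.2 n h3 (by omega)

/-- the exceptional sums -/
def exc (v s : ℕ) : Bool :=
  (s == 0) || (s == 2) || (s == 4) || (s == v) || (s == v + 2) || (s == v + 4) || ((s % 2 == 1) && decide (s < v))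

/-- check of the small sums -/
def chkS (v L N A T S : ℕ) : Bool :=
  Nat.beq (wrd v L N) N && Nat.beq (accG N A 0 0 0) T &&
    allR (fun s => decide (S ≤ s) || T.testBit s || exc v s) (Nat.log2 S + 1) 0

theorem chkS_sound (v L N A T S : ℕ) (F : ℤ → Bool) (hF : IsF v F) (hN : N < 2 ^ L)
    (hc : chkS v L N A T S = true) (s : ℕ) (hs : s < S) (he : exc v s = false) : Two F s := by
  unfold chkS at hc
  rw [Bool.and_eq_true, Bool.and_eq_true] at hc
  obtain ⟨⟨c1, c2⟩, c3⟩ := hc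
  have c1' := Nat.eq_of_beq_eq_true c1
  have c2' := Nat.eq_of_beq_eq_true c2
  have hS : S < 2 ^ (Nat.log2 S + 1) := Nat.lt_log2_self
  have c4 := allR_sound _ _ _ c3 s (Nat.zero_le s) (by omega)
  simp only [he, Bool.or_false, Bool.or_eq_true, decide_eq_true_iff] at c4
  have c5 : T.testBit s = true := by
    rcases c4 with c4 | c4
    · omega
    · exact c4
  rw [← c2'] at c5
  obtain ⟨b, c, hbc, ⟨b1, b2, b3⟩, ⟨d1, d2, d3⟩⟩ := accG_sound N A 0 0 0 s (by simp) (by simp) c5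
  have hlt : ∀ i, N.testBit i = true → i < L := by
    intro i hi
    by_contra hcon
    rw [Nat.testBit_lt_two_pow (lt_of_lt_of_le hN (Nat.pow_le_pow_right (by norm_num) (not_lt.mp hcon)))] at hi
    exact Bool.noConfusion hi
  have nf := numF v L N F hF c1'
  have f1 : F (b : ℤ) = true := by rw [nf b (hlt b b1)]; exact b1
  have f2 : F ((s : ℤ) - b) = true := by
    have e : (s : ℤ) - b = ((s - b : ℕ) : ℤ) := by omega
    rw [e, nf _ (hlt _ b3)]; exact b3
  have f3 : F (c : ℤ) = true := by rw [nf c (hlt c d1)]; exact d1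
  have f4 : F ((s : ℤ) - c) = true := by
    have e : (s : ℤ) - c = ((s - c : ℕ) : ℤ) := by omega
    rw [e, nf _ (hlt _ d3)]; exact d3
  exact ⟨b, c, f1, f2, f3, f4, by omega, by omega, by omega, by omega⟩

/-! ## Large sums -/

/-- the cells -/
def xN (N h v t r : ℕ) : Bool := decide (t < v) && decide (r ≤ 2 * h + 8) && N.testBit (v * r + 2 * t)

def bTp (x : ℕ → ℕ → Bool) (t c : ℕ) : Bool := x t c && x (t + 1) c && x (t + 1) (c + 1) && x (t + 1) (c + 2)

theorem bTp_sound {x : ℕ → ℕ → Bool} {t c : ℕ} (h : bTp x t c = true) : TpX (fun t r => x t r = true) t c := by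
  unfold bTp at h
  simp only [Bool.and_eq_true] at h
  exact ⟨h.1.1.1, h.1.1.2, h.1.2, h.2⟩

def b1 (x : ℕ → ℕ → Bool) (t c : ℕ) : Bool := x t c && x t (c + 1) && x t (c + 2)
def b2 (x : ℕ → ℕ → Bool) (t c : ℕ) : Bool := x t c && x t (c + 1) && x (t + 1) c && x (t + 1) (c + 3)
def b5 (x : ℕ → ℕ → Bool) (t c : ℕ) : Bool :=
  bTp x t (c - 5) && x t c && x t (c + 1) && x (t + 1) c && x (t + 2) (c - 1) && x (t + 2) c && x (t + 2) (c + 1)

def bK (h T : ℕ) (x : ℕ → ℕ → Bool) (t : ℕ) : Bool :=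
  (decide (h + 4 ≤ t) && (b1 x t (2 * h + 3) || b1 x t (2 * h + 4))) ||
  (decide (h + 4 ≤ t) && decide (t + 1 ≤ T) && (b2 x t (2 * h + 3) || b2 x t (2 * h + 4))) ||
  (decide (t = h + 2) && decide (t + 1 ≤ T) && x t (2 * h - 1) && x t (2 * h + 4) && x t (2 * h + 6) &&
    x (t + 1) (2 * h - 1) && x (t + 1) (2 * h) && x (t + 1) (2 * h + 1) && x (t + 1) (2 * h + 4) &&
    x (t + 1) (2 * h + 5) && x (t + 1) (2 * h + 7) && x (t + 1) (2 * h + 8)) ||
  (decide (t = 3 * h + 2) && decide (t + 1 ≤ T) && bTp x t (2 * h) && bTp x t (2 * h + 5)) ||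
  (decide (h + 4 ≤ t) && decide (t + 2 ≤ T) && (b5 x t (2 * h + 4) || b5 x t (2 * h + 5))) ||
  (decide (h = 4) && decide (t = 14) && decide (t + 1 ≤ T) && bTp x 14 8 && x 14 13 && x 14 15 && x 14 16 &&
    x 15 13 && x 15 14)

theorem bK_sound {h T : ℕ} {x : ℕ → ℕ → Bool} {t : ℕ} (hk : bK h T x t = true) :
    KPX h T (fun t r => x t r = true) t := by
  unfold bK at hk
  simp only [Bool.or_eq_true, Bool.and_eq_true, decide_eq_true_iff] at hk
  rcases hk with ((((hk | hk) | hk) | hk) | hk) | hk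
  · refine Or.inl ⟨hk.1, ?_⟩
    rcases hk.2 with h2 | h2
    · unfold b1 at h2
      simp only [Bool.and_eq_true] at h2
      exact ⟨3, by norm_num, by norm_num, h2.1.1, h2.1.2, h2.2⟩
    · unfold b1 at h2
      simp only [Bool.and_eq_true] at h2
      exact ⟨4, by norm_num, by norm_num, h2.1.1, h2.1.2, h2.2⟩
  · refine Or.inr (Or.inl ⟨hk.1.1, hk.1.2, ?_⟩)
    rcases hk.2 with h2 | h2
    · unfold b2 at h2
      simp only [Bool.and_eq_true] at h2
      exact ⟨3, by norm_num, by norm_num, h2.1.1.1, h2.1.1.2, h2.1.2, h2.2⟩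
    · unfold b2 at h2
      simp only [Bool.and_eq_true] at h2
      exact ⟨4, by norm_num, by norm_num, h2.1.1.1, h2.1.1.2, h2.1.2, h2.2⟩
  · obtain ⟨⟨⟨⟨⟨⟨⟨⟨⟨⟨⟨q1, q2⟩, q3⟩, q4⟩, q5⟩, q6⟩, q7⟩, q8⟩, q9⟩, q10⟩, q11⟩, q12⟩ := hk
    exact Or.inr (Or.inr (Or.inl ⟨q1, q2, q3, q4, q5, q6, q7, q8, q9, q10, q11, q12⟩))
  · exact Or.inr (Or.inr (Or.inr (Or.inl ⟨hk.1.1.1, hk.1.1.2, bTp_sound hk.1.2, bTp_sound hk.2⟩)))
  · refine Or.inr (Or.inr (Or.inr (Or.inr (Or.inl ⟨hk.1.1, hk.1.2, ?_⟩))))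
    rcases hk.2 with h2 | h2
    · unfold b5 at h2
      simp only [Bool.and_eq_true] at h2
      obtain ⟨⟨⟨⟨⟨⟨q1, q2⟩, q3⟩, q4⟩, q5⟩, q6⟩, q7⟩ := h2
      exact ⟨4, by norm_num, by norm_num, bTp_sound q1, q2, q3, q4, q5, q6, q7⟩
    · unfold b5 at h2
      simp only [Bool.and_eq_true] at h2
      obtain ⟨⟨⟨⟨⟨⟨q1, q2⟩, q3⟩, q4⟩, q5⟩, q6⟩, q7⟩ := h2
      exact ⟨5, by norm_num, by norm_num, bTp_sound q1, q2, q3, q4, q5, q6, q7⟩
  · obtain ⟨⟨⟨⟨⟨⟨⟨⟨q1, q2⟩, q3⟩, q4⟩, q5⟩, q6⟩, q7⟩, q8⟩, q9⟩ := hk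
    exact Or.inr (Or.inr (Or.inr (Or.inr (Or.inr ⟨q1, q2, q3, bTp_sound q4, q5, q6, q7, q8, q9⟩))))

/-- check of the facts for the large sums -/
def chkL (h v : ℕ) (x : ℕ → ℕ → Bool) : Bool :=
  allR (fun i => decide (2 * h < 4 * i + 4) || (x (v - 1) (4 * i) && x 0 (4 * i + 2) && x 0 (4 * i + 3) &&
    x 0 (4 * i + 4))) (Nat.log2 h) 0 &&
  allR (fun e => decide (e % 2 = 1) || decide (e < 2) || decide (h < e) || (x e (2 * e - 1) && x (e + 1) (2 * e - 1) &&
    x (e + 1) (2 * e) && x (e + 1) (2 * e + 1) && x e 0 && x (e + 1) 0 && x (e + 1) 1 && x (e + 1) 2))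
    (Nat.log2 h + 1) 0 &&
  allR (fun t => decide (t % 2 = 0) || decide (h ≤ t) || (x t (2 * h + 2) && x (t + 1) (2 * h + 2) &&
    x (t + 1) (2 * h + 3) && x (t + 1) (2 * h + 4))) (Nat.log2 h) 0 &&
  (x 1 0 && x 1 1 && x 2 0 && x 2 3 && x (h + 3) (2 * h + 7) && x (h + 3) (2 * h + 8)) &&
  allR (fun t => decide (t < h + 2) || decide (v ≤ t) || (bif decide (t % 2 = 1) then bTp x (t - 1) 0 else
    bK h (v - 1) x t)) (Nat.log2 v + 1) 0

theorem chkL_sound (h v N L : ℕ) (F : ℤ → Bool) (hF : IsF v F) (hw : wrd v L N = N)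
    (hh : 4 ≤ h) (hh2 : 2 ^ Nat.log2 h = h) (he : h % 2 = 0) (hodd : v % 2 = 1) (hv : 2 * h + 1 ≤ v)
    (hL : v * (2 * h + 10) ≤ L) (hc : chkL h v (xN N h v) = true)
    (ρ σ : ℕ) (hρ : 4 * h + 19 ≤ ρ) (hσ : σ < v) : Two F ((v : ℤ) * ρ + 2 * σ) := by
  by_contra hT
  unfold chkL at hc
  simp only [Bool.and_eq_true] at hc
  obtain ⟨⟨⟨⟨k1, k2⟩, k3⟩, k4⟩, k5⟩ := hc
  obtain ⟨⟨⟨⟨⟨a1, a2⟩, a3⟩, a4⟩, a5⟩, a6⟩ := k4
  have nf := numF v L N F hF hw
  have hX : ∀ t r, xN N h v t r = true → t < v ∧ xF v F t r = true ∧ r ≤ 2 * h + 8 := by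
    intro t r hx
    unfold xN at hx
    rw [Bool.and_eq_true, Bool.and_eq_true, decide_eq_true_iff, decide_eq_true_iff] at hx
    obtain ⟨⟨x1, x2⟩, x3⟩ := hx
    refine ⟨x1, ?_, x2⟩
    have e1 : v * r ≤ v * (2 * h + 8) := Nat.mul_le_mul_left _ x2
    have e2 : v * (2 * h + 10) = v * (2 * h + 8) + 2 * v := by ring
    have e3 := nf (v * r + 2 * t) (by omega)
    unfold xF
    have e4 : (v : ℤ) * r + 2 * t = ((v * r + 2 * t : ℕ) : ℤ) := by push_cast; ring
    rw [e4, e3]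
    exact x3
  have hOne : OneX (fun t r => xN N h v t r = true) (yF v F ((v : ℤ) * ρ + 2 * σ)) := by
    refine OneX_of v F ρ σ _ hodd hσ (fun t r hx => ⟨(hX t r hx).1, (hX t r hx).2.1⟩) ?_ hT
    intro t r t' r' h1 h2
    have := (hX t r h1).2.2
    have := (hX t' r' h2).2.2
    omega
  have hv2 : v < 2 ^ (Nat.log2 v + 1) := Nat.lt_log2_self
  have hh3 : h < 2 ^ (Nat.log2 h + 1) := Nat.lt_log2_self
  have r5 := allR_sound _ _ _ k5
  have r2 := allR_sound _ _ _ k2
  have r1 := allR_sound _ _ _ k1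
  have r3 := allR_sound _ _ _ k3
  rw [hh2] at r1 r3
  have hYF : YF h v (fun t r => xN N h v t r = true) := by
    refine ⟨?_, ?_, ?_, ?_, a1, a2, a3, a4⟩
    · intro i hi
      have c := r1 i (by omega) (by omega)
      simp only [Bool.or_eq_true, Bool.and_eq_true, decide_eq_true_iff] at c
      rcases c with c | c
      · omega
      · exact ⟨c.1.1.1, c.1.1.2, c.1.2, c.2⟩
    · intro e e1 e2 e3
      have c := r2 e (by omega) (by omega)
      simp only [Bool.or_eq_true, Bool.and_eq_true, decide_eq_true_iff] at c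
      rcases c with c | c
      · omega
      · exact ⟨c.1.1.1.1.1.1.1, c.1.1.1.1.1.1.2, c.1.1.1.1.1.2, c.1.1.1.1.2⟩
    · intro t e1 e2
      have c := r3 t (by omega) (by omega)
      simp only [Bool.or_eq_true, Bool.and_eq_true, decide_eq_true_iff] at c
      rcases c with c | c
      · omega
      · exact ⟨c.1.1.1, c.1.1.2, c.1.2, c.2⟩
    · intro e e1 e2 e3
      have c := r2 e (by omega) (by omega)
      simp only [Bool.or_eq_true, Bool.and_eq_true, decide_eq_true_iff] at c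
      rcases c with c | c
      · omega
      · exact ⟨c.1.1.1.2, c.1.1.2, c.1.2, c.2⟩
  have hT5 : ∀ t, h + 2 ≤ t → t < v → (if t % 2 = 1 then bTp (xN N h v) (t - 1) 0 = true else
      bK h (v - 1) (xN N h v) t = true) := by
    intro t e1 e2
    have c := r5 t (by omega) (by omega)
    simp only [Bool.or_eq_true, decide_eq_true_iff] at c
    rcases c with c | c
    · omega
    · by_cases h1 : t % 2 = 1
      · rw [if_pos h1]
        simpa [h1] using c
      · rw [if_neg h1]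
        simpa [h1] using c
  refine MAIX h v F ρ σ (fun t r => xN N h v t r = true) hh he hodd (by omega) hF hYF ?_ ?_ a5 a6 (by omega) hOne
  · intro t e1 e2 e3
    have c := hT5 t e1 e2
    rw [if_pos e3] at c
    exact bTp_sound c
  · intro t e1 e2 e3
    have c := hT5 t e1 e2
    rw [if_neg (by omega)] at c
    exact bK_sound c

end Pool.Agent.U4B
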