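import Pool.Agent.helper13.U4B.CQ

/-!
# Project U4, extension: values of the columns by blocks
-/

set_option autoImplicit false

namespace Pool.Agent.U4B

open Pool.Agent.UL Pool.Agent.U4

theorem vm1_0 (d : ℕ) (h : d = 0) : cM1 0 d := by
  unfold cM1
  simp <;> omega

theorem vm1_1 (d : ℕ) : cM1 1 d := by
  unfold cM1
  simp

theorem v0_0 (d : ℕ) (h : d = 0) : c0 0 d := by
  unfold c0
  simp <;> omega

theorem v0_1 (d : ℕ) (h : d % 2 = 1) : c0 1 d := by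
  unfold c0
  simp <;> omega

theorem v0_3 (d : ℕ) : c0 3 d := by
  unfold c0
  simp

theorem v1_1 (d : ℕ) (h : d % 2 = 1) : c1 1 d := by
  unfold c1
  simp <;> omega

theorem v1_3 (d : ℕ) (h : d % 2 = 1) : c1 3 d := by
  unfold c1
  simp <;> omega

theorem v2_0 (d : ℕ) (h : 1 ≤ d) : c2 0 d := by
  unfold c2
  simp <;> omega

theorem v2_1 (d : ℕ) (h : d ≤ 1) : c2 1 d := by
  unfold c2
  simp <;> omega

theorem v2_3 (d : ℕ) (h : d % 2 = 1) : c2 3 d := by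
  unfold c2
  simp <;> omega

theorem v3_0 (d : ℕ) (h : 2 ≤ d ∧ d % 2 = 0) : c3 0 d := by
  unfold c3
  simp <;> omega

theorem v3_1 (d : ℕ) (h : d = 0 ∨ (4 ≤ d ∧ d % 4 ≤ 1)) : c3 1 d := by
  unfold c3
  simp <;> omega

theorem v3_2 (d : ℕ) : c3 2 d := by
  unfold c3
  simp

theorem v3_3 (d : ℕ) (h : d ≤ 1) : c3 3 d := by
  unfold c3
  simp <;> omega

theorem v4_0 (d : ℕ) (h : 2 ≤ d ∧ d % 2 = 0) : c4 0 d := by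
  unfold c4
  simp <;> omega

theorem v4_1 (d : ℕ) (h : d % 4 ≠ 1) : c4 1 d := by
  unfold c4
  simp <;> omega

theorem v4_2 (d : ℕ) (h : d % 2 = 0) : c4 2 d := by
  unfold c4
  simp <;> omega

theorem v4_3 (d : ℕ) (h : d = 0 ∨ (4 ≤ d ∧ d % 4 ≤ 1)) : c4 3 d := by
  unfold c4
  simp <;> omega

theorem v4_4 (d : ℕ) : c4 4 d := by
  unfold c4
  simp

theorem v5_1 (d : ℕ) (h : d = 3 ∨ (6 ≤ d ∧ d % 2 = 0)) : c5 1 d := by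
  unfold c5
  simp <;> omega

theorem v5_2 (d : ℕ) (h : d % 2 = 0) : c5 2 d := by
  unfold c5
  simp <;> omega

theorem v5_3 (d : ℕ) (h : d % 4 ≠ 1) : c5 3 d := by
  unfold c5
  simp <;> omega

theorem v5_4 (d : ℕ) (h : d % 2 = 0) : c5 4 d := by
  unfold c5
  simp <;> omega

theorem v6_0 (d : ℕ) (h : d = 0 ∨ d % 4 = 1 ∨ d % 4 = 2) : c6 0 d := by
  unfold c6
  simp <;> omega

theorem v6_1 (d : ℕ) (h : d = 1 ∨ d = 2 ∨ d = 5 ∨ d = 6 ∨ (8 ≤ d ∧ d % 4 = 0)) : c6 1 d := by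
  unfold c6
  simp <;> omega

theorem v6_2 (d : ℕ) (h : d = 0) : c6 2 d := by
  unfold c6
  simp <;> omega

theorem v6_3 (d : ℕ) (h : d = 3 ∨ (6 ≤ d ∧ d % 2 = 0)) : c6 3 d := by
  unfold c6
  simp <;> omega

theorem v6_4 (d : ℕ) (h : d % 2 = 0) : c6 4 d := by
  unfold c6
  simp <;> omega

theorem v7x_0 (d : ℕ) (h : 1 ≤ d ∧ d % 4 ≠ 2) : c7x 0 d := by
  unfold c7x
  simp <;> omega

theorem v7x_1 (d : ℕ) (h : d = 0 ∨ d = 1 ∨ d = 3 ∨ d = 6 ∨ (11 ≤ d ∧ (d % 4 = 0 ∨ d % 4 = 3))) : c7x 1 d := by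
  unfold c7x
  simp <;> omega

theorem v7x_2 (d : ℕ) (h : d % 4 = 0 ∨ d % 4 = 3) : c7x 2 d := by
  unfold c7x
  simp <;> omega

theorem v7x_3 (d : ℕ) (h : d = 0 ∨ d = 3 ∨ d = 5 ∨ d = 6 ∨ (8 ≤ d ∧ d % 4 = 0)) : c7x 3 d := by
  unfold c7x
  simp <;> omega

theorem v7x_4 (d : ℕ) (h : d = 0) : c7x 4 d := by
  unfold c7x
  simp <;> omega

theorem v8x_0 (d : ℕ) (h : d % 2 = 1) : c8x 0 d := by
  unfold c8x
  simp <;> omega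

theorem v8x_1 (d : ℕ) (h : d = 1 ∨ d = 3 ∨ d = 6 ∨ d = 9 ∨ d = 10 ∨ d = 11 ∨ (16 ≤ d ∧ d % 4 = 0)) : c8x 1 d := by
  unfold c8x
  simp <;> omega

theorem v8x_2 (d : ℕ) (h : d % 4 = 0) : c8x 2 d := by
  unfold c8x
  simp <;> omega

theorem v8x_3 (d : ℕ) (h : d = 0 ∨ d = 6 ∨ (11 ≤ d ∧ (d % 4 = 0 ∨ d % 4 = 3))) : c8x 3 d := by
  unfold c8x
  simp <;> omega

theorem v8x_4 (d : ℕ) (h : d % 4 = 0 ∨ d % 4 = 3) : c8x 4 d := by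
  unfold c8x
  simp <;> omega

theorem v5q_0 (d : ℕ) (h : d ≤ 2) : c5q 0 d := by
  unfold c5q c5
  simp <;> omega

theorem v5q_1 (d : ℕ) (h : d = 3 ∨ (6 ≤ d ∧ d % 2 = 0)) : c5q 1 d := by
  unfold c5q c5
  simp <;> omega

theorem v5q_2 (d : ℕ) (h : d % 2 = 0) : c5q 2 d := by
  unfold c5q c5
  simp <;> omega

theorem v6q_0 (d : ℕ) (h : d = 1 ∨ (5 ≤ d ∧ (d % 4 = 1 ∨ d % 4 = 2))) : c6q 0 d := by
  unfold c6q c6
  simp <;> omega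

theorem v6q_1 (d : ℕ) (h : d = 1 ∨ d = 2 ∨ d = 5 ∨ d = 6 ∨ (8 ≤ d ∧ d % 4 = 0)) : c6q 1 d := by
  unfold c6q c6
  simp <;> omega

theorem v6q_2 (d : ℕ) (h : d = 0) : c6q 2 d := by
  unfold c6q c6
  simp <;> omega

theorem v8q_0 (d : ℕ) (h : d = 4 ∨ (7 ≤ d ∧ d % 2 = 1)) : c8q 0 d := by
  unfold c8q c8x
  simp <;> omega

theorem v8q_1 (d : ℕ) (h : d = 1 ∨ d = 3 ∨ d = 6 ∨ d = 9 ∨ d = 10 ∨ d = 11 ∨ (16 ≤ d ∧ d % 4 = 0)) : c8q 1 d := by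
  unfold c8q c8x
  simp <;> omega

theorem v8q_2 (d : ℕ) (h : d % 4 = 0) : c8q 2 d := by
  unfold c8q c8x
  simp <;> omega

theorem w0_1 (q d : ℕ) (hq : 2 ≤ q) : c0 (2 * q - 1) d := by
  unfold c0
  omega

theorem w0_3 (q d : ℕ) (hq : 2 ≤ q) (h : d % 2 = 1) : c0 (2 * q - 3) d := by
  unfold c0
  omega

theorem w1_1 (q d : ℕ) (hq : 2 ≤ q) (h : d % 2 = 1) : c1 (2 * q - 1) d := by
  unfold c1
  omega

theorem w1_3 (q d : ℕ) (hq : 2 ≤ q) (h : d % 2 = 1) : c1 (2 * q - 3) d := by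
  unfold c1
  omega

theorem w2_1 (q d : ℕ) (hq : 2 ≤ q) (h : d % 2 = 1) : c2 (2 * q - 1) d := by
  unfold c2
  omega

theorem w2_3 (q d : ℕ) (hq : 2 ≤ q) (h : d = 1) : c2 (2 * q - 3) d := by
  unfold c2
  omega

theorem w4_0 (q d : ℕ) (hq : 2 ≤ q) : c4 (2 * q - 0) d := by
  unfold c4
  omega

theorem w4_1 (q d : ℕ) (hq : 2 ≤ q) (h : d = 0 ∨ (4 ≤ d ∧ d % 4 ≤ 1)) : c4 (2 * q - 1) d := by
  unfold c4
  omega

theorem w4_2 (q d : ℕ) (hq : 2 ≤ q) (h : d % 2 = 0) : c4 (2 * q - 2) d := by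
  unfold c4
  omega

theorem w4_3 (q d : ℕ) (hq : 2 ≤ q) (h : d % 4 = 0) : c4 (2 * q - 3) d := by
  unfold c4
  omega

theorem w5_0 (q d : ℕ) (hq : 2 ≤ q) (h : d % 2 = 0) : c5 (2 * q - 0) d := by
  unfold c5
  omega

theorem w5_1 (q d : ℕ) (hq : 2 ≤ q) (h : d % 4 ≠ 1) : c5 (2 * q - 1) d := by
  unfold c5
  omega

theorem w5_2 (q d : ℕ) (hq : 2 ≤ q) (h : d % 2 = 0) : c5 (2 * q - 2) d := by
  unfold c5
  omega

theorem w5_3 (q d : ℕ) (hq : 2 ≤ q) (h : d = 3 ∨ (6 ≤ d ∧ d % 2 = 0)) : c5 (2 * q - 3) d := by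
  unfold c5
  omega

theorem w6_0 (q d : ℕ) (hq : 2 ≤ q) (h : d % 2 = 0) : c6 (2 * q - 0) d := by
  unfold c6
  omega

theorem w6_1 (q d : ℕ) (hq : 2 ≤ q) (h : 6 ≤ d ∧ d % 2 = 0) : c6 (2 * q - 1) d := by
  unfold c6
  omega

theorem w6_2 (q d : ℕ) (hq : 2 ≤ q) (h : d = 0) : c6 (2 * q - 2) d := by
  unfold c6
  omega

theorem w6_3 (q d : ℕ) (hq : 2 ≤ q) (h : d = 6 ∨ (8 ≤ d ∧ d % 4 = 0)) : c6 (2 * q - 3) d := by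
  unfold c6
  omega

theorem w7x_0 (q d : ℕ) (hq : 2 ≤ q) (h : d = 0) : c7x (2 * q - 0) d := by
  unfold c7x
  omega

theorem w7x_1 (q d : ℕ) (hq : 2 ≤ q) (h : 8 ≤ d ∧ d % 4 = 0) : c7x (2 * q - 1) d := by
  unfold c7x
  omega

theorem w7x_2 (q d : ℕ) (hq : 2 ≤ q) (h : d = 0) : c7x (2 * q - 2) d := by
  unfold c7x
  omega

theorem w7x_3 (q d : ℕ) (hq : 2 ≤ q) (h : 12 ≤ d ∧ d % 4 = 0) : c7x (2 * q - 3) d := by
  unfold c7x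
  omega

theorem w8x_0 (q d : ℕ) (hq : 2 ≤ q) (h : d % 4 = 0 ∨ d % 4 = 3) : c8x (2 * q - 0) d := by
  unfold c8x
  omega

theorem w8x_1 (q d : ℕ) (hq : 2 ≤ q) (h : d = 0 ∨ (11 ≤ d ∧ (d % 4 = 0 ∨ d % 4 = 3))) : c8x (2 * q - 1) d := by
  unfold c8x
  omega

theorem w8x_2 (q d : ℕ) (hq : 2 ≤ q) (h : d % 4 = 0) : c8x (2 * q - 2) d := by
  unfold c8x
  omega

theorem w8x_3 (q d : ℕ) (hq : 2 ≤ q) (h : d = 11 ∨ (16 ≤ d ∧ d % 4 = 0)) : c8x (2 * q - 3) d := by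
  unfold c8x
  omega

end Pool.Agent.U4B
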